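import Mathlib
import Pool.Agent.H305R2.Rough

set_option autoImplicit false

/-!
# The equation `p ^ 2 - 2 r ^ 2 = -1`
-/

namespace Pool.Agent.Y712.Pell

/-- the coefficients of `(1 + √2) ^ n` -/
def ab : ℕ → ℕ × ℕ
  | 0 => (1, 0)
  | n + 1 => ((ab n).1 + 2 * (ab n).2, (ab n).1 + (ab n).2)

/-- the rational part -/
def a (n : ℕ) : ℕ := (ab n).1

/-- the irrational part -/
def b (n : ℕ) : ℕ := (ab n).2

lemma a_zero : a 0 = 1 := rfl
lemma b_zero : b 0 = 0 := rfl
lemma a_one : a 1 = 1 := rfl
lemma b_one : b 1 = 1 := rfl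
lemma a_succ (n : ℕ) : a (n + 1) = a n + 2 * b n := rfl
lemma b_succ (n : ℕ) : b (n + 1) = a n + b n := rfl

lemma a_pos (n : ℕ) : 0 < a n := by
  induction n with
  | zero => decide
  | succ n ih => rw [a_succ]; omega

lemma b_pos {n : ℕ} (hn : 0 < n) : 0 < b n := by
  obtain ⟨m, rfl⟩ : ∃ m, n = m + 1 := ⟨n - 1, by omega⟩
  rw [b_succ]
  have := a_pos m
  omega

/-- the norm -/
lemma norm_ab (n : ℕ) : (a n : ℤ) ^ 2 - 2 * (b n : ℤ) ^ 2 = (-1) ^ n := by
  induction n with
  | zero => simp [a_zero, b_zero]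
  | succ n ih =>
      rw [a_succ, b_succ, pow_succ (-1 : ℤ) n, ← ih]
      push_cast
      ring

lemma norm_odd {n : ℕ} (hn : Odd n) : a n ^ 2 + 1 = 2 * b n ^ 2 := by
  have h := norm_ab n
  rw [hn.neg_one_pow] at h
  have : ((a n ^ 2 + 1 : ℕ) : ℤ) = ((2 * b n ^ 2 : ℕ) : ℤ) := by
    push_cast
    linarith
  exact_mod_cast this

lemma ab_add (m n : ℕ) : a (m + n) = a m * a n + 2 * (b m * b n) ∧
    b (m + n) = a m * b n + b m * a n := by
  induction n with
  | zero => simp [a_zero, b_zero]
  | succ n ih =>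
      rw [← add_assoc, a_succ, b_succ, a_succ, b_succ, ih.1, ih.2]
      constructor <;> ring

lemma a_strict : ∀ n : ℕ, 0 < n → a n < a (n + 1) := fun n hn => by
  rw [a_succ]
  have := b_pos hn
  omega

lemma b_strict : ∀ n : ℕ, b n < b (n + 1) := fun n => by
  rw [b_succ]
  have := a_pos n
  omega

lemma b_strictMono : StrictMono b := strictMono_nat_of_lt_succ b_strict

lemma a_lt {m n : ℕ} (hm : 0 < m) (hmn : m < n) : a m < a n := by
  induction n, hmn using Nat.le_induction with
  | base => exact a_strict m hm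
  | succ n hmn ih => exact ih.trans (a_strict n (by omega))

/-- every solution is a power -/
lemma sol : ∀ r p : ℕ, p ^ 2 + 1 = 2 * r ^ 2 → ∃ n, Odd n ∧ p = a n ∧ r = b n := by
  intro r
  induction r using Nat.strong_induction_on with
  | _ r ih =>
    intro p h
    rcases Nat.lt_or_ge r 2 with hr | hr
    · interval_cases r
      · simp at h
      · have hp : p = 1 := by nlinarith [sq_nonneg ((p : ℤ) - 1)]
        exact ⟨1, odd_one, hp, rfl⟩
    · have hr3 : 3 ≤ r := by
        by_contra hc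
        have : r = 2 := by omega
        subst this
        have h7 : p ^ 2 = 7 := by omega
        have : p ≤ 2 ∨ 3 ≤ p := by omega
        rcases this with h1 | h1
        · have : p ^ 2 ≤ 2 ^ 2 := Nat.pow_le_pow_left h1 2
          omega
        · have : 3 ^ 2 ≤ p ^ 2 := Nat.pow_le_pow_left h1 2
          omega
      have h1 : 4 * r < 3 * p := by nlinarith
      have h2 : 2 * p < 3 * r := by nlinarith
      have h3 : r < p := by nlinarith
      obtain ⟨p', hp'⟩ : ∃ p', 3 * p = p' + 4 * r := ⟨3 * p - 4 * r, by omega⟩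
      obtain ⟨r', hr'⟩ : ∃ r', 3 * r = r' + 2 * p := ⟨3 * r - 2 * p, by omega⟩
      have h4 : r' < r := by omega
      have h5 : p' ^ 2 + 1 = 2 * r' ^ 2 := by
        have e1 : (p' : ℤ) = 3 * p - 4 * r := by
          have : ((3 * p : ℕ) : ℤ) = ((p' + 4 * r : ℕ) : ℤ) := by rw [hp']
          push_cast at this
          linarith
        have e2 : (r' : ℤ) = 3 * r - 2 * p := by
          have : ((3 * r : ℕ) : ℤ) = ((r' + 2 * p : ℕ) : ℤ) := by rw [hr']
          push_cast at this
          linarith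
        have e3 : (p : ℤ) ^ 2 + 1 = 2 * (r : ℤ) ^ 2 := by exact_mod_cast h
        have : ((p' ^ 2 + 1 : ℕ) : ℤ) = ((2 * r' ^ 2 : ℕ) : ℤ) := by
          push_cast
          rw [e1, e2]
          linear_combination e3
        exact_mod_cast this
      obtain ⟨n, hn, e1, e2⟩ := ih r' h4 p' h5
      refine ⟨n + 2, hn.add_even even_two, ?_, ?_⟩
      · have e : a (n + 2) = 3 * a n + 4 * b n := by
          rw [a_succ, a_succ, b_succ]; ring
        rw [e, ← e1, ← e2]
        omega
      · have e : b (n + 2) = 2 * a n + 3 * b n := by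
          rw [b_succ, a_succ, b_succ]; ring
        rw [e, ← e1, ← e2]
        omega

/-- divisibility -/
lemma a_dvd (d : ℕ) : ∀ j : ℕ, a d ∣ a (d * (2 * j + 1)) ∧ a d ∣ b (d * (2 * j))
  | 0 => by simp [b_zero]
  | j + 1 => by
      obtain ⟨h1, h2⟩ := a_dvd d j
      have e1 : d * (2 * (j + 1)) = d * (2 * j + 1) + d := by ring
      have e2 : d * (2 * (j + 1) + 1) = d * (2 * (j + 1)) + d := by ring
      have h3 : a d ∣ b (d * (2 * (j + 1))) := by
        rw [e1, (ab_add _ _).2]
        exact dvd_add (h1.mul_right _) (Dvd.intro_left _ rfl)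
      refine ⟨?_, h3⟩
      rw [e2, (ab_add _ _).1]
      exact dvd_add (Dvd.intro_left _ rfl) ((h3.mul_right _).mul_left 2)

lemma b_dvd (d : ℕ) : ∀ j : ℕ, b d ∣ b (d * j)
  | 0 => by simp [b_zero]
  | j + 1 => by
      have e1 : d * (j + 1) = d * j + d := by ring
      rw [e1, (ab_add _ _).2]
      exact dvd_add (Dvd.intro_left _ rfl) ((b_dvd d j).mul_right _)

/-- prime values occur at prime indices only -/
lemma prime_index_a {n : ℕ} (hn : Odd n) (h : (a n).Prime) : n.Prime := by
  have hn1 : n ≠ 1 := by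
    rintro rfl
    rw [a_one] at h
    exact Nat.not_prime_one h
  have hn0 : 0 < n := hn.pos
  by_contra hc
  obtain ⟨d, m, h1, h2, e⟩ := (Nat.not_prime_iff_exists_mul_eq (by omega)).1 hc
  have hm : Odd m := by
    rw [← e] at hn
    exact (Nat.odd_mul.1 hn).2
  obtain ⟨j, rfl⟩ := hm
  have h3 := (a_dvd d j).1
  rw [e] at h3
  have hd1 : d ≠ 1 := by
    rintro rfl
    omega
  have hd0 : d ≠ 0 := by
    rintro rfl
    omega
  rcases (Nat.dvd_prime h).1 h3 with h4 | h4
  · have := a_lt (m := 1) (n := d) one_pos (by omega)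
    rw [a_one] at this
    omega
  · have := a_lt (m := d) (n := n) (by omega) h1
    omega

lemma prime_index_b {n : ℕ} (hn : Odd n) (h : (b n).Prime) : n.Prime := by
  have hn1 : n ≠ 1 := by
    rintro rfl
    rw [b_one] at h
    exact Nat.not_prime_one h
  have hn0 : 0 < n := hn.pos
  by_contra hc
  obtain ⟨d, m, h1, h2, e⟩ := (Nat.not_prime_iff_exists_mul_eq (by omega)).1 hc
  have h3 := b_dvd d m
  rw [e] at h3
  have hd1 : d ≠ 1 := by
    rintro rfl
    omega
  have hd0 : d ≠ 0 := by
    rintro rfl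
    omega
  rcases (Nat.dvd_prime h).1 h3 with h4 | h4
  · have := b_strictMono (show 1 < d by omega)
    rw [b_one] at this
    omega
  · have := b_strictMono h1
    omega

/-- closed form in a field with a square root of two -/
lemma closed {K : Type*} [CommRing K] {s : K} (hs : s * s = 2) (n : ℕ) :
    (1 + s) ^ n = (a n : K) + (b n : K) * s ∧ (1 - s) ^ n = (a n : K) - (b n : K) * s := by
  induction n with
  | zero => simp [a_zero, b_zero]
  | succ n ih =>
      rw [pow_succ, pow_succ, ih.1, ih.2, a_succ, b_succ]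
      push_cast
      constructor
      · linear_combination (b n : K) * hs
      · linear_combination (b n : K) * hs

/-- the prime factors of `a p` and `b p` for an odd prime `p` are larger than `p` -/
lemma factor_gt {p q : ℕ} (hp : p.Prime) (hp2 : p ≠ 2) (hq : q.Prime) (h : q ∣ a p * b p) : p < q := by
  have hpo : Odd p := hp.odd_of_ne_two hp2
  have hnorm := norm_odd hpo
  have hao : Odd (a p) := by
    rcases Nat.even_or_odd (a p) with h1 | h1
    · obtain ⟨c, hc⟩ := h1
      have : (a p) ^ 2 = 4 * c ^ 2 := by rw [hc]; ring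
      omega
    · exact h1
  have hbo : Odd (b p) := by
    rcases Nat.even_or_odd (b p) with h1 | h1
    · obtain ⟨c, hc⟩ := h1
      obtain ⟨e, he⟩ := hao
      have h2 : (b p) ^ 2 = 4 * c ^ 2 := by rw [hc]; ring
      have h3 : (a p) ^ 2 = 4 * (e ^ 2 + e) + 1 := by rw [he]; ring
      omega
    · exact h1
  have hq2 : q ≠ 2 := by
    rintro rfl
    have := (hao.mul hbo)
    rw [← Nat.not_even_iff_odd] at this
    exact this (even_iff_two_dvd.2 h)
  have : Fact q.Prime := ⟨hq⟩
  let K := AlgebraicClosure (ZMod q)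
  have : CharP K q := inferInstance
  obtain ⟨s, hs⟩ : ∃ s : K, s * s = 2 := by
    obtain ⟨s, hs⟩ := IsAlgClosed.exists_pow_nat_eq (2 : K) (n := 2) (by norm_num)
    exact ⟨s, by rw [← hs]; ring⟩
  have h20 : (2 : K) ≠ 0 := by
    intro h0
    have : ((2 : ℕ) : K) = 0 := by exact_mod_cast h0
    rw [CharP.cast_eq_zero_iff K q] at this
    exact hq2 ((Nat.prime_dvd_prime_iff_eq hq Nat.prime_two).1 this)
  have hunit : (1 + s) * (1 - s) = -1 := by linear_combination -hs
  have hε0 : (1 + s) ≠ 0 := by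
    intro h0
    rw [h0, zero_mul] at hunit
    exact one_ne_zero (α := K) (by linear_combination hunit)
  -- the order is `p`, `2 p` or `4 p`
  obtain ⟨c1, c2⟩ := closed hs p
  have h4p : (1 + s) ^ (4 * p) = 1 := by
    have hprod : ((1 + s) * (1 - s)) ^ p = -1 := by rw [hunit, hpo.neg_one_pow]
    rw [mul_pow] at hprod
    rcases (hq.dvd_mul).1 h with h1 | h1
    · have h2 : (a p : K) = 0 := (CharP.cast_eq_zero_iff K q _).2 h1
      rw [h2] at c1 c2
      have h3 : (1 - s) ^ p = -(1 + s) ^ p := by rw [c1, c2]; ring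
      rw [h3] at hprod
      have h4 : (1 + s) ^ p * (1 + s) ^ p = 1 := by linear_combination -hprod
      calc (1 + s) ^ (4 * p) = ((1 + s) ^ p * (1 + s) ^ p) ^ 2 := by ring
        _ = 1 := by rw [h4]; ring
    · have h2 : (b p : K) = 0 := (CharP.cast_eq_zero_iff K q _).2 h1
      rw [h2] at c1 c2
      have h3 : (1 - s) ^ p = (1 + s) ^ p := by rw [c1, c2]; ring
      rw [h3] at hprod
      calc (1 + s) ^ (4 * p) = ((1 + s) ^ p * (1 + s) ^ p) ^ 2 := by ring
        _ = 1 := by rw [hprod]; ring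
  have h4 : (1 + s) ^ 4 ≠ 1 := by
    intro h0
    -- `(1+s)^4 = 17 + 12 s`
    have h1 : (1 + s) ^ 4 = 17 + 12 * s := by linear_combination (s * s + 4 * s + 8) * hs
    have h2 : (4 : K) * (4 + 3 * s) = 0 := by linear_combination h0 - h1
    have h3 : (4 : K) ≠ 0 := by
      have : (4 : K) = 2 * 2 := by norm_num
      rw [this]
      exact mul_ne_zero h20 h20
    have h5 : 4 + 3 * s = 0 := (mul_eq_zero.1 h2).resolve_left h3
    have h6 : (2 : K) = 0 := by linear_combination (3 * s - 4) * h5 - 9 * hs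
    exact h20 h6
  have hpord : p ∣ orderOf (1 + s) := by
    by_contra hc
    have h5 : orderOf (1 + s) ∣ 4 * p := orderOf_dvd_of_pow_eq_one h4p
    have h6 : Nat.Coprime (orderOf (1 + s)) p := ((Nat.Prime.coprime_iff_not_dvd hp).2 hc).symm
    exact h4 (orderOf_dvd_iff_pow_eq_one.1 (h6.dvd_of_dvd_mul_right h5))
  -- Frobenius
  have hfr : (s ^ q) * (s ^ q) = 2 := by
    rw [← mul_pow, hs]
    have : ((2 : ZMod q)) ^ q = 2 := ZMod.pow_card 2
    have h5 := congrArg (algebraMap (ZMod q) K) this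
    rwa [map_pow, map_ofNat] at h5
  have hsq : s ^ q = s ∨ s ^ q = -s := by
    have : (s ^ q - s) * (s ^ q + s) = 0 := by linear_combination hfr - hs
    rcases mul_eq_zero.1 this with h5 | h5
    · left; linear_combination h5
    · right; linear_combination h5
  have hadd : (1 + s) ^ q = 1 + s ^ q := by
    rw [add_pow_char (p := q) (1 : K) s, one_pow]
  have hq1 : 1 < q := hq.one_lt
  rcases hsq with h5 | h5
  · rw [h5] at hadd
    have h6 : (1 + s) ^ (q - 1) = 1 := by
      have : (1 + s) ^ (q - 1) * (1 + s) = 1 * (1 + s) := by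
        rw [← pow_succ, Nat.sub_add_cancel hq1.le, hadd, one_mul]
      exact mul_right_cancel₀ hε0 this
    have h7 : p ∣ q - 1 := hpord.trans (orderOf_dvd_of_pow_eq_one h6)
    have := Nat.le_of_dvd (by omega) h7
    omega
  · rw [h5] at hadd
    have h6 : (1 + s) ^ (2 * (q + 1)) = 1 := by
      have : (1 + s) ^ (q + 1) = -1 := by
        rw [pow_succ, hadd]
        linear_combination hunit
      rw [mul_comm, pow_mul, this]
      ring
    have h7 : p ∣ 2 * (q + 1) := hpord.trans (orderOf_dvd_of_pow_eq_one h6)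
    have h8 : p ∣ q + 1 := by
      rcases (hp.dvd_mul).1 h7 with h9 | h9
      · exact absurd ((Nat.prime_dvd_prime_iff_eq hp Nat.prime_two).1 h9) hp2
      · exact h9
    have hqo : Odd q := hq.odd_of_ne_two hq2
    obtain ⟨k, hk⟩ := h8
    obtain ⟨x, hx⟩ := hpo
    obtain ⟨y, hy⟩ := hqo
    rcases Nat.lt_or_ge k 2 with h9 | h9
    · interval_cases k
      · omega
      · omega
    · nlinarith [hp.two_le]

open Pool.Agent.H305R2 (roughPart) in
lemma rough_self {p m : ℕ} (hm : m ≠ 0) (h : ∀ q : ℕ, q.Prime → q ∣ m → p < q) : roughPart p m = m := by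
  unfold roughPart
  rw [List.filter_eq_self.2, Nat.prod_primeFactorsList hm]
  intro q hq
  rw [Nat.mem_primeFactorsList hm] at hq
  simpa using h q hq.1 hq.2

end Pool.Agent.Y712.Pell
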