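import Mathlib
import Pool.Agent.TH888.C.Val

set_option autoImplicit false

/-!
# Two curve families at the same prime: finitely many coincidences
-/

namespace Pool.Agent.Y712.Pell

open Finset Filter Topology MeasureTheory
open Pool.Agent.TH888.C
open Pool.Agent.W66C
open Pool.Agent.H447R2.ML (Loc ff_eq_floor)
open Pool.Agent.H305R2 (roughPart ff measurable_ff ff_nonneg ff_le_one)

lemma Cur.mono {a0 a1 D D1 : ℝ} {h1 : ℝ → ℝ} {p : ℕ} {y y' y'' : ℝ → ℝ} (h : Cur a0 a1 D h1 p y y' y'')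
    (hD : D ≤ D1) : Cur a0 a1 D1 h1 p y y' y'' where
  loc := ⟨fun t ht => (h.loc.near t ht).trans hD, h.loc.der, fun t ht => (h.loc.slope t ht).trans hD⟩
  der2 := h.der2
  cont2 := h.cont2
  slope := h.slope
  curv := fun t ht => (h.curv t ht).trans hD

lemma summable_wt_sq : Summable (fun p : ℕ => (Real.log p / (p : ℝ)) ^ 2) := by
  have h1 : Summable (fun p : ℕ => 16 * (1 / (p : ℝ) ^ (3 / 2 : ℝ))) :=
    (Real.summable_one_div_nat_rpow.2 (by norm_num)).mul_left 16
  refine Summable.of_nonneg_of_le (fun p => sq_nonneg _) (fun p => ?_) h1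
  rcases Nat.eq_zero_or_pos p with h | h
  · rw [h]
    simp
  · have hp : (0 : ℝ) < p := by exact_mod_cast h
    have h2 : Real.log p ≤ 4 * (p : ℝ) ^ (1 / 4 : ℝ) := by
      have := Real.log_le_rpow_div hp.le (show (0 : ℝ) < 1 / 4 by norm_num)
      linarith
    have h0 : 0 ≤ Real.log p := Real.log_natCast_nonneg p
    have h3 : Real.log p ^ 2 ≤ 16 * (p : ℝ) ^ (1 / 2 : ℝ) := by
      have h4 : ((p : ℝ) ^ (1 / 4 : ℝ)) ^ 2 = (p : ℝ) ^ (1 / 2 : ℝ) := by
        rw [← Real.rpow_natCast, ← Real.rpow_mul hp.le]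
        norm_num
      calc Real.log p ^ 2 ≤ (4 * (p : ℝ) ^ (1 / 4 : ℝ)) ^ 2 := pow_le_pow_left₀ h0 h2 2
        _ = 16 * (p : ℝ) ^ (1 / 2 : ℝ) := by rw [mul_pow, h4]; norm_num
    rw [div_pow, div_le_iff₀ (by positivity)]
    refine h3.trans (le_of_eq ?_)
    have h5 : (p : ℝ) ^ (1 / 2 : ℝ) * (p : ℝ) ^ (3 / 2 : ℝ) = (p : ℝ) ^ 2 := by
      rw [← Real.rpow_add hp, ← Real.rpow_natCast]
      norm_num
    have h6 : (p : ℝ) ^ (3 / 2 : ℝ) ≠ 0 := (Real.rpow_pos_of_pos hp _).ne'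
    rw [← h5]
    field_simp

/-- the first Borel-Cantelli lemma for functions with values in `[0, 1]` -/
lemma borel_cantelli {μ : Measure ℝ} [IsFiniteMeasure μ] {F : ℕ → ℝ → ℝ}
    (hm : ∀ p, Measurable (F p)) (h0 : ∀ p t, 0 ≤ F p t) (h1 : ∀ p t, F p t ≤ 1) {g : ℕ → ℝ}
    (hg : Summable g) (hg0 : ∀ p, 0 ≤ g p) {P : ℕ} (h : ∀ p ≥ P, ∫ t, F p t ∂μ ≤ g p) :
    ∀ᵐ t ∂μ, ∃ Q : ℕ, ∀ p ≥ Q, F p t < 1 := by
  set s : ℕ → Set ℝ := fun p => if P ≤ p then {t | 1 ≤ F p t} else ∅ with hs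
  have hint : ∀ p, Integrable (F p) μ := fun p =>
    Integrable.of_bound (hm p).aestronglyMeasurable 1
      (Eventually.of_forall fun t => by rw [Real.norm_eq_abs, abs_of_nonneg (h0 p t)]; exact h1 p t)
  have hle : ∀ p, μ (s p) ≤ ENNReal.ofReal (g p) := by
    intro p
    by_cases hp : P ≤ p
    · simp only [hs, if_pos hp]
      have h2 := mul_meas_ge_le_integral_of_nonneg (μ := μ) (f := F p)
        (Eventually.of_forall (h0 p)) (hint p) 1
      rw [one_mul] at h2
      rw [← ENNReal.ofReal_toReal (measure_ne_top μ {t | 1 ≤ F p t})]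
      exact ENNReal.ofReal_le_ofReal (h2.trans (h p hp))
    · simp only [hs, if_neg hp, measure_empty]
      exact zero_le
  have hsum : ∑' p, μ (s p) ≠ ⊤ := by
    have h3 : ∑' p, μ (s p) ≤ ∑' p, ENNReal.ofReal (g p) := ENNReal.tsum_le_tsum hle
    rw [← ENNReal.ofReal_tsum_of_nonneg hg0 hg] at h3
    exact (h3.trans_lt ENNReal.ofReal_lt_top).ne
  filter_upwards [ae_eventually_notMem hsum] with t ht
  obtain ⟨Q, hQ⟩ := eventually_atTop.1 ht
  refine ⟨P + Q, fun p hp => ?_⟩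
  have h4 := hQ p (by omega)
  simp only [hs, if_pos (show P ≤ p by omega), Set.mem_ofPred_eq, not_le] at h4
  exact h4

/-- **Two curve families at the same prime.** -/
theorem fin_pair {c0 : ℝ} (hc0 : 0 ≤ c0) {h1 h2 : ℝ → ℝ} {y y' y'' z z' z'' : ℕ → ℝ → ℝ}
    (hym : ∀ p, Measurable (y p)) (hzm : ∀ p, Measurable (z p))
    (hfam1 : ∀ a0 a1 : ℝ, c0 < a0 → a0 < a1 → ∃ D : ℝ, 0 ≤ D ∧
      ∀ᶠ p : ℕ in atTop, Cur a0 a1 D h1 p (y p) (y' p) (y'' p))
    (hfam2 : ∀ a0 a1 : ℝ, c0 < a0 → a0 < a1 → ∃ D : ℝ, 0 ≤ D ∧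
      ∀ᶠ p : ℕ in atTop, Cur a0 a1 D h2 p (z p) (z' p) (z'' p))
    (hdiff : ∀ a0 a1 : ℝ, c0 < a0 → a0 < a1 → ∃ δ : ℝ, 0 < δ ∧
      ∀ᶠ p : ℕ in atTop, ∀ t ∈ Set.Icc a0 a1, δ ≤ z' p t - y' p t)
    {val wal : ℕ → ℝ → ℝ}
    (hval : ∀ t, c0 < t → ∀ᶠ p : ℕ in atTop, p.Prime → 0 < val p t ∧ Real.log (val p t) = y p t)
    (hwal : ∀ t, c0 < t → ∀ᶠ p : ℕ in atTop, p.Prime → 0 < wal p t ∧ Real.log (wal p t) = z p t) :
    ∀ᵐ t : ℝ, c0 < t → {p : ℕ | p.Prime ∧ (roughPart p ⌊val p t⌋₊).Prime ∧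
      (roughPart p ⌊wal p t⌋₊).Prime}.Finite := by
  refine ae_win fun b0 b1 hb0 hb01 => ?_
  set a0 := (c0 + b0) / 2 with ha0
  set a1 := b1 + 1 with ha1
  have h01 : c0 < a0 := by rw [ha0]; linarith
  have h02 : a0 < b0 := by rw [ha0]; linarith
  have h03 : b1 < a1 := by rw [ha1]; linarith
  obtain ⟨D1, hD1, hev1⟩ := hfam1 a0 a1 h01 (by linarith)
  obtain ⟨D2, hD2, hev2⟩ := hfam2 a0 a1 h01 (by linarith)
  obtain ⟨δ, hδ, hev3⟩ := hdiff a0 a1 h01 (by linarith)
  obtain ⟨K, hK, P, hP⟩ := near_c (h1 := h1) (h2 := h2) (a0 := a0) (a1 := a1) (D := D1 + D2) (δ := min δ 1)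
    (by linarith) (by linarith) h02 hb01 h03 (lt_min hδ one_pos) (min_le_right _ _)
  obtain ⟨P1, hP1⟩ := eventually_atTop.1 (hev1.and (hev2.and hev3))
  have hmem : ∀ᵐ t ∂(volume.restrict (Set.Ioc b0 b1)), t ∈ Set.Ioc b0 b1 :=
    ae_restrict_mem measurableSet_Ioc
  have hfin : IsFiniteMeasure (volume.restrict (Set.Ioc b0 b1)) := ⟨by simp⟩
  have hbc := borel_cantelli (μ := volume.restrict (Set.Ioc b0 b1))
    (F := fun p t => ff p (y p t) * ff p (z p t))
    (fun p => ((measurable_ff p).comp (hym p)).mul ((measurable_ff p).comp (hzm p)))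
    (fun p t => mul_nonneg (ff_nonneg _ _) (ff_nonneg _ _))
    (fun p t => mul_le_one₀ (ff_le_one _ _) (ff_nonneg _ _) (ff_le_one _ _))
    (summable_wt_sq.mul_left K) (fun p => mul_nonneg hK.le (sq_nonneg _)) (P := P + P1)
    (fun p hp => by
      obtain ⟨c1, c2, c3⟩ := hP1 p (by omega)
      exact hP p (by omega) p le_rfl (by omega) _ _ _ _ _ _ (Cur.mono c1 (by linarith))
        (Cur.mono c2 (by linarith)) (fun t ht => (min_le_left _ _).trans (c3 t ht)))
  filter_upwards [hbc, hmem, ae_restrict_of_ae (ne_nat_ae hfam1), ae_restrict_of_ae (ne_nat_ae hfam2)]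
    with t ht htm hn1 hn2
  obtain ⟨Q, hQ⟩ := ht
  have htc : c0 < t := hb0.trans htm.1
  obtain ⟨Q1, hQ1⟩ := hn1 htc
  obtain ⟨Q2, hQ2⟩ := hn2 htc
  obtain ⟨Q3, hQ3⟩ := eventually_atTop.1 (hval t htc)
  obtain ⟨Q4, hQ4⟩ := eventually_atTop.1 (hwal t htc)
  refine (Set.finite_lt_nat (Q + Q1 + Q2 + Q3 + Q4)).subset ?_
  rintro p ⟨hp, hr1, hr2⟩
  by_contra hc
  rw [Set.mem_ofPred_eq, not_lt] at hc
  obtain ⟨e1, e2⟩ := hQ3 p (by omega) hp
  obtain ⟨e3, e4⟩ := hQ4 p (by omega) hp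
  have g1 : ff p (y p t) = 1 := by
    rw [← e2, ff_eq_floor e1 (fun m hm => hQ1 p (by omega) m (by rw [← e2, Real.exp_log e1]; exact hm)),
      if_pos hr1]
  have g2 : ff p (z p t) = 1 := by
    rw [← e4, ff_eq_floor e3 (fun m hm => hQ2 p (by omega) m (by rw [← e4, Real.exp_log e3]; exact hm)),
      if_pos hr2]
  have g3 := hQ p (by omega)
  rw [g1, g2] at g3
  norm_num at g3

/-- **The Lucas sequences of both kinds at the same prime.** -/
theorem fin_UV {A B : ℝ → ℝ} (hA : ContDiffOn ℝ 2 A (Set.Ioi 0)) (hApos : ∀ x, 0 < x → 0 < A x)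
    (hB : ContDiffOn ℝ 2 B (Set.Ioi 0)) (hBpos : ∀ x, 0 < x → 0 < B x)
    (hG : ∀ x : ℝ, 0 < x → 0 < deriv (fun x => A x * Real.sqrt (x ^ 2 + 4) / B x) x) :
    ∀ᵐ x : ℝ, 0 < x → {p : ℕ | p.Prime ∧ (roughPart p ⌊B x * lU x p⌋₊).Prime ∧
      (roughPart p ⌊A x * lV x p⌋₊).Prime}.Finite := by
  refine ae_of_sinh (Q := fun x : ℝ => 0 < x → {p : ℕ | p.Prime ∧
    (roughPart p ⌊B x * lU x p⌋₊).Prime ∧ (roughPart p ⌊A x * lV x p⌋₊).Prime}.Finite) ?_
  have hne : ∀ t : ℝ, 2 * Real.cosh t ≠ 0 := fun t => by have := Real.cosh_pos t; positivity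
  obtain ⟨H, H', H'', hHm, hHe, hH1, hH2, hH3⟩ := amp (c0 := 0) hA hApos
    (g := fun t => 2 * Real.sinh t) (g' := fun t => 2 * Real.cosh t) (g'' := fun t => 2 * Real.sinh t)
    (by fun_prop) (fun t => (Real.hasDerivAt_sinh t).const_mul 2)
    (fun t => (Real.hasDerivAt_cosh t).const_mul 2) (by fun_prop) (fun t ht => sinh_pos' ht)
  obtain ⟨I, I', I'', hIm, hIe, hI1, hI2, hI3⟩ := amp (c0 := 0) hB hBpos
    (g := fun t => 2 * Real.sinh t) (g' := fun t => 2 * Real.cosh t) (g'' := fun t => 2 * Real.sinh t)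
    (by fun_prop) (fun t => (Real.hasDerivAt_sinh t).const_mul 2)
    (fun t => (Real.hasDerivAt_cosh t).const_mul 2) (by fun_prop) (fun t ht => sinh_pos' ht)
  have hJ1 : ∀ t : ℝ, 0 < t → HasDerivAt (fun t => I t - Real.log (2 * Real.cosh t))
      (I' t - (2 * Real.sinh t / (2 * Real.cosh t))) t :=
    fun t ht => (hI1 t ht).sub (((Real.hasDerivAt_cosh t).const_mul 2).log (hne t))
  have hJ2 : ∀ t : ℝ, 0 < t → HasDerivAt (fun t => I' t - (2 * Real.sinh t / (2 * Real.cosh t)))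
      (I'' t - ((2 * Real.cosh t * (2 * Real.cosh t) - 2 * Real.sinh t * (2 * Real.sinh t)) /
      (2 * Real.cosh t) ^ 2)) t :=
    fun t ht => (hI2 t ht).sub (((Real.hasDerivAt_sinh t).const_mul 2).div
      ((Real.hasDerivAt_cosh t).const_mul 2) (hne t))
  have hJ3 : ContinuousOn (fun t => I'' t - ((2 * Real.cosh t * (2 * Real.cosh t) -
      2 * Real.sinh t * (2 * Real.sinh t)) / (2 * Real.cosh t) ^ 2)) (Set.Ioi 0) :=
    hI3.sub (ContinuousOn.div (by fun_prop) (by fun_prop) fun t _ => pow_ne_zero 2 (hne t))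
  have hfamU := fam_cur (m1 := 2) (m0 := 0) (s := 1) (c0 := 0) two_pos (by simp) (by norm_num) hJ1 hJ2 hJ3
  have hfamV := fam_cur (m1 := 2) (m0 := 0) (s := -1) (c0 := 0) two_pos (by simp) (by norm_num) hH1 hH2 hH3
  -- the difference of the slopes
  have hpos : ∀ t : ℝ, 0 < t → 0 < H' t - (I' t - (2 * Real.sinh t / (2 * Real.cosh t))) := by
    intro t ht
    have hx := sinh_pos' ht
    set G : ℝ → ℝ := fun x => A x * Real.sqrt (x ^ 2 + 4) / B x with hGd
    have hGx := hG _ hx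
    have hdG : DifferentiableAt ℝ G (2 * Real.sinh t) := differentiableAt_of_deriv_ne_zero hGx.ne'
    have hGpos : ∀ x : ℝ, 0 < x → 0 < G x := fun x hx => by
      have h1 := hApos x hx
      have h2 := hBpos x hx
      have h3 : 0 < Real.sqrt (x ^ 2 + 4) := Real.sqrt_pos.2 (by positivity)
      simp only [hGd]
      positivity
    have d1 : HasDerivAt (fun t : ℝ => Real.log (G (2 * Real.sinh t)))
        (deriv G (2 * Real.sinh t) * (2 * Real.cosh t) / G (2 * Real.sinh t)) t := by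
      have h1 : HasDerivAt (fun t : ℝ => 2 * Real.sinh t) (2 * Real.cosh t) t :=
        (Real.hasDerivAt_sinh t).const_mul 2
      have h2 : HasDerivAt (fun t : ℝ => G (2 * Real.sinh t))
          (deriv G (2 * Real.sinh t) * (2 * Real.cosh t)) t :=
        HasDerivAt.comp t (h₂ := G) hdG.hasDerivAt h1
      exact h2.log (hGpos _ hx).ne'
    have d2 := (hH1 t ht).sub (hJ1 t ht)
    have d3 : HasDerivAt (fun t : ℝ => Real.log (G (2 * Real.sinh t)))
        (H' t - (I' t - (2 * Real.sinh t / (2 * Real.cosh t)))) t := by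
      refine d2.congr_of_eventuallyEq ?_
      filter_upwards [Ioi_mem_nhds ht] with s hs
      have hs0 : 0 < s := hs
      have hxs := sinh_pos' hs0
      have h1 := hApos _ hxs
      have h2 := hBpos _ hxs
      have h3 : Real.sqrt ((2 * Real.sinh s) ^ 2 + 4) = 2 * Real.cosh s := by
        have h4 : (2 * Real.sinh s) ^ 2 + 4 = (2 * Real.cosh s) ^ 2 := by
          have := Real.cosh_sq s
          nlinarith
        rw [h4, Real.sqrt_sq (by have := Real.cosh_pos s; linarith)]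
      simp only [Pi.sub_apply, hGd]
      rw [hHe s hs0, hIe s hs0, h3, Real.log_div (mul_ne_zero h1.ne' (hne s)) h2.ne',
        Real.log_mul h1.ne' (hne s)]
      ring
    rw [d3.unique d1]
    have h5 := Real.cosh_pos t
    have h6 := hGpos _ hx
    positivity
  have hcont : ContinuousOn (fun t => H' t - (I' t - (2 * Real.sinh t / (2 * Real.cosh t)))) (Set.Ioi 0) := by
    intro t ht
    exact (((hH2 t ht).continuousAt).sub ((hJ2 t ht).continuousAt)).continuousWithinAt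
  have hlaw := fin_pair le_rfl (fun p => measurable_yy 2 0 1 (hIm.sub (by fun_prop :
      Measurable fun t : ℝ => Real.log (2 * Real.cosh t))) p)
    (fun p => measurable_yy 2 0 (-1) hHm p) hfamU hfamV (fun a0 a1 ha0 ha1 => by
      obtain ⟨t0, ht0, hmin⟩ := isCompact_Icc.exists_isMinOn (Set.nonempty_Icc.2 ha1.le)
        (hcont.mono (fun t (ht : t ∈ Set.Icc a0 a1) => ha0.trans_le ht.1))
      refine ⟨_, hpos t0 (ha0.trans_le ht0.1), ?_⟩
      filter_upwards [eventually_ge_atTop 1] with p hp t ht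
      have ht0 : 0 < t := ha0.trans_le ht.1
      have h1 := hmin ht
      simp only [Set.mem_ofPred_eq] at h1
      have hp1 : (1 : ℝ) ≤ p := by exact_mod_cast hp
      set E := Real.exp (-(p * (2 * t - 0))) with hE
      have hE0 : 0 < E := Real.exp_pos _
      have hE1 : E < 1 := by
        rw [hE, Real.exp_lt_one_iff]
        have : 0 < (p : ℝ) * (2 * t - 0) := by
          rw [sub_zero]; positivity
        linarith
      unfold yy1
      rw [← hE]
      have e1 : (-((p : ℝ) * 2) * (-1 * E)) / (1 + -1 * E) = p * 2 * E / (1 - E) := by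
        rw [neg_one_mul, neg_mul_neg, ← sub_eq_add_neg]
      have e2 : (-((p : ℝ) * 2) * (1 * E)) / (1 + 1 * E) = -(p * 2 * E / (1 + E)) := by
        rw [one_mul, neg_mul, neg_div]
      rw [e1, e2]
      have h2 : 0 ≤ (p : ℝ) * 2 * E / (1 - E) := div_nonneg (by positivity) (by linarith)
      have h3 : 0 ≤ (p : ℝ) * 2 * E / (1 + E) := by positivity
      linarith)
    (val := fun p t => B (2 * Real.sinh t) * lU (2 * Real.sinh t) p)
    (wal := fun p t => A (2 * Real.sinh t) * lV (2 * Real.sinh t) p)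
    (by
      intro t ht
      filter_upwards [eventually_ge_atTop 3] with p hp hpp
      have hodd : Odd p := hpp.odd_of_ne_two (by omega)
      have hcl := lU_closed t p
      rw [hyp_odd t hodd, sub_neg_eq_add, ← Real.exp_nat_mul] at hcl
      have hc : 0 < 2 * Real.cosh t := by have := Real.cosh_pos t; positivity
      have e1 : lU (2 * Real.sinh t) p = (Real.exp (p * t) + Real.exp (-(p * t))) / (2 * Real.cosh t) := by
        rw [← hcl]; field_simp
      have h2 : 0 < Real.exp (p * t) + Real.exp (-(p * t)) := by positivity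
      have e2 : Real.exp (p * t) + Real.exp (-(p * t)) =
          Real.exp (p * t) * (1 + 1 * Real.exp (-(p * (2 * t - 0)))) := by
        rw [one_mul, mul_add, mul_one, ← Real.exp_add]
        congr 2
        ring
      have hBp := hBpos _ (sinh_pos' ht)
      have h3 : 0 < lU (2 * Real.sinh t) p := by rw [e1]; positivity
      refine ⟨mul_pos hBp h3, ?_⟩
      unfold yy
      rw [Real.log_mul hBp.ne' h3.ne', e1, Real.log_div h2.ne' hc.ne', e2,
        Real.log_mul (Real.exp_pos _).ne' (by positivity), Real.log_exp, Pi.sub_apply, hIe t ht]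
      ring)
    (by
      intro t ht
      filter_upwards [eventually_ge_atTop 3] with p hp hpp
      have hodd : Odd p := hpp.odd_of_ne_two (by omega)
      have hp0 : (0 : ℝ) < p := by positivity
      have e1 : lV (2 * Real.sinh t) p = Real.exp (p * t) - Real.exp (-(p * t)) := by
        rw [lV_closed, hyp_odd t hodd, ← Real.exp_nat_mul]; ring
      have h2 : Real.exp (-(p * (2 * t - 0))) < 1 := by
        rw [Real.exp_lt_one_iff]
        have : 0 < p * (2 * t - 0) := by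
          rw [sub_zero]; positivity
        linarith
      have e2 : Real.exp (p * t) - Real.exp (-(p * t)) =
          Real.exp (p * t) * (1 + -1 * Real.exp (-(p * (2 * t - 0)))) := by
        rw [neg_one_mul, mul_add, mul_one, mul_neg, ← Real.exp_add, ← sub_eq_add_neg]
        congr 2
        ring
      have h3 : 0 < Real.exp (p * t) * (1 + -1 * Real.exp (-(p * (2 * t - 0)))) :=
        mul_pos (Real.exp_pos _) (by linarith)
      have hAp := hApos _ (sinh_pos' ht)
      rw [e1, e2]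
      refine ⟨mul_pos hAp h3, ?_⟩
      unfold yy
      rw [Real.log_mul hAp.ne' h3.ne', Real.log_mul (Real.exp_pos _).ne' (by linarith), Real.log_exp, hHe t ht]
      ring)
  filter_upwards [hlaw] with t ht hx
  have h1 : 0 < t := Real.sinh_pos_iff.1 (by linarith)
  exact ht h1

end Pool.Agent.Y712.Pell
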