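import Pool.Agent.Y712.Exp
import Pool.Agent.TH841.PT.Mak

/-!
# The average over the values of a polynomial
-/

set_option autoImplicit false

namespace Pool.Agent.Y712

open Finset Polynomial Pool.Agent.W262.RK Pool.Agent.W307.RT Pool.Agent.W307.RS
  Pool.Agent.TH841.PT

open Pool.Agent.H474R2.PG (rho)

variable {ι : Type} [Fintype ι] [DecidableEq ι]

/-- the average of the counting functions -/
theorem makx (hat : ATG) (hl : LWP) (ht : TWP) (hgd : GDP)
    (D : ℤ[X]) (hD : Squarefree (D.map (Int.castRingHom ℚ))) (hd : 0 < D.natDegree)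
    (c : ℕ) (hc : D.natDegree ≤ c) (hk : 2 * c ≤ 2 ^ Fintype.card ι) (μ : ι → ι → ℤ)
    (hμ : ∀ a b, μ a b ≠ 0) :
    ∃ z0 : ℕ, ∀ z, z0 ≤ z → (∀ p : ℕ, p.Prime → z < p → ∀ a b, ¬ (p : ℤ) ∣ μ a b) →
      ∃ C' : ℝ, ∀ y, z < y →
      ∑ s ∈ Tup Unit z y, GN μ (s ()) * ∏ j, gp (rz D z) c (s j) ≤
        C' * Real.exp (Sp (fun p => rho D p) z y) := by
  obtain ⟨zg, hzg⟩ := hgd D hD
  choose E0 zt hE0 hzt using fun i : IX ι => ht D hD hd (κX μ i) (κX_ne μ hμ i)
  refine ⟨zg + (2 * c + 2) + univ.sup zt, fun z hz hpμ => ?_⟩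
  have hzt' : ∀ i, zt i ≤ z := fun i => (le_sup (f := zt) (mem_univ i)).trans (by omega)
  choose Ct hCt using fun i : IX ι => hzt i z (hzt' i)
  obtain ⟨Cl, hCl⟩ := hl D hD hd z
  have hG := hzg z (by omega)
  set q : ℝ := 2 ^ Fintype.card ι with hq
  have h4 : (0 : ℝ) < q := by positivity
  have h41 : (1 : ℝ) ≤ q := one_le_pow₀ (by norm_num)
  have hrc : ∀ p, p.Prime → rz D z p ≤ c := by
    intro p hp
    unfold rz
    split_ifs with h
    · exact_mod_cast ((hG p hp h).1.trans hc)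
    · exact Nat.cast_nonneg _
  set b : IX ι → ℕ → ℝ := fun _ p => if p.Prime then rz D z p / q else 0 with hb
  have hSb : ∀ i y, Sp (b i) z y = Sp (fun p => rho D p) z y / q := by
    intro i y
    rw [← Sp_rz]
    unfold Sp
    rw [sum_div]
    refine sum_congr rfl fun p hp => ?_
    rw [hb]
    simp only
    rw [if_pos (mem_filter.1 hp).2]
    ring
  have hS0 : ∀ y, 0 ≤ Sp (fun p => rho D p) z y := fun y => Sp_nonneg (fun p => Nat.cast_nonneg _) z y
  have hEs : ∀ i, E0 i ≤ ∑ i, E0 i := fun i =>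
    single_le_sum (f := E0) (fun j _ => hE0 j) (mem_univ i)
  have hCs : ∀ i, Ct i ≤ ∑ i, |Ct i| := fun i =>
    (le_abs_self _).trans (single_le_sum (f := fun i => |Ct i|) (fun j _ => abs_nonneg _) (mem_univ i))
  have hE0s : 0 ≤ ∑ i, E0 i := sum_nonneg fun i _ => hE0 i
  have hC0s : 0 ≤ ∑ i, |Ct i| := sum_nonneg fun i _ => abs_nonneg _
  obtain ⟨C, hC⟩ := hat (IX ι) b (LX ι) (κX μ) c z (1 / q)
    (∑ i, |Ct i| + |Cl|) (∑ i, E0 i) (fun y => Sp (fun p => rho D p) z y)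
    (by
      intro i p
      rw [hb]
      simp only
      split_ifs with hp
      · refine ⟨div_nonneg (rz_nonneg _ _ _) h4.le, ?_⟩
        rw [div_le_div_iff₀ h4 (by norm_num)]
        have h1 := hrc p hp
        have h2 : (2 * c : ℝ) ≤ q := by
          rw [hq]
          exact_mod_cast hk
        linarith
      · exact ⟨le_rfl, by norm_num⟩)
    LX_self (by omega) (by positivity) hE0s
    (by
      intro i y hy
      rw [hSb i]
      have h1 := hCl y hy
      have h2 : 1 / q * Real.log (Real.log y) ≤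
          (Sp (fun p => rho D p) z y + Cl) / q := by
        rw [one_div_mul_eq_div]
        exact div_le_div_of_nonneg_right h1 h4.le
      have h3 : Cl / q ≤ |Cl| := by
        rw [div_le_iff₀ h4]
        have := le_abs_self Cl
        have := abs_nonneg Cl
        nlinarith
      rw [add_div] at h2
      linarith)
    (by
      intro y hy U hU
      simp only [hSb]
      rw [sum_const, nsmul_eq_mul]
      have h1 := card_unl U hU
      have h2 : (U.card : ℝ) ≤ q := by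
        rw [hq]
        exact_mod_cast h1
      rw [← mul_div_assoc, div_le_iff₀ h4, mul_comm]
      exact mul_le_mul_of_nonneg_left h2 (hS0 y))
    (by
      intro i y r e hy hr hsq hpr
      have h1 := hCt i y r e hy hr hsq hpr
      have hll := loglog_nonneg (by omega : 2 ≤ z) hr hpr
      have h2 : ∑ p ∈ PS z y, b i p * (Jr p r * Jr (κX μ i) p * x4 e p) / (p : ℝ) =
          (∑ p ∈ PS z y, (rho D p : ℝ) * (Jr p r * Jr (κX μ i) p * x4 e p) / (p : ℝ)) / q := by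
        rw [sum_div]
        refine sum_congr rfl fun p hp => ?_
        have hp' := mem_filter.1 hp
        rw [hb]
        simp only
        rw [if_pos hp'.2]
        unfold rz
        rw [if_pos (mem_Ioc.1 hp'.1).1]
        ring
      rw [h2, hSb i]
      have h3 : (∑ p ∈ PS z y, (rho D p : ℝ) * (Jr p r * Jr (κX μ i) p * x4 e p) / (p : ℝ)) ≤
          (∑ i, E0 i) * Real.log (Real.log r) + ∑ i, |Ct i| := by
        have := mul_le_mul_of_nonneg_right (hEs i) hll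
        linarith [hCs i]
      have h5 : 0 ≤ (∑ i, E0 i) * Real.log (Real.log r) + ∑ i, |Ct i| := by positivity
      have h6 : (∑ p ∈ PS z y, (rho D p : ℝ) * (Jr p r * Jr (κX μ i) p * x4 e p) / (p : ℝ)) /
          q ≤ (∑ i, E0 i) * Real.log (Real.log r) + ∑ i, |Ct i| := by
        rw [div_le_iff₀ h4]
        nlinarith
      have h7 : 0 ≤ 1 / 2 * (Sp (fun p => rho D p) z y / q) := by
        have := hS0 y
        positivity
      have h8 := abs_nonneg Cl
      linarith)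
  refine ⟨C, fun y hy => ?_⟩
  have hμp : ∀ p ∈ PS z y, ∀ a b, ¬ (p : ℤ) ∣ μ a b := by
    intro p hp
    have hp' := mem_filter.1 hp
    exact hpμ p hp'.2 (mem_Ioc.1 hp'.1).1
  rw [expn μ (rz D z) c z y hμp]
  refine le_trans (le_of_eq ?_) ((le_abs_self _).trans (hC y hy))
  refine sum_congr rfl fun d _ => ?_
  congr 1
  refine prod_congr rfl fun i _ => ?_
  unfold gp
  refine prod_congr rfl fun p hp => ?_
  rw [hb]
  simp only
  rw [if_pos (Nat.prime_of_mem_primeFactors hp)]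

/-- the size of the values -/
lemma eval_le1 (D : ℤ[X]) : ∃ K : ℕ, ∀ (x : ℤ) (m : ℕ), 1 ≤ m → x.natAbs ≤ m →
    (D.eval x).natAbs ≤ K * m ^ D.natDegree := by
  refine ⟨∑ i ∈ range (D.natDegree + 1), (D.coeff i).natAbs, fun x m hm hx => ?_⟩
  rw [eval_eq_sum_range, sum_mul]
  refine (Int.natAbs_sum_le _ _).trans (sum_le_sum fun i hi => ?_)
  rw [Int.natAbs_mul, Int.natAbs_pow]
  refine Nat.mul_le_mul_left _ ?_
  refine (Nat.pow_le_pow_left hx i).trans (Nat.pow_le_pow_right hm ?_)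
  have := mem_range.1 hi
  omega

/-- the hypothesis on the arithmetic function -/
def RB (Rf : ℤ → ℝ) (μ : ι → ι → ℤ) (z1 : ℕ) : Prop :=
  ∃ A : ℕ → ℝ, (∀ z, 0 ≤ A z) ∧ ∀ B : ℕ, ∃ A' : ℝ, 1 ≤ A' ∧ ∀ (z y X k : ℕ) (d : ℤ), z1 ≤ z →
    d ≠ 0 → d.natAbs ≤ X ^ B → 1 ≤ X → 1 ≤ y → X < (y + 1) ^ k →
    Rf d ≤ A z * A' ^ k *
      (2 ^ Fintype.card ι : ℝ) ^ (S2 z y (fun _ : Unit => d) ()).primeFactors.card *
      (NS μ (S1 z y (fun _ : Unit => d) ()).primeFactors
        (ngs d (S1 z y (fun _ : Unit => d) ())) : ℝ)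

/-- **the average over the values of a squarefree polynomial**, in short intervals -/
theorem avgx {Rf : ℤ → ℝ} (hRf : ∀ d, 0 ≤ Rf d) (hcnt : CNTP)
    (hant : ANTX) (hrs : RSP) (hrv : RVP) (hru : RUP) (hat : ATG) (hl : LWP) (ht : TWP)
    (hgd : GDP) (μ : ι → ι → ℤ) (hμ : ∀ a b, μ a b ≠ 0) (z1 : ℕ) (hRB : RB Rf μ z1)
    (hμ1 : ∀ p : ℕ, p.Prime → z1 < p → ∀ a b, ¬ (p : ℤ) ∣ μ a b)
    (D : ℤ[X]) (B : ℕ) (hD : Squarefree (D.map (Int.castRingHom ℚ)))
    (hd : 0 < D.natDegree) (hk0 : 2 * D.natDegree ≤ 2 ^ Fintype.card ι) :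
    ∃ C : ℝ, ∀ (N : ℤ) (X : ℕ), 1 ≤ X → N.natAbs ≤ X ^ B →
      ∑ t ∈ (Icc 1 X).filter (fun t : ℕ => D.eval (N + (t : ℤ)) ≠ 0),
        Rf (D.eval (N + (t : ℤ))) ≤ C * X := by
  set c := D.natDegree with hc
  obtain ⟨z0, hz0⟩ := makx hat hl ht hgd D hD hd c le_rfl hk0 μ hμ
  obtain ⟨zg, hzg⟩ := hgd D hD
  set z : ℕ := z0 + zg + (2 * c + 2) + 4 + z1 with hz
  have hG := hzg z (by omega)
  obtain ⟨C', hC'⟩ := hz0 z (by omega) fun p hp hzp => hμ1 p hp (by omega)
  obtain ⟨C, K, y0, hC0, hK1, hcn⟩ := hcnt c z (by omega)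
  obtain ⟨Kd, hKd⟩ := eval_le1 D
  set B' : ℕ := (B + 2) * c + 1 with hB'
  obtain ⟨A1, hA1, hA2⟩ := hRB
  obtain ⟨A', hA'1, hrank⟩ := hA2 B'
  set q : ℝ := 2 ^ Fintype.card ι with hq
  have hq1 : (1 : ℝ) ≤ q := one_le_pow₀ (by norm_num)
  set y1 : ℕ := y0 + Kd + 3 with hy1
  -- the summand
  let r : ℤ → ℝ := fun w => Rf (D.eval w)
  have hr0 : ∀ w, 0 ≤ r w := fun w => hRf _
  suffices key : ∃ C2 : ℝ, ∀ θ : {θ : ℤ × ℕ // 1 ≤ θ.2 ∧ θ.1.natAbs ≤ θ.2 ^ B},
      ∑ t ∈ (Icc 1 θ.1.2).filter (fun t : ℕ => D.eval (θ.1.1 + (t : ℤ)) ≠ 0),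
        r (θ.1.1 + (t : ℤ)) ≤ C2 * (θ.1.2 : ℝ) by
    obtain ⟨C2, hC2⟩ := key
    exact ⟨C2, fun N X hX hN => hC2 ⟨(N, X), hX, hN⟩⟩
  set G : (Unit → ℕ) → ℝ := fun s => GN μ (s ()) with hGdef
  have hG0 : ∀ s, 0 ≤ G s := fun s => GN_nonneg μ _
  have hcz : c ≤ z := by omega
  have hrc : ∀ p, p.Prime → rz D z p ≤ c := by
    intro p hp
    unfold rz
    split_ifs with h
    · exact_mod_cast (hG p hp h).1
    · exact Nat.cast_nonneg _
  -- the weights for the primes only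
  set w : ℕ → ℝ := fun p => if p.Prime then rz D z p else 0 with hw
  have hw0 : ∀ p, 0 ≤ w p := by
    intro p
    rw [hw]
    simp only
    split_ifs
    · exact rz_nonneg _ _ _
    · exact le_rfl
  have hwc : ∀ p, w p ≤ c := by
    intro p
    rw [hw]
    simp only
    split_ifs with h
    · exact hrc p h
    · exact Nat.cast_nonneg _
  have hgw : ∀ d, gp w c d = gp (rz D z) c d := by
    intro d
    unfold gp
    refine prod_congr rfl fun p hp => ?_
    rw [hw]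
    simp only
    rw [if_pos (Nat.prime_of_mem_primeFactors hp)]
  have hgwn : ∀ {y d : ℕ}, d ∣ PP z y → 0 ≤ gp w c d := fun hd => gp_nonneg hw0 hcz hd
  have hc1 : 1 ≤ c := hd
  have hgrow : ∀ y, z < y → ∀ s e : Unit → ℕ, (fun j => s j * e j) ∈ Tup Unit z y →
      G (fun j => s j * e j) ≤ q ^ (∑ j, (e j).primeFactors.card) * G s := by
    intro y _ s e hse
    have h1 : s () * e () ∣ PP z y := Tup_unit1 hse
    have h2 : Squarefree (s () * e ()) :=
      Squarefree.squarefree_of_dvd h1 (Pool.Agent.W108.RK.PP_squarefree z y)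
    have h3 : (s ()).Coprime (e ()) := Nat.coprime_of_squarefree_mul h2
    have h4 : s () ≠ 0 := left_ne_zero_of_mul h2.ne_zero
    have h5 : e () ≠ 0 := right_ne_zero_of_mul h2.ne_zero
    have h6 := GN_mul μ (s ()) (e ()) h4 h5 h3
    have h7 : ∑ j : Unit, (e j).primeFactors.card = (e ()).primeFactors.card := by simp
    rw [hGdef, h7]
    exact h6
  refine hant Unit ℕ {θ : ℤ × ℕ // 1 ≤ θ.2 ∧ θ.1.natAbs ≤ θ.2 ^ B}
    (fun θ => (Icc 1 θ.1.2).filter (fun t : ℕ => D.eval (θ.1.1 + (t : ℤ)) ≠ 0))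
    (fun θ => θ.1.2) (fun θ t _ => D.eval (θ.1.1 + (t : ℤ))) (fun θ => (θ.1.2 : ℝ)) z
    (fun y => Real.exp (Sp (fun p => rho D p) z y))
    (fun s => G s * ∏ j, gp w c (s j))
    (fun v => ∏ j, (q ^ (v j).primeFactors.card * (gp w c (v j) / v j)))
    (fun u => ∏ j, ((c : ℝ) ^ (u j).primeFactors.card / (u j : ℝ)))
    (fun θ t => r (θ.1.1 + (t : ℤ)))
    (C * A1 z) A' K y1 (by omega) (fun y _ => Real.exp_pos _)
    (fun θ => θ.2.1) (fun θ => Nat.cast_nonneg _) (fun X0 => ?_) (fun θ t ht => ?_)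
    (fun θ t => hr0 _) (mul_nonneg hC0 (hA1 z)) hA'1 hK1
    (fun y s hs => ⟨?_, ?_⟩) (fun y Y _ u hu => ?_) (fun lam hlam => ?_)
    (fun lam hlam => ?_) (fun lam hlam => ?_) ?_
  · -- small scales
    refine ⟨∑ N ∈ Icc (-((X0 : ℤ) ^ B)) ((X0 : ℤ) ^ B), ∑ t ∈ Icc 1 X0, r (N + (t : ℤ)), ?_⟩
    rintro ⟨⟨N, X⟩, hX, hN⟩ hle
    simp only at hX hN hle ⊢
    have hX0 : X ^ B ≤ X0 ^ B := Nat.pow_le_pow_left hle B
    have hmem : N ∈ Icc (-((X0 : ℤ) ^ B)) ((X0 : ℤ) ^ B) := by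
      rw [mem_Icc]
      have h1 : (N.natAbs : ℤ) ≤ (X0 : ℤ) ^ B := by exact_mod_cast hN.trans hX0
      omega
    have h1 : ∑ t ∈ (Icc 1 X).filter (fun t : ℕ => D.eval (N + (t : ℤ)) ≠ 0),
        r (N + (t : ℤ)) ≤ ∑ t ∈ Icc 1 X0, r (N + (t : ℤ)) := by
      refine sum_le_sum_of_subset_of_nonneg ?_ fun t _ _ => hr0 _
      exact (filter_subset _ _).trans (Icc_subset_Icc_right hle)
    have h2 : ∑ t ∈ Icc 1 X0, r (N + (t : ℤ)) ≤
        ∑ N ∈ Icc (-((X0 : ℤ) ^ B)) ((X0 : ℤ) ^ B), ∑ t ∈ Icc 1 X0, r (N + (t : ℤ)) :=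
      single_le_sum (f := fun N : ℤ => ∑ t ∈ Icc 1 X0, r (N + (t : ℤ)))
        (fun _ _ => sum_nonneg fun _ _ => hr0 _) hmem
    have h3 : 0 ≤ ∑ N ∈ Icc (-((X0 : ℤ) ^ B)) ((X0 : ℤ) ^ B), ∑ t ∈ Icc 1 X0, r (N + (t : ℤ)) :=
      sum_nonneg fun _ _ => sum_nonneg fun _ _ => hr0 _
    have h4 : (1 : ℝ) ≤ (X : ℝ) := by exact_mod_cast hX
    exact (h1.trans h2).trans (le_mul_of_one_le_right h3 h4)
  · -- good values
    refine ⟨fun _ => (mem_filter.1 ht).2, fun p hp hzp j l hjl _ => absurd rfl hjl⟩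
  · exact mul_nonneg (hG0 s) (prod_nonneg fun j _ => hgwn (Tup_unit1 hs))
  · exact prod_nonneg fun j _ => mul_nonneg (by positivity)
      (div_nonneg (hgwn (Tup_unit1 hs)) (Nat.cast_nonneg _))
  · exact prod_nonneg fun j _ => by positivity
  · -- the first sum
    obtain ⟨A, hA⟩ := hrs Unit z c (fun _ => w) G
      (fun y => C' * Real.exp (Sp (fun p => rho D p) z y)) q lam (by omega)
      (fun _ p => ⟨hw0 p, hwc p⟩) hq1 hlam hG0 hgrow
      (fun y hy => by
        simp only [hgw]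
        exact hC' y hy)
    refine ⟨A * C', fun y hy => ?_⟩
    have := hA y hy
    rw [mul_assoc]
    exact this
  · exact hrv Unit z c (fun _ => w) q lam (by omega)
      (fun _ p => ⟨hw0 p, hwc p⟩) hq1 hlam
  · exact hru Unit (c : ℝ) lam (by exact_mod_cast hc1) hlam
  -- the local majorant
  rintro ⟨⟨N, X⟩, hX1, hN⟩ y Y k hy0 hzy hyK hk s hs v hv u hu h8 T' hT' hval
  simp only at hX1 hN hyK hk h8 hT' hval ⊢
  have hy00 : y0 ≤ y := by omega
  have hyX : y ≤ X := le_trans (Nat.le_self_pow (by omega) y) hyK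
  set g : Finset ℕ → ℝ := fun E => (NS μ (s ()).primeFactors E : ℝ) with hg
  have hg0 : ∀ E, 0 ≤ g E := fun E => Nat.cast_nonneg _
  have h1 : ∀ t ∈ T', r (N + (t : ℤ)) ≤
      A1 z * A' ^ k * q ^ (v ()).primeFactors.card * g (ngs (D.eval (N + (t : ℤ))) (s ())) := by
    intro t ht
    have htT := hT' ht
    rw [mem_filter] at htT
    obtain ⟨ht1, ht0⟩ := htT
    obtain ⟨hts, htv, _⟩ := hval t ht
    have hsize : (D.eval (N + (t : ℤ))).natAbs ≤ X ^ B' := by
      have e2 : t ≤ X := (mem_Icc.1 ht1).2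
      have e5 : X ^ B ≤ X ^ (B + 1) := Nat.pow_le_pow_right hX1 (by omega)
      have e6 : X ≤ X ^ (B + 1) := Nat.le_self_pow (by omega) X
      have e7 : 1 ≤ X ^ (B + 1) := Nat.one_le_pow _ _ hX1
      have e8 : (N + (t : ℤ)).natAbs ≤ X ^ (B + 2) := by
        calc (N + (t : ℤ)).natAbs ≤ N.natAbs + t :=
              (Int.natAbs_add_le _ _).trans (by rw [Int.natAbs_natCast])
          _ ≤ X ^ (B + 1) + X ^ (B + 1) := Nat.add_le_add (hN.trans e5) (e2.trans e6)
          _ = 2 * X ^ (B + 1) := by ring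
          _ ≤ X * X ^ (B + 1) := Nat.mul_le_mul_right _ (by omega)
          _ = X ^ (B + 2) := by ring
      calc (D.eval (N + (t : ℤ))).natAbs ≤ Kd * (X ^ (B + 2)) ^ c :=
            hKd _ _ (Nat.one_le_pow _ _ hX1) e8
        _ ≤ X * (X ^ (B + 2)) ^ c := Nat.mul_le_mul_right _ (by omega)
        _ = X ^ B' := by rw [hB', ← pow_mul]; ring
    have hr := hrank z y X k _ (by omega) ht0 hsize hX1 (by omega) hk
    have es1 : S1 z y (fun _ : Unit => D.eval (N + (t : ℤ))) = s := hts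
    have es2 : S2 z y (fun _ : Unit => D.eval (N + (t : ℤ))) = v := htv
    rw [es1, es2] at hr
    exact hr
  have hneg : ∀ t ∈ T', ngs (D.eval (N + (t : ℤ))) (s ()) ∈ (s ()).primeFactors.powerset := by
    intro t _
    rw [mem_powerset]
    exact filter_subset _ _
  have h2 : ∑ t ∈ T', g (ngs (D.eval (N + (t : ℤ))) (s ())) =
      ∑ E ∈ (s ()).primeFactors.powerset,
        ((T'.filter (fun t : ℕ => ngs (D.eval (N + (t : ℤ))) (s ()) = E)).card : ℝ) * g E := by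
    rw [← sum_fiberwise_of_maps_to hneg]
    refine sum_congr rfl fun E _ => ?_
    rw [← nsmul_eq_mul, ← sum_const]
    refine sum_congr rfl fun t ht => ?_
    rw [(mem_filter.1 ht).2]
  set Q : ℝ := C * X * (1 / 2) ^ (s ()).primeFactors.card * gp (fun p => rho D p) c (s ()) *
        (gp (fun p => rho D p) c (v ()) / v ()) * ((c : ℝ) ^ (u ()).primeFactors.card / u ()) *
        Real.exp (-Sp (fun p => rho D p) z y) with hQ
  have h8' : (s () * v () * u ()) ^ 8 ≤ X := by simpa using h8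
  have h3 : ∀ E ∈ (s ()).primeFactors.powerset,
      ((T'.filter (fun t : ℕ => ngs (D.eval (N + (t : ℤ))) (s ()) = E)).card : ℝ) * g E ≤
        Q * g E := by
    intro E _
    refine mul_le_mul_of_nonneg_right ?_ (hg0 E)
    refine le_trans ?_ (hcn D hG N X y Y hy00 hzy hyK (s ()) (v ()) (u ()) (Tup_unit1 hs)
      (Tup_unit1 hv) (Tup_unit1 hu) h8' E)
    have h4 : T'.filter (fun t : ℕ => ngs (D.eval (N + (t : ℤ))) (s ()) = E) ⊆
        (Icc 1 X).filter (fun t : ℕ =>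
          S1 z y (fun _ : Unit => D.eval (N + (t : ℤ))) () = s () ∧
          S2 z y (fun _ : Unit => D.eval (N + (t : ℤ))) () = v () ∧
          ((u () : ℕ) : ℤ) ∣ D.eval (N + (t : ℤ)) ∧ ngs (D.eval (N + (t : ℤ))) (s ()) = E) := by
      intro t ht
      rw [mem_filter] at ht
      rw [mem_filter]
      obtain ⟨ht', htE⟩ := ht
      obtain ⟨hts, htv, htu⟩ := hval t ht'
      exact ⟨(mem_filter.1 (hT' ht')).1, congrFun hts (), congrFun htv (), htu (), htE⟩
    exact_mod_cast card_le_card h4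
  have hAk : 0 ≤ A1 z * A' ^ k * q ^ (v ()).primeFactors.card := by
    have := hA1 z
    positivity
  calc ∑ t ∈ T', r (N + (t : ℤ))
      ≤ ∑ t ∈ T', A1 z * A' ^ k * q ^ (v ()).primeFactors.card *
          g (ngs (D.eval (N + (t : ℤ))) (s ())) :=
        sum_le_sum h1
    _ = A1 z * A' ^ k * q ^ (v ()).primeFactors.card *
          ∑ E ∈ (s ()).primeFactors.powerset,
            ((T'.filter (fun t : ℕ => ngs (D.eval (N + (t : ℤ))) (s ()) = E)).card : ℝ) * g E := by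
        rw [← mul_sum, h2]
    _ ≤ A1 z * A' ^ k * q ^ (v ()).primeFactors.card *
          ∑ E ∈ (s ()).primeFactors.powerset, Q * g E :=
        mul_le_mul_of_nonneg_left (sum_le_sum h3) hAk
    _ = _ := by
        have e1 : G s = (1 / 2) ^ (s ()).primeFactors.card *
            ∑ E ∈ (s ()).primeFactors.powerset, g E := rfl
        have e3 : gp w c (s ()) = gp (fun p => rho D p) c (s ()) := by
          rw [hgw, gp_rz D (Tup_unit1 hs)]
        have e4 : gp w c (v ()) = gp (fun p => rho D p) c (v ()) := by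
          rw [hgw, gp_rz D (Tup_unit1 hv)]
        have e5 : ∀ F : Unit → ℝ, ∏ j, F j = F () := fun F => by simp
        rw [← mul_sum, e5, e5, e5, e1, e3, e4, hQ, Real.exp_neg]
        ring

end Pool.Agent.Y712
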