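import Pool.Agent.Y712.Loc

/-!
# The number of the solutions of the linear systems
-/

set_option autoImplicit false

namespace Pool.Agent.Y712

open Finset Pool.Agent.W262.RK

variable {ι : Type} [Fintype ι] [DecidableEq ι]

/-- extension by zero -/
def exz (T : Finset ℕ) (w : T → Vec ι) : ℕ → Vec ι := fun q => if h : q ∈ T then w ⟨q, h⟩ else 0

open Classical in
/-- the functions with support in `T` -/
noncomputable def VT (ι : Type) [Fintype ι] [DecidableEq ι] (T : Finset ℕ) : Finset (ℕ → Vec ι) :=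
  univ.image (exz T)

lemma mem_VT {T : Finset ℕ} {v : ℕ → Vec ι} : v ∈ VT ι T ↔ ∀ q, q ∉ T → v q = 0 := by
  classical
  unfold VT
  rw [mem_image]
  constructor
  · rintro ⟨w, _, rfl⟩ q hq
    unfold exz
    rw [dif_neg hq]
  · intro h
    refine ⟨fun q => v q, mem_univ _, ?_⟩
    funext q
    unfold exz
    split_ifs with hq
    · rfl
    · exact (h q hq).symm

omit [Fintype ι] [DecidableEq ι] in
lemma exz_inj (T : Finset ℕ) : Function.Injective (exz (ι := ι) T) := by
  intro w w' h
  funext q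
  have := congrFun h q
  unfold exz at this
  simpa using this

lemma card_VT (T : Finset ℕ) : (VT ι T).card = (2 ^ Fintype.card ι) ^ T.card := by
  classical
  unfold VT
  rw [card_image_of_injective _ (exz_inj T), card_univ]
  simp

/-- the condition at the prime `p` -/
def Cnd (μ : ι → ι → ℤ) (T : Finset ℕ) (e : Bool) (p : ℕ) (v : ℕ → Vec ι) : Prop :=
  ∀ i, ∑ q ∈ T.erase p, js p q * v q i =
    (if e = true then v p i else 0) + ∑ j, js p (μ i j) * v p j

open Classical in
/-- the solutions -/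
noncomputable def Sl (μ : ι → ι → ℤ) (T E : Finset ℕ) : Finset (ℕ → Vec ι) :=
  (VT ι T).filter (fun v => ∀ p ∈ T, Cnd μ T (decide (p ∈ E)) p v)

/-- the number of the solutions -/
noncomputable def NS (μ : ι → ι → ℤ) (T E : Finset ℕ) : ℕ := (Sl μ T E).card

/-- the average over `E` -/
noncomputable def GN (μ : ι → ι → ℤ) (s : ℕ) : ℝ :=
  (1 / 2) ^ s.primeFactors.card * ∑ E ∈ s.primeFactors.powerset, (NS μ s.primeFactors E : ℝ)

lemma mem_Sl {μ : ι → ι → ℤ} {T E : Finset ℕ} {v : ℕ → Vec ι} :
    v ∈ Sl μ T E ↔ (∀ q, q ∉ T → v q = 0) ∧ ∀ p ∈ T, Cnd μ T (decide (p ∈ E)) p v := by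
  classical
  unfold Sl
  rw [mem_filter, mem_VT]

lemma zero_mem_Sl (μ : ι → ι → ℤ) (T E : Finset ℕ) : (0 : ℕ → Vec ι) ∈ Sl μ T E := by
  rw [mem_Sl]
  refine ⟨fun _ _ => rfl, fun p _ i => ?_⟩
  simp

lemma NS_pos (μ : ι → ι → ℤ) (T E : Finset ℕ) : 1 ≤ NS μ T E :=
  card_pos.2 ⟨0, zero_mem_Sl μ T E⟩

/-- affine systems have at most as many solutions as the linear ones -/
lemma aff (μ : ι → ι → ℤ) (T E : Finset ℕ) (b : ℕ → Vec ι) (S : Finset (ℕ → Vec ι))
    (hS : ∀ v ∈ S, (∀ q, q ∉ T → v q = 0) ∧ ∀ p ∈ T, ∀ i,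
      ∑ q ∈ T.erase p, js p q * v q i + b p i =
        (if p ∈ E then v p i else 0) + ∑ j, js p (μ i j) * v p j) : S.card ≤ NS μ T E := by
  classical
  rcases S.eq_empty_or_nonempty with h0 | ⟨v0, hv0⟩
  · rw [h0, card_empty]
    exact Nat.zero_le _
  have hinj : Set.InjOn (fun v : ℕ → Vec ι => v + v0) (S : Set (ℕ → Vec ι)) := by
    intro a _ b _ h
    exact add_right_cancel h
  unfold NS
  refine card_le_card_of_injOn (fun v => v + v0) (fun v hv => ?_) hinj
  obtain ⟨h1, h2⟩ := hS v hv
  obtain ⟨h3, h4⟩ := hS v0 hv0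
  show v + v0 ∈ Sl μ T E
  rw [mem_Sl]
  refine ⟨fun q hq => by rw [Pi.add_apply, h1 q hq, h3 q hq, add_zero], fun p hp i => ?_⟩
  have e1 := h2 p hp i
  have e2 := h4 p hp i
  have hb : b p i + b p i = 0 := CharTwo.add_self_eq_zero _
  have e3 : ∑ q ∈ T.erase p, js p q * (v + v0) q i = ∑ q ∈ T.erase p, js p q * v q i +
      ∑ q ∈ T.erase p, js p q * v0 q i := by
    rw [← sum_add_distrib]
    exact sum_congr rfl fun q _ => by rw [Pi.add_apply, Pi.add_apply, mul_add]
  have e4 : ∑ j, js p (μ i j) * (v + v0) p j = ∑ j, js p (μ i j) * v p j +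
      ∑ j, js p (μ i j) * v0 p j := by
    rw [← sum_add_distrib]
    exact sum_congr rfl fun q _ => by rw [Pi.add_apply, Pi.add_apply, mul_add]
  rw [e3, e4]
  by_cases hE : p ∈ E
  · simp only [hE, if_true, decide_true] at e1 e2 ⊢
    have : (v + v0) p i = v p i + v0 p i := rfl
    rw [this]
    linear_combination e1 + e2 - hb
  · simp only [hE, if_false, decide_false, Bool.false_eq_true] at e1 e2 ⊢
    linear_combination e1 + e2 - hb

/-- growth -/
lemma NS_union (μ : ι → ι → ℤ) (T T' E : Finset ℕ) (h : Disjoint T T') :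
    NS μ (T ∪ T') E ≤ (2 ^ Fintype.card ι) ^ T'.card * NS μ T (E ∩ T) := by
  classical
  -- the restriction
  set f : (ℕ → Vec ι) → (ℕ → Vec ι) := fun v q => if q ∈ T' then v q else 0 with hf
  have hmap : ∀ v ∈ Sl μ (T ∪ T') E, f v ∈ VT ι T' := by
    intro v _
    rw [mem_VT]
    intro q hq
    rw [hf]
    simp only
    rw [if_neg hq]
  unfold NS
  rw [card_eq_sum_card_fiberwise hmap]
  have hfib : ∀ u ∈ VT ι T', ((Sl μ (T ∪ T') E).filter (fun v => f v = u)).card ≤
      NS μ T (E ∩ T) := by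
    intro u hu
    set g : (ℕ → Vec ι) → (ℕ → Vec ι) := fun v q => if q ∈ T then v q else 0 with hg
    have hinj : Set.InjOn g ((Sl μ (T ∪ T') E).filter (fun v => f v = u) : Finset (ℕ → Vec ι)) := by
      intro v hv v' hv' hvv
      rw [mem_coe, mem_filter, mem_Sl] at hv hv'
      funext q
      by_cases hq : q ∈ T
      · have := congrFun hvv q
        rw [hg] at this
        simp only [hq, if_true] at this
        exact this
      · by_cases hq' : q ∈ T'
        · have := congrFun (hv.2.trans hv'.2.symm) q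
          rw [hf] at this
          simp only [hq', if_true] at this
          exact this
        · have hqn : q ∉ T ∪ T' := by
            rw [mem_union]
            tauto
          rw [hv.1.1 q hqn, hv'.1.1 q hqn]
    rw [← card_image_of_injOn hinj]
    refine aff μ T (E ∩ T) (fun p i => ∑ q ∈ T', js p q * u q i) _ fun w hw => ?_
    rw [mem_image] at hw
    obtain ⟨v, hv, rfl⟩ := hw
    rw [mem_filter, mem_Sl] at hv
    obtain ⟨⟨hv1, hv2⟩, hv3⟩ := hv
    refine ⟨fun q hq => by rw [hg]; simp only; rw [if_neg hq], fun p hp i => ?_⟩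
    have h1 := hv2 p (mem_union_left _ hp) i
    have hpT' : p ∉ T' := fun h' => disjoint_left.1 h hp h'
    have h2 : (T ∪ T').erase p = (T.erase p) ∪ T' := by
      ext q
      simp only [mem_erase, mem_union]
      constructor
      · rintro ⟨a, b | b⟩
        · exact Or.inl ⟨a, b⟩
        · exact Or.inr b
      · rintro (⟨a, b⟩ | b)
        · exact ⟨a, Or.inl b⟩
        · exact ⟨fun hqp => hpT' (hqp ▸ b), Or.inr b⟩
    have h3 : Disjoint (T.erase p) T' := disjoint_of_subset_left (erase_subset _ _) h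
    rw [h2, sum_union h3] at h1
    have h4 : ∀ q ∈ T.erase p, js p q * g v q i = js p q * v q i := by
      intro q hq
      rw [hg]
      simp only
      rw [if_pos (mem_of_mem_erase hq)]
    have h5 : ∀ q ∈ T', js p q * u q i = js p q * v q i := by
      intro q hq
      rw [← hv3, hf]
      simp only
      rw [if_pos hq]
    have h6 : g v p = v p := by
      rw [hg]
      simp only
      rw [if_pos hp]
    rw [sum_congr rfl h4]
    simp only [sum_congr rfl h5]
    rw [h6, h1]
    congr 1
    by_cases hE : p ∈ E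
    · simp [hE, hp]
    · simp [hE]
  refine (sum_le_sum hfib).trans ?_
  rw [sum_const, card_VT, smul_eq_mul]
  exact le_rfl

lemma GN_nonneg (μ : ι → ι → ℤ) (s : ℕ) : 0 ≤ GN μ s :=
  mul_nonneg (by positivity) (sum_nonneg fun _ _ => Nat.cast_nonneg _)

/-- growth of the averages -/
lemma GN_mul (μ : ι → ι → ℤ) (s e : ℕ) (hs : s ≠ 0) (he : e ≠ 0) (h : s.Coprime e) :
    GN μ (s * e) ≤ (2 ^ Fintype.card ι : ℝ) ^ e.primeFactors.card * GN μ s := by
  classical
  set T := s.primeFactors with hT
  set T' := e.primeFactors with hT'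
  have hd : Disjoint T T' := h.disjoint_primeFactors
  have hu : (s * e).primeFactors = T ∪ T' := by
    rw [hT, hT', Nat.primeFactors_mul hs he]
  unfold GN
  rw [hu, card_union_of_disjoint hd]
  have h1 : ∑ E ∈ (T ∪ T').powerset, (NS μ (T ∪ T') E : ℝ) ≤
      ∑ E ∈ (T ∪ T').powerset, (2 ^ Fintype.card ι : ℝ) ^ T'.card * (NS μ T (E ∩ T) : ℝ) := by
    refine sum_le_sum fun E _ => ?_
    exact_mod_cast NS_union μ T T' E hd
  have h2 : ∑ E ∈ (T ∪ T').powerset, (2 ^ Fintype.card ι : ℝ) ^ T'.card * (NS μ T (E ∩ T) : ℝ) =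
      ∑ a ∈ T.powerset ×ˢ T'.powerset, (2 ^ Fintype.card ι : ℝ) ^ T'.card * (NS μ T a.1 : ℝ) := by
    refine sum_nbij' (fun E => (E ∩ T, E ∩ T')) (fun a => a.1 ∪ a.2) ?_ ?_ ?_ ?_ ?_
    · intro E _
      rw [mem_product, mem_powerset, mem_powerset]
      exact ⟨inter_subset_right, inter_subset_right⟩
    · intro a ha
      rw [mem_product, mem_powerset, mem_powerset] at ha
      rw [mem_powerset]
      exact union_subset_union ha.1 ha.2
    · intro E hE
      rw [mem_powerset] at hE
      simp only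
      rw [← inter_union_distrib_left]
      exact inter_eq_left.2 hE
    · intro a ha
      rw [mem_product, mem_powerset, mem_powerset] at ha
      obtain ⟨a1, a2⟩ := a
      simp only at ha ⊢
      have e1 : a1 ∩ T = a1 := inter_eq_left.2 ha.1
      have e2 : a2 ∩ T' = a2 := inter_eq_left.2 ha.2
      have e3 : a2 ∩ T = ∅ := by
        rw [← disjoint_iff_inter_eq_empty]
        exact disjoint_of_subset_left ha.2 hd.symm
      have e4 : a1 ∩ T' = ∅ := by
        rw [← disjoint_iff_inter_eq_empty]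
        exact disjoint_of_subset_left ha.1 hd
      rw [union_inter_distrib_right, union_inter_distrib_right, e1, e2, e3, e4, union_empty,
        empty_union]
    · intro E _
      rfl
  rw [h2] at h1
  rw [sum_product] at h1
  simp only [sum_const, card_powerset, nsmul_eq_mul] at h1
  rw [← mul_sum, ← mul_sum] at h1
  push_cast at h1
  have h3 : (0 : ℝ) ≤ (1 / 2) ^ (T.card + T'.card) := by positivity
  refine (mul_le_mul_of_nonneg_left h1 h3).trans (le_of_eq ?_)
  have h4 : (1 / 2 : ℝ) ^ (T.card + T'.card) * 2 ^ T'.card = (1 / 2) ^ T.card := by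
    rw [pow_add, mul_assoc, ← mul_pow]
    norm_num
  calc (1 / 2 : ℝ) ^ (T.card + T'.card) * (2 ^ T'.card *
        ((2 ^ Fintype.card ι) ^ T'.card * ∑ i ∈ T.powerset, (NS μ T i : ℝ))) =
        ((1 / 2 : ℝ) ^ (T.card + T'.card) * 2 ^ T'.card) *
        ((2 ^ Fintype.card ι) ^ T'.card * ∑ i ∈ T.powerset, (NS μ T i : ℝ)) := by ring
    _ = _ := by rw [h4]; ring

/-! ### Powers -/

/-- the block system -/
def blk (m : ℕ) (μ : ι → ι → ℤ) (a b : Fin m × ι) : ℤ := if a.1 = b.1 then μ a.2 b.2 else 1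

lemma js_one (p : ℕ) : js p 1 = 0 := by
  unfold js
  rw [jacobiSym.one_left, if_neg (by norm_num)]

lemma NS_blk (m : ℕ) (μ : ι → ι → ℤ) (T E : Finset ℕ) :
    NS (blk m μ) T E = NS μ T E ^ m := by
  classical
  have h1 : NS μ T E ^ m = (Fintype.piFinset (fun _ : Fin m => Sl μ T E)).card := by
    rw [Fintype.card_piFinset_const]
    rfl
  rw [h1]
  unfold NS
  have key : ∀ (v : ℕ → Vec (Fin m × ι)) (p : ℕ) (e : Bool), Cnd (blk m μ) T e p v ↔
      ∀ a : Fin m, Cnd μ T e p (fun q i => v q (a, i)) := by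
    intro v p e
    unfold Cnd
    rw [Prod.forall]
    refine forall_congr' fun a => forall_congr' fun i => ?_
    have : ∑ j : Fin m × ι, js p (blk m μ (a, i) j) * v p j = ∑ j, js p (μ i j) * v p (a, j) := by
      rw [Fintype.sum_prod_type, sum_eq_single a]
      · refine sum_congr rfl fun j _ => ?_
        simp [blk]
      · intro b _ hb
        refine sum_eq_zero fun j _ => ?_
        have : blk m μ (a, i) (b, j) = 1 := by
          unfold blk
          rw [if_neg]
          exact fun h => hb h.symm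
        rw [this, js_one, zero_mul]
      · intro h
        exact absurd (mem_univ _) h
    rw [this]
  refine card_nbij' (fun v a q i => v q (a, i)) (fun u q x => u x.1 q x.2) ?_ ?_ ?_ ?_
  · intro v hv
    rw [mem_coe, mem_Sl] at hv
    rw [mem_coe, Fintype.mem_piFinset]
    intro a
    rw [mem_Sl]
    refine ⟨fun q hq => ?_, fun p hp => (key v p _).1 (hv.2 p hp) a⟩
    funext i
    show v q (a, i) = 0
    rw [hv.1 q hq]
    rfl
  · intro u hu
    rw [mem_coe, Fintype.mem_piFinset] at hu
    rw [mem_coe, mem_Sl]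
    refine ⟨fun q hq => ?_, fun p hp => (key _ p _).2 fun a => ?_⟩
    · funext x
      have := (mem_Sl.1 (hu x.1)).1 q hq
      simp only [this]
      rfl
    · exact (mem_Sl.1 (hu a)).2 p hp
  · intro v _
    rfl
  · intro u _
    rfl

end Pool.Agent.Y712
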