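import Pool.Agent.Y712.Coc
import Pool.Agent.Y712.Cnt
import Pool.Agent.TH841.PT.Stm

/-!
# The number of the reductions is bounded by the number of the solutions of a linear system
-/

set_option autoImplicit false

namespace Pool.Agent.Y712

open NumberField Pool.Agent.W569.FM Matrix Finset Pool.Agent.W262.RK Pool.Agent.W307.RT
  Pool.Agent.TH841.PT

section symbols

lemma js_mul {p : ℕ} {a b : ℤ} (ha : Int.gcd a p = 1) (hb : Int.gcd b p = 1) :
    js p (a * b) = js p a + js p b := by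
  unfold js
  rw [jacobiSym.mul_left]
  rcases jacobiSym.eq_one_or_neg_one ha with h1 | h1 <;>
    rcases jacobiSym.eq_one_or_neg_one hb with h2 | h2 <;> rw [h1, h2] <;> decide

lemma gcd_mul1 {p : ℕ} {a b : ℤ} (ha : Int.gcd a p = 1) (hb : Int.gcd b p = 1) :
    Int.gcd (a * b) p = 1 := by
  rw [← Int.isCoprime_iff_gcd_eq_one] at ha hb ⊢
  exact ha.mul_left hb

lemma js_prod {p : ℕ} {α : Type} (s : Finset α) (f : α → ℤ) (h : ∀ a ∈ s, Int.gcd (f a) p = 1) :
    js p (∏ a ∈ s, f a) = ∑ a ∈ s, js p (f a) ∧ Int.gcd (∏ a ∈ s, f a) p = 1 := by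
  classical
  induction s using Finset.induction_on with
  | empty =>
    refine ⟨?_, ?_⟩
    · rw [prod_empty, sum_empty, js_one]
    · rw [prod_empty]
      simp
  | insert a s ha ih =>
    obtain ⟨h1, h2⟩ := ih fun b hb => h b (Finset.mem_insert_of_mem hb)
    have h3 := h a (Finset.mem_insert_self a s)
    rw [prod_insert ha, sum_insert ha]
    exact ⟨by rw [js_mul h3 h2, h1], gcd_mul1 h3 h2⟩

end symbols

/-! ### Allowed squarefree numbers -/

open Classical in
/-- the squarefree integers with the prime factors in `P` -/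
noncomputable def AS (P : Finset ℕ) : Finset ℤ :=
  ((univ : Finset Bool) ×ˢ P.powerset).image
    (fun x : Bool × Finset ℕ => (if x.1 = true then (1 : ℤ) else -1) * ∏ p ∈ x.2, (p : ℤ))

lemma card_AS (P : Finset ℕ) : (AS P).card ≤ 2 ^ (1 + P.card) := by
  classical
  unfold AS
  refine card_image_le.trans (le_of_eq ?_)
  rw [card_product, card_powerset, card_univ, Fintype.card_bool, pow_add, pow_one]

lemma mem_AS {P : Finset ℕ} {a : ℤ} (ha : Squarefree a)
    (hP : ∀ p : ℕ, p.Prime → (p : ℤ) ∣ a → p ∈ P) : a ∈ AS P := by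
  classical
  unfold AS
  rw [mem_image]
  have h1 : ∏ p ∈ a.natAbs.primeFactors, (p : ℤ) = (a.natAbs : ℤ) := by
    have h2 := Nat.prod_primeFactors_of_squarefree (Int.squarefree_natAbs.2 ha)
    calc ∏ p ∈ a.natAbs.primeFactors, (p : ℤ) = ((∏ p ∈ a.natAbs.primeFactors, p : ℕ) : ℤ) := by
          push_cast
          rfl
      _ = _ := by rw [h2]
  have h3 : a.natAbs.primeFactors ⊆ P := by
    intro p hp
    refine hP p (Nat.prime_of_mem_primeFactors hp) ?_
    rw [Int.natCast_dvd]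
    exact Nat.dvd_of_mem_primeFactors hp
  rcases Int.natAbs_eq a with h | h
  · refine ⟨(true, a.natAbs.primeFactors), ?_, ?_⟩
    · rw [mem_product, mem_powerset]
      exact ⟨mem_univ _, h3⟩
    · simp only [if_true, one_mul]
      rw [h1, ← h]
  · refine ⟨(false, a.natAbs.primeFactors), ?_, ?_⟩
    · rw [mem_product, mem_powerset]
      exact ⟨mem_univ _, h3⟩
    · simp only [Bool.false_eq_true, if_false]
      rw [h1]
      linarith

/-- the bad primes -/
noncomputable def Pb (z y : ℕ) (d : ℤ) : Finset ℕ :=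
  (range (z + 1)).filter Nat.Prime ∪ (S2 z y (fun _ : Unit => d) ()).primeFactors ∪
    d.natAbs.primeFactors.filter (fun p => y < p)

lemma S1_pf (z y : ℕ) (d : ℤ) : (S1 z y (fun _ : Unit => d) ()).primeFactors =
    (PS z y).filter (fun p : ℕ => (p : ℤ) ∣ d ∧ ¬ (p : ℤ) ^ 2 ∣ d) := by
  unfold S1
  refine Nat.primeFactors_prod fun p hp => ?_
  have h1 := (mem_filter.1 hp).1
  unfold PS at h1
  exact (mem_filter.1 h1).2

lemma S2_pf (z y : ℕ) (d : ℤ) : (S2 z y (fun _ : Unit => d) ()).primeFactors =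
    (PS z y).filter (fun p : ℕ => (p : ℤ) ^ 2 ∣ d) := by
  unfold S2
  refine Nat.primeFactors_prod fun p hp => ?_
  have h1 := (mem_filter.1 hp).1
  unfold PS at h1
  exact (mem_filter.1 h1).2

lemma card_big (y X k B : ℕ) (d : ℤ) (hd : d ≠ 0) (hb : d.natAbs ≤ X ^ B)
    (hk : X < (y + 1) ^ k) : (d.natAbs.primeFactors.filter (fun p => y < p)).card ≤ k * B := by
  rcases Nat.eq_zero_or_pos B with hB | hB
  · subst hB
    have h1 : d.natAbs = 1 := by
      have := Int.natAbs_pos.2 hd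
      rw [pow_zero] at hb
      omega
    rw [h1]
    simp
  set Q := d.natAbs.primeFactors.filter (fun p => y < p) with hQ
  have h1 : ∏ p ∈ Q, p ∣ d.natAbs := by
    refine (Finset.prod_dvd_prod_of_subset _ _ _ (filter_subset _ _)).trans ?_
    exact Nat.prod_primeFactors_dvd _
  have h2 : ∏ p ∈ Q, p ≤ d.natAbs := Nat.le_of_dvd (Int.natAbs_pos.2 hd) h1
  have h3 : (y + 1) ^ Q.card ≤ ∏ p ∈ Q, p := by
    rw [← prod_const]
    refine prod_le_prod' fun p hp => ?_
    exact (mem_filter.1 hp).2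
  have h4 : (y + 1) ^ Q.card < (y + 1) ^ (k * B) := by
    calc (y + 1) ^ Q.card ≤ X ^ B := (h3.trans h2).trans hb
      _ < ((y + 1) ^ k) ^ B := Nat.pow_lt_pow_left hk (by omega)
      _ = (y + 1) ^ (k * B) := by rw [pow_mul]
  by_contra hcon
  push Not at hcon
  have h5 := Nat.pow_le_pow_right (by omega : 0 < y + 1) hcon.le
  omega

lemma card_Pb (z y X k B : ℕ) (d : ℤ) (hd : d ≠ 0) (hb : d.natAbs ≤ X ^ B)
    (hk : X < (y + 1) ^ k) :
    (Pb z y d).card ≤ z + (S2 z y (fun _ : Unit => d) ()).primeFactors.card + k * B := by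
  unfold Pb
  refine (card_union_le _ _).trans (Nat.add_le_add ?_ (card_big y X k B d hd hb hk))
  refine (card_union_le _ _).trans (Nat.add_le_add ?_ le_rfl)
  have h1 : (range (z + 1)).filter Nat.Prime ⊆ Icc 1 z := by
    intro p hp
    rw [mem_filter, mem_range] at hp
    rw [mem_Icc]
    exact ⟨hp.2.pos, by omega⟩
  have := card_le_card h1
  simpa using this

section main

variable {n : ℕ}

/-- the number with given parts -/
def comb (T : Finset ℕ) (a : Fin n → ℤ) (v : ℕ → Vec (Fin n)) (i : Fin n) : ℤ :=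
  a i * ∏ q ∈ T, (if v q i = 1 then (q : ℤ) else 1)

open Classical in
/-- the solutions of the affine system -/
noncomputable def Af (μ : Fin n → Fin n → ℤ) (T E : Finset ℕ) (a : Fin n → ℤ) :
    Finset (ℕ → Vec (Fin n)) :=
  (VT (Fin n) T).filter (fun v => ∀ p ∈ T, ∀ i,
      ∑ q ∈ T.erase p, js p q * v q i + js p (a i) =
        (if p ∈ E then v p i else 0) + ∑ j, js p (μ i j) * v p j)

lemma card_Af (μ : Fin n → Fin n → ℤ) (T E : Finset ℕ) (a : Fin n → ℤ) :
    (Af μ T E a).card ≤ NS μ T E := by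
  classical
  refine aff μ T E (fun p i => js p (a i)) _ fun v hv => ?_
  unfold Af at hv
  rw [mem_filter, mem_VT] at hv
  exact hv

/-- the conditions on the Kummer generators -/
def ER (N : ℕ) (μ : Fin n → Fin n → ℤ) (d : ℤ) : Set (Fin n → ℤ) :=
  {e | (∀ i, Squarefree (e i)) ∧
    (∀ p : ℕ, p.Prime → p ≠ 2 → ¬ p ∣ N → ¬ (p : ℤ) ∣ d → ∀ i, ¬ (p : ℤ) ∣ e i) ∧
    ∀ p : ℕ, p.Prime → p ≠ 2 → ¬ p ∣ N → (p : ℤ) ∣ d → ¬ (p : ℤ) ^ 2 ∣ d → ∀ i,
      (if jacobiSym (if (p : ℤ) ∣ e i then e i / p else e i) p = -1 then (1 : ZMod 2) else 0) =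
      (if jacobiSym (d / p) p = -1 then (if (p : ℤ) ∣ e i then 1 else 0) else 0) +
        ∑ j, (if jacobiSym (μ i j) p = -1 then 1 else 0) * (if (p : ℤ) ∣ e j then 1 else 0)}

/-- the generators are combinations -/
lemma ER_sub {N : ℕ} (hN0 : N ≠ 0) (μ : Fin n → Fin n → ℤ) (z y : ℕ) (hz : 2 ≤ z) (hN : N ≤ z)
    (d : ℤ) (hd : d ≠ 0) (e : Fin n → ℤ) (he : e ∈ ER N μ d) :
    ∃ a ∈ Fintype.piFinset (fun _ : Fin n => AS (Pb z y d)),
      ∃ v ∈ Af μ (S1 z y (fun _ : Unit => d) ()).primeFactors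
        (ngs d (S1 z y (fun _ : Unit => d) ())) a,
        comb (S1 z y (fun _ : Unit => d) ()).primeFactors a v = e := by
  classical
  obtain ⟨hsq, hun, hrel⟩ := he
  set T := (S1 z y (fun _ : Unit => d) ()).primeFactors with hT
  have hTm : ∀ p, p ∈ T ↔ p ∈ PS z y ∧ (p : ℤ) ∣ d ∧ ¬ (p : ℤ) ^ 2 ∣ d := by
    intro p
    rw [hT, S1_pf, mem_filter]
  have hPS : ∀ p, p ∈ PS z y ↔ (z < p ∧ p ≤ y) ∧ p.Prime := by
    intro p
    unfold PS
    rw [mem_filter, mem_Ioc]
  have hTp : ∀ p ∈ T, p.Prime := fun p hp => ((hPS p).1 ((hTm p).1 hp).1).2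
  have hTz : ∀ p ∈ T, z < p := fun p hp => ((hPS p).1 ((hTm p).1 hp).1).1.1
  set v : ℕ → Vec (Fin n) := fun q i => if q ∈ T ∧ (q : ℤ) ∣ e i then 1 else 0 with hv
  have hv1 : ∀ q i, v q i = 1 ↔ q ∈ T ∧ (q : ℤ) ∣ e i := by
    intro q i
    rw [hv]
    simp
  have hprod : ∀ i, ∏ q ∈ T, (if v q i = 1 then (q : ℤ) else 1) ∣ e i := by
    intro i
    have h1 : ∏ q ∈ T, (if v q i = 1 then (q : ℤ) else 1) =
        ∏ q ∈ T.filter (fun q : ℕ => (q : ℤ) ∣ e i), (q : ℤ) := by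
      rw [prod_filter]
      refine prod_congr rfl fun q hq => ?_
      refine if_congr ?_ rfl rfl
      rw [hv1]
      exact ⟨fun h => h.2, fun h => ⟨hq, h⟩⟩
    rw [h1]
    refine Finset.prod_dvd_of_coprime ?_ ?_
    · intro p hp q hq hpq
      rw [mem_coe, mem_filter] at hp hq
      show IsCoprime (p : ℤ) (q : ℤ)
      rw [Nat.isCoprime_iff_coprime]
      exact (Nat.coprime_primes (hTp p hp.1) (hTp q hq.1)).2 hpq
    · intro q hq
      exact (mem_filter.1 hq).2
  choose a ha using hprod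
  have ha0 : ∀ i, Squarefree (a i) := fun i =>
    (hsq i).squarefree_of_dvd ⟨_, by rw [ha i]; ring⟩
  have ha1 : ∀ i, ∀ p ∈ T, ¬ (p : ℤ) ∣ a i := by
    intro i p hp hpa
    have hpe : (p : ℤ) ∣ e i := by
      rw [ha i]
      exact hpa.mul_left _
    have h1 : (p : ℤ) ∣ ∏ q ∈ T, (if v q i = 1 then (q : ℤ) else 1) := by
      have h2 := Finset.dvd_prod_of_mem (fun q : ℕ => if v q i = 1 then (q : ℤ) else 1) hp
      rw [if_pos ((hv1 p i).2 ⟨hp, hpe⟩)] at h2
      exact h2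
    have h3 : (p : ℤ) * p ∣ e i := by
      rw [ha i]
      exact mul_dvd_mul h1 hpa
    have h4 := hsq i p h3
    rw [Int.isUnit_iff] at h4
    have := (hTp p hp).two_le
    omega
  have hcop : ∀ {p : ℕ}, p.Prime → ∀ {x : ℤ}, ¬ (p : ℤ) ∣ x → Int.gcd x p = 1 := by
    intro p hp x hx
    rw [Int.gcd_comm]
    have h3 : ¬ p ∣ x.natAbs := by
      rwa [← Int.natCast_dvd]
    exact hp.coprime_iff_not_dvd.mpr h3
  refine ⟨a, ?_, v, ?_, ?_⟩
  · rw [Fintype.mem_piFinset]
    intro i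
    refine mem_AS (ha0 i) fun p hp hpa => ?_
    have hpe : (p : ℤ) ∣ e i := by
      rw [ha i]
      exact hpa.mul_left _
    unfold Pb
    rw [mem_union, mem_union]
    by_cases hpz : p ≤ z
    · left
      left
      rw [mem_filter, mem_range]
      exact ⟨by omega, hp⟩
    push Not at hpz
    have hpN : ¬ p ∣ N := by
      intro h'
      have := Nat.le_of_dvd (Nat.pos_of_ne_zero hN0) h'
      omega
    have hpd : (p : ℤ) ∣ d := by
      by_contra hpd
      exact hun p hp (by omega) hpN hpd i hpe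
    by_cases hpy : y < p
    · right
      rw [mem_filter]
      refine ⟨?_, hpy⟩
      rw [Nat.mem_primeFactors]
      exact ⟨hp, Int.natCast_dvd.1 hpd, Int.natAbs_ne_zero.2 hd⟩
    push Not at hpy
    by_cases hpd2 : (p : ℤ) ^ 2 ∣ d
    · left
      right
      rw [S2_pf, mem_filter, hPS]
      exact ⟨⟨⟨hpz, hpy⟩, hp⟩, hpd2⟩
    · exfalso
      exact ha1 i p ((hTm p).2 ⟨(hPS p).2 ⟨⟨hpz, hpy⟩, hp⟩, hpd, hpd2⟩) hpa
  · unfold Af
    rw [mem_filter, mem_VT]
    refine ⟨fun q hq => ?_, fun p hp i => ?_⟩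
    · funext i
      show v q i = 0
      rw [hv]
      simp [hq]
    have hpp := hTp p hp
    have hpz := hTz p hp
    have hp0 : ((p : ℕ) : ℤ) ≠ 0 := by exact_mod_cast hpp.ne_zero
    have hpN : ¬ p ∣ N := by
      intro h'
      have := Nat.le_of_dvd (Nat.pos_of_ne_zero hN0) h'
      omega
    obtain ⟨_, hpd, hpd2⟩ := (hTm p).1 hp
    have key := hrel p hpp (by omega) hpN hpd hpd2 i
    -- the left hand side
    have h1 : (if (p : ℤ) ∣ e i then e i / p else e i) =
        a i * ∏ q ∈ T.erase p, (if v q i = 1 then (q : ℤ) else 1) := by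
      have h2 : ∏ q ∈ T, (if v q i = 1 then (q : ℤ) else 1) =
          (if v p i = 1 then (p : ℤ) else 1) *
            ∏ q ∈ T.erase p, (if v q i = 1 then (q : ℤ) else 1) :=
        (mul_prod_erase T _ hp).symm
      by_cases hpe : (p : ℤ) ∣ e i
      · rw [if_pos hpe]
        rw [if_pos ((hv1 p i).2 ⟨hp, hpe⟩)] at h2
        have h3 : e i = p * (a i * ∏ q ∈ T.erase p, (if v q i = 1 then (q : ℤ) else 1)) := by
          rw [ha i, h2]
          ring
        rw [h3, Int.mul_ediv_cancel_left _ hp0]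
      · rw [if_neg hpe]
        have h4 : ¬ v p i = 1 := fun h' => hpe ((hv1 p i).1 h').2
        rw [if_neg h4, one_mul] at h2
        rw [ha i, h2]
        ring
    have h5 : ∀ q ∈ T.erase p, Int.gcd (if v q i = 1 then (q : ℤ) else 1) p = 1 := by
      intro q hq
      rw [mem_erase] at hq
      split_ifs
      · refine hcop hpp fun h6 => hq.1 ?_
        exact ((Nat.prime_dvd_prime_iff_eq hpp (hTp q hq.2)).1 (Int.natCast_dvd_natCast.1 h6)).symm
      · simp
    obtain ⟨h6, h7⟩ := js_prod (p := p) (T.erase p)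
      (fun q : ℕ => if v q i = 1 then (q : ℤ) else 1) h5
    have h8 : js p (if (p : ℤ) ∣ e i then e i / p else e i) =
        ∑ q ∈ T.erase p, js p q * v q i + js p (a i) := by
      rw [h1, js_mul (hcop hpp (ha1 i p hp)) h7, h6, add_comm]
      congr 1
      refine sum_congr rfl fun q hq => ?_
      rcases zmod2 (v q i) with h9 | h9 <;> rw [h9]
      · rw [if_neg (by decide), js_one, mul_zero]
      · rw [if_pos rfl, mul_one]
    have h9 : ∀ j, (if (p : ℤ) ∣ e j then (1 : ZMod 2) else 0) = v p j := by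
      intro j
      rw [hv]
      simp [hp]
    have key2 : js p (if (p : ℤ) ∣ e i then e i / p else e i) =
      (if jacobiSym (d / p) p = -1 then (if (p : ℤ) ∣ e i then 1 else 0) else 0) +
        ∑ j, js p (μ i j) * (if (p : ℤ) ∣ e j then 1 else 0) := key
    rw [← h8, key2]
    simp only [h9]
    congr 1
    refine if_congr ?_ rfl rfl
    unfold ngs
    rw [mem_filter]
    exact ⟨fun h' => ⟨hp, h'⟩, fun h' => h'.2⟩
  · funext i
    unfold comb
    rw [ha i]
    ring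

/-- the set of generators is finite and small -/
theorem card_ER {N : ℕ} (hN0 : N ≠ 0) (μ : Fin n → Fin n → ℤ) (z y : ℕ) (hz : 2 ≤ z)
    (hN : N ≤ z) (d : ℤ) (hd : d ≠ 0) : (ER N μ d).Finite ∧
      (ER N μ d).ncard ≤ (2 ^ (1 + (Pb z y d).card)) ^ n *
      NS μ (S1 z y (fun _ : Unit => d) ()).primeFactors
        (ngs d (S1 z y (fun _ : Unit => d) ())) := by
  classical
  set T := (S1 z y (fun _ : Unit => d) ()).primeFactors with hT
  set E := ngs d (S1 z y (fun _ : Unit => d) ()) with hE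
  set AA := Fintype.piFinset (fun _ : Fin n => AS (Pb z y d)) with hAA
  set W : Finset (Fin n → ℤ) := AA.biUnion (fun a => (Af μ T E a).image (comb T a)) with hW
  have hsub : ER N μ d ⊆ (W : Set (Fin n → ℤ)) := by
    intro e he
    obtain ⟨a, ha, v, hv, hav⟩ := ER_sub hN0 μ z y hz hN d hd e he
    rw [mem_coe, hW, mem_biUnion]
    refine ⟨a, ha, ?_⟩
    rw [mem_image]
    exact ⟨v, hv, hav⟩
  refine ⟨W.finite_toSet.subset hsub, ?_⟩
  calc (ER N μ d).ncard ≤ (W : Set (Fin n → ℤ)).ncard := Set.ncard_le_ncard hsub W.finite_toSet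
    _ = W.card := Set.ncard_coe_finset W
    _ ≤ ∑ a ∈ AA, ((Af μ T E a).image (comb T a)).card := card_biUnion_le
    _ ≤ ∑ a ∈ AA, NS μ T E := sum_le_sum fun a _ => card_image_le.trans (card_Af μ T E a)
    _ = AA.card * NS μ T E := by rw [sum_const, smul_eq_mul]
    _ ≤ _ := by
        refine Nat.mul_le_mul_right _ ?_
        rw [hAA, Fintype.card_piFinset_const]
        exact Nat.pow_le_pow_left (card_AS _) n

variable {ρ : GQ → Matrix (Fin n) (Fin n) ℤ_[2]} {N : ℕ}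

/-- the crossed homomorphisms as functions of two variables -/
def ZY (N : ℕ) (A : GQ → Matrix (Fin n) (Fin n) ℚ_[2]) :
    Submodule ℚ_[2] (GQ × Fin n → ℚ_[2]) where
  carrier := {f | IsSel N A (fun σ i => f (σ, i))}
  zero_mem' := by
    refine ⟨?_, fun σ τ => ?_, fun P _ _ => ⟨0, fun σ _ => ?_⟩⟩
    · show Continuous (fun _ : GQ => (0 : Fin n → ℚ_[2]))
      exact continuous_const
    · show (0 : Fin n → ℚ_[2]) = 0 + A σ *ᵥ 0
      rw [mulVec_zero, add_zero]
    · show (0 : Fin n → ℚ_[2]) = A σ *ᵥ 0 - 0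
      rw [mulVec_zero, sub_zero]
  add_mem' := by
    rintro f g ⟨h1, h2, h3⟩ ⟨h4, h5, h6⟩
    refine ⟨?_, fun σ τ => ?_, fun P hP hP2 => ?_⟩
    · exact h1.add h4
    · have e1 : (fun i => (f + g) (σ * τ, i)) = (fun i => f (σ * τ, i)) + fun i => g (σ * τ, i) := rfl
      have e2 : (fun i => (f + g) (σ, i)) = (fun i => f (σ, i)) + fun i => g (σ, i) := rfl
      have e3 : (fun i => (f + g) (τ, i)) = (fun i => f (τ, i)) + fun i => g (τ, i) := rfl
      show (fun i => (f + g) (σ * τ, i)) = (fun i => (f + g) (σ, i)) +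
        A σ *ᵥ (fun i => (f + g) (τ, i))
      have e4 : (fun i => f (σ * τ, i)) = (fun i => f (σ, i)) + A σ *ᵥ (fun i => f (τ, i)) := h2 σ τ
      have e5 : (fun i => g (σ * τ, i)) = (fun i => g (σ, i)) + A σ *ᵥ (fun i => g (τ, i)) := h5 σ τ
      rw [e1, e2, e3, e4, e5, mulVec_add]
      abel
    · obtain ⟨v, hv⟩ := h3 P hP hP2
      obtain ⟨w, hw⟩ := h6 P hP hP2
      refine ⟨v + w, fun σ hσ => ?_⟩
      have e2 : (fun i => (f + g) (σ, i)) = (fun i => f (σ, i)) + fun i => g (σ, i) := rfl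
      have e4 : (fun i => f (σ, i)) = A σ *ᵥ v - v := hv σ hσ
      have e5 : (fun i => g (σ, i)) = A σ *ᵥ w - w := hw σ hσ
      show (fun i => (f + g) (σ, i)) = A σ *ᵥ (v + w) - (v + w)
      rw [e2, e4, e5, mulVec_add]
      abel
  smul_mem' := by
    rintro c f ⟨h1, h2, h3⟩
    refine ⟨?_, fun σ τ => ?_, fun P hP hP2 => ?_⟩
    · exact h1.const_smul c
    · have e1 : (fun i => (c • f) (σ * τ, i)) = c • (fun i => f (σ * τ, i)) := rfl
      have e2 : (fun i => (c • f) (σ, i)) = c • (fun i => f (σ, i)) := rfl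
      have e3 : (fun i => (c • f) (τ, i)) = c • (fun i => f (τ, i)) := rfl
      show (fun i => (c • f) (σ * τ, i)) = (fun i => (c • f) (σ, i)) +
        A σ *ᵥ (fun i => (c • f) (τ, i))
      have e4 : (fun i => f (σ * τ, i)) = (fun i => f (σ, i)) + A σ *ᵥ (fun i => f (τ, i)) := h2 σ τ
      rw [e1, e2, e3, e4, mulVec_smul, smul_add]
    · obtain ⟨v, hv⟩ := h3 P hP hP2
      refine ⟨c • v, fun σ hσ => ?_⟩
      have e2 : (fun i => (c • f) (σ, i)) = c • (fun i => f (σ, i)) := rfl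
      have e4 : (fun i => f (σ, i)) = A σ *ᵥ v - v := hv σ hσ
      show (fun i => (c • f) (σ, i)) = A σ *ᵥ (c • v) - c • v
      rw [e2, e4, mulVec_smul, smul_sub]

lemma mem_ZY {A : GQ → Matrix (Fin n) (Fin n) ℚ_[2]} {f : GQ × Fin n → ℚ_[2]} :
    f ∈ ZY N A ↔ IsSel N A (fun σ i => f (σ, i)) := Iff.rfl

lemma max_ZY {A : GQ → Matrix (Fin n) (Fin n) ℚ_[2]} (f : GQ × Fin n → ℚ_[2]) (hf : f ∈ ZY N A)
    (h0 : f ≠ 0) : ∃ y, f y ≠ 0 ∧ ∀ y', ‖f y'‖ ≤ ‖f y‖ := by
  obtain ⟨y1, hy1⟩ := Function.ne_iff.1 h0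
  have hc : Continuous f := by
    rw [continuous_prod_of_discrete_right]
    intro i
    exact (continuous_apply i).comp (mem_ZY.1 hf).1
  have : CompactSpace GQ := inferInstance
  obtain ⟨y, _, hy⟩ := isCompact_univ.exists_isMaxOn (f := fun y => ‖f y‖)
    (⟨y1, Set.mem_univ _⟩ : (Set.univ : Set (GQ × Fin n)).Nonempty) hc.norm.continuousOn
  refine ⟨y, fun h => ?_, fun y' => hy (Set.mem_univ y')⟩
  have h1 := hy (Set.mem_univ y1)
  simp only [h, norm_zero, Set.mem_ofPred_eq] at h1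
  exact hy1 (norm_le_zero_iff.1 h1)

lemma ER_fin {N : ℕ} (hN0 : N ≠ 0) (μ : Fin n → Fin n → ℤ) {d : ℤ} (hd : d ≠ 0) :
    (ER N μ d).Finite := (card_ER hN0 μ (2 + N) 0 (by omega) (by omega) d hd).1

lemma one_le_ER {N : ℕ} (hN0 : N ≠ 0) (μ : Fin n → Fin n → ℤ) {d : ℤ} (hd : d ≠ 0) :
    1 ≤ (ER N μ d).ncard := by
  rw [Nat.one_le_iff_ne_zero, Ne, Set.ncard_eq_zero (ER_fin hN0 μ hd)]
  intro h
  have : (fun _ : Fin n => (1 : ℤ)) ∈ ER N μ d := by
    refine ⟨fun _ => squarefree_one, fun p hp _ _ _ _ h1 => ?_, fun p hp hp2 hpN hpd hpd2 i => ?_⟩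
    · have h2 : (p : ℤ) ≤ 1 := Int.le_of_dvd (by norm_num) h1
      have := hp.two_le
      omega
    · have h1 : ¬ (p : ℤ) ∣ 1 := by
        intro h1
        have h2 := Int.le_of_dvd (by norm_num) h1
        have := hp.two_le
        omega
      simp only [if_neg h1, jacobiSym.one_left]
      simp
  rw [h] at this
  exact this

/-- **the bound for one twist** -/
theorem bound_ER (h : Good ρ N) {μ : Fin n → Fin n → ℤ} (hμ : ∀ i j, Squarefree (μ i j))
    (hμ2 : ∀ σ i j, rd (Mb ρ σ i j) = qz (μ i j) σ) {d : ℤ} (hd : d ≠ 0) :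
    FiniteDimensional ℚ_[2] (ZY N (Tw ρ d)) ∧
      2 ^ Module.finrank ℚ_[2] (ZY N (Tw ρ d)) ≤ (ER N μ d).ncard := by
  have h1 := ER_fin h.ne μ hd
  have hsub : RR (ZY N (Tw ρ d)) ⊆
      (fun (e : Fin n → ℤ) (x : GQ × Fin n) => qz (e x.2) x.1) '' ER N μ d := by
    rintro r ⟨f, hf, hint, rfl⟩
    rw [mem_ZY] at hf
    obtain ⟨e, he, he2⟩ := exists_e h hf.1 hf.2.1 (fun σ i => hint (σ, i))
    refine ⟨e, ⟨he, fun p hp hp2 hpN hpd i => ?_, fun p hp hp2 hpN hpd hpd2 i => ?_⟩, ?_⟩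
    · exact e_unr h hf he he2 hp hp2 hpN hpd i
    · exact local_rel h hd hf (fun σ i => hint (σ, i)) he he2 hμ hμ2 hp hp2 hpN hpd hpd2 i
    funext x
    exact (he2 x.1 x.2).symm
  have hfin : (RR (ZY N (Tw ρ d))).Finite := (h1.image _).subset hsub
  obtain ⟨h3, h4⟩ := finrank_RR (ZY N (Tw ρ d)) max_ZY hfin
  exact ⟨h3, h4.trans ((Set.ncard_le_ncard hsub (h1.image _)).trans (Set.ncard_image_le h1))⟩

end main

end Pool.Agent.Y712
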