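import Mathlib

/-!
# Reductions modulo 2 of a space of bounded functions with 2-adic values
-/

set_option autoImplicit false

namespace Pool.Agent.Y712

/-- the reduction of an integral 2-adic number -/
noncomputable def rd (x : ℚ_[2]) : ZMod 2 := if ‖x‖ < 1 then 0 else 1

lemma rd_eq (x : ℤ_[2]) : rd (x : ℚ_[2]) = PadicInt.toZMod x := by
  have h1 : PadicInt.toZMod x = 0 ↔ ‖x‖ < 1 := by
    rw [← RingHom.mem_ker, PadicInt.ker_toZMod, IsLocalRing.mem_maximalIdeal, PadicInt.mem_nonunits]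
  unfold rd
  have h2 : ‖(x : ℚ_[2])‖ = ‖x‖ := rfl
  rw [h2]
  split_ifs with h
  · exact (h1.2 h).symm
  · have h3 : ∀ a : ZMod 2, a ≠ 0 → 1 = a := by decide
    exact h3 _ fun h4 => h (h1.1 h4)

lemma rd_zero : rd 0 = 0 := by
  unfold rd
  simp

lemma rd_one : rd 1 = 1 := by
  unfold rd
  simp

lemma rd_add {x y : ℚ_[2]} (hx : ‖x‖ ≤ 1) (hy : ‖y‖ ≤ 1) : rd (x + y) = rd x + rd y := by
  obtain ⟨a, rfl⟩ : ∃ a : ℤ_[2], (a : ℚ_[2]) = x := ⟨⟨x, hx⟩, rfl⟩
  obtain ⟨b, rfl⟩ : ∃ b : ℤ_[2], (b : ℚ_[2]) = y := ⟨⟨y, hy⟩, rfl⟩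
  rw [← PadicInt.coe_add, rd_eq, rd_eq, rd_eq, map_add]

lemma rd_mul {x y : ℚ_[2]} (hx : ‖x‖ ≤ 1) (hy : ‖y‖ ≤ 1) : rd (x * y) = rd x * rd y := by
  obtain ⟨a, rfl⟩ : ∃ a : ℤ_[2], (a : ℚ_[2]) = x := ⟨⟨x, hx⟩, rfl⟩
  obtain ⟨b, rfl⟩ : ∃ b : ℤ_[2], (b : ℚ_[2]) = y := ⟨⟨y, hy⟩, rfl⟩
  rw [← PadicInt.coe_mul, rd_eq, rd_eq, rd_eq, map_mul]

lemma rd_neg (x : ℚ_[2]) : rd (-x) = rd x := by
  unfold rd
  rw [norm_neg]

lemma rd_of_lt {x : ℚ_[2]} (hx : ‖x‖ < 1) : rd x = 0 := by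
  unfold rd
  rw [if_pos hx]

lemma rd_of_eq {x : ℚ_[2]} (hx : ‖x‖ = 1) : rd x = 1 := by
  unfold rd
  rw [if_neg (by rw [hx]; exact lt_irrefl 1)]

lemma rd_two_mul {x : ℚ_[2]} (hx : ‖x‖ ≤ 1) : rd (2 * x) = 0 := by
  apply rd_of_lt
  rw [norm_mul]
  have h2 : ‖(2 : ℚ_[2])‖ = 2⁻¹ := by
    have := Padic.norm_p (p := 2)
    exact_mod_cast this
  rw [h2]
  linarith

variable {Y : Type}

/-- the reductions of the integral elements -/
def RR (U : Submodule ℚ_[2] (Y → ℚ_[2])) : Set (Y → ZMod 2) :=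
  {r | ∃ f ∈ U, (∀ y, ‖f y‖ ≤ 1) ∧ r = fun y => rd (f y)}

lemma exists_scale (x : ℚ_[2]) (hx : x ≠ 0) : ∃ c : ℚ_[2], c ≠ 0 ∧ ‖c * x‖ = 1 :=
  ⟨x⁻¹, inv_ne_zero hx, by rw [inv_mul_cancel₀ hx, norm_one]⟩

/-- **the number of the reductions** -/
theorem card_RR (n : ℕ) : ∀ (U : Submodule ℚ_[2] (Y → ℚ_[2])), FiniteDimensional ℚ_[2] U →
    Module.finrank ℚ_[2] U = n →
    (∀ f ∈ U, f ≠ 0 → ∃ y, f y ≠ 0 ∧ ∀ y', ‖f y'‖ ≤ ‖f y‖) → (RR U).Finite →
    2 ^ n ≤ (RR U).ncard := by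
  classical
  induction n with
  | zero =>
    intro U _ _ _ hf
    rw [pow_zero, Nat.one_le_iff_ne_zero, Ne, Set.ncard_eq_zero hf]
    intro h
    have : (fun _ : Y => rd 0) ∈ RR U := ⟨0, U.zero_mem, fun y => by simp, rfl⟩
    rw [h] at this
    exact this
  | succ n ih =>
    intro U hfd hn hmax hf
    -- a nonzero element
    obtain ⟨⟨f0, hf0U⟩, hf0⟩ : ∃ f : U, f ≠ 0 := by
      have : Nontrivial U := Module.nontrivial_of_finrank_pos (R := ℚ_[2]) (by omega)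
      exact exists_ne 0
    have hf0' : f0 ≠ 0 := fun h => hf0 (Subtype.ext h)
    obtain ⟨y0, hy0, hmx⟩ := hmax f0 hf0U hf0'
    obtain ⟨c, hc, hcn⟩ := exists_scale (f0 y0) hy0
    set f : Y → ℚ_[2] := c • f0 with hfdef
    have hfU : f ∈ U := U.smul_mem c hf0U
    have hfy : ‖f y0‖ = 1 := hcn
    have hfi : ∀ y, ‖f y‖ ≤ 1 := by
      intro y
      rw [← hfy]
      show ‖c * f0 y‖ ≤ ‖c * f0 y0‖
      rw [norm_mul, norm_mul]
      exact mul_le_mul_of_nonneg_left (hmx y) (norm_nonneg _)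
    -- the smaller space
    let ev : U →ₗ[ℚ_[2]] ℚ_[2] := (LinearMap.proj y0).domRestrict U
    set U' : Submodule ℚ_[2] (Y → ℚ_[2]) := (LinearMap.ker ev).map U.subtype with hU'
    have hU'mem : ∀ g, g ∈ U' ↔ g ∈ U ∧ g y0 = 0 := by
      intro g
      rw [hU', Submodule.mem_map]
      constructor
      · rintro ⟨⟨a, ha⟩, h1, rfl⟩
        exact ⟨ha, h1⟩
      · rintro ⟨h1, h2⟩
        exact ⟨⟨g, h1⟩, h2, rfl⟩
    have hev : LinearMap.range ev = ⊤ := by
      rw [LinearMap.range_eq_top]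
      intro a
      have hne : f y0 ≠ 0 := by
        intro h
        rw [h, norm_zero] at hfy
        exact zero_ne_one hfy
      refine ⟨(a / f y0) • ⟨f, hfU⟩, ?_⟩
      show (a / f y0) * f y0 = a
      exact div_mul_cancel₀ a hne
    have hker : Module.finrank ℚ_[2] (LinearMap.ker ev) = n := by
      have h1 := LinearMap.finrank_range_add_finrank_ker ev
      rw [hev, finrank_top, Module.finrank_self] at h1
      omega
    have hU'fin : Module.finrank ℚ_[2] U' = n := by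
      rw [hU', ← hker]
      exact (Submodule.finrank_map_subtype_eq U (LinearMap.ker ev))
    have hfd' : FiniteDimensional ℚ_[2] U' := by
      rw [hU']
      infer_instance
    have hsub : ∀ g ∈ U', g ∈ U := fun g hg => ((hU'mem g).1 hg).1
    have hRRsub : RR U' ⊆ RR U := by
      rintro r ⟨g, hg, hgi, rfl⟩
      exact ⟨g, hsub g hg, hgi, rfl⟩
    have hR' : (RR U').Finite := hf.subset hRRsub
    have h1 := ih U' hfd' hU'fin (fun g hg => hmax g (hsub g hg)) hR'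
    -- the translate
    set fb : Y → ZMod 2 := fun y => rd (f y) with hfb
    have hinj : Function.Injective (fun r : Y → ZMod 2 => r + fb) := fun a b h => add_right_cancel h
    have h2 : ((fun r : Y → ZMod 2 => r + fb) '' RR U').ncard = (RR U').ncard :=
      Set.ncard_image_of_injective _ hinj
    have h3 : Disjoint (RR U') ((fun r : Y → ZMod 2 => r + fb) '' RR U') := by
      rw [Set.disjoint_left]
      rintro r ⟨g, hg, hgi, rfl⟩ ⟨r', ⟨g', hg', hgi', rfl⟩, hr⟩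
      have h4 := congrFun hr y0
      have e1 : g y0 = 0 := ((hU'mem g).1 hg).2
      have e2 : g' y0 = 0 := ((hU'mem g').1 hg').2
      simp only [Pi.add_apply, hfb, e1, e2, rd_zero, rd_of_eq hfy] at h4
      exact absurd h4 (by decide)
    have h4 : (fun r : Y → ZMod 2 => r + fb) '' RR U' ⊆ RR U := by
      rintro r ⟨r', ⟨g, hg, hgi, rfl⟩, rfl⟩
      refine ⟨g + f, U.add_mem (hsub g hg) hfU, fun y => ?_, ?_⟩
      · exact (Padic.nonarchimedean _ _).trans (max_le (hgi y) (hfi y))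
      · funext y
        simp only [Pi.add_apply, hfb]
        rw [rd_add (hgi y) (hfi y)]
    have h5 : (RR U' ∪ (fun r : Y → ZMod 2 => r + fb) '' RR U').ncard ≤ (RR U).ncard :=
      Set.ncard_le_ncard (Set.union_subset hRRsub h4) hf
    rw [Set.ncard_union_eq h3 hR' (hR'.image _), h2] at h5
    rw [pow_succ]
    omega

/-- the whole space is finite-dimensional -/
theorem finrank_RR (Z : Submodule ℚ_[2] (Y → ℚ_[2]))
    (hmax : ∀ f ∈ Z, f ≠ 0 → ∃ y, f y ≠ 0 ∧ ∀ y', ‖f y'‖ ≤ ‖f y‖) (hR : (RR Z).Finite) :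
    FiniteDimensional ℚ_[2] Z ∧ 2 ^ Module.finrank ℚ_[2] Z ≤ (RR Z).ncard := by
  classical
  have key : FiniteDimensional ℚ_[2] Z := by
    by_contra hcon
    set m := (RR Z).ncard with hm
    have h1 : ((m : ℕ) : Cardinal) ≤ Module.rank ℚ_[2] Z := by
      have h2 : Cardinal.aleph0 ≤ Module.rank ℚ_[2] Z := by
        by_contra h3
        exact hcon (Module.rank_lt_aleph0_iff.1 (not_le.1 h3))
      exact (Cardinal.natCast_lt_aleph0.le).trans h2
    obtain ⟨s, hs, hli⟩ := exists_finset_linearIndependent_of_le_rank h1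
    set U : Submodule ℚ_[2] (Y → ℚ_[2]) :=
      (Submodule.span ℚ_[2] (s : Set Z)).map Z.subtype with hU
    have hUZ : ∀ g ∈ U, g ∈ Z := by
      intro g hg
      rw [hU, Submodule.mem_map] at hg
      obtain ⟨a, _, rfl⟩ := hg
      exact a.2
    have hfd : FiniteDimensional ℚ_[2] U := by
      rw [hU]
      have : FiniteDimensional ℚ_[2] (Submodule.span ℚ_[2] (s : Set Z)) :=
        FiniteDimensional.span_finset ℚ_[2] s
      infer_instance
    have hfr : Module.finrank ℚ_[2] U = m := by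
      rw [hU]
      refine (Submodule.finrank_map_subtype_eq Z _).trans ?_
      rw [finrank_span_finset_eq_card hli, hs]
    have hsub : RR U ⊆ RR Z := by
      rintro r ⟨g, hg, hgi, rfl⟩
      exact ⟨g, hUZ g hg, hgi, rfl⟩
    have h3 := card_RR m U hfd hfr (fun g hg => hmax g (hUZ g hg)) (hR.subset hsub)
    have h4 := Set.ncard_le_ncard hsub hR
    have h5 : m < 2 ^ m := Nat.lt_two_pow_self
    omega
  exact ⟨key, card_RR _ Z key rfl hmax hR⟩

end Pool.Agent.Y712
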