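import Pool.Agent.Y712.Quad
import Pool.Agent.Y712.Red

/-!
# Crossed homomorphisms with values in a twist of a residually trivial representation
-/

set_option autoImplicit false

namespace Pool.Agent.Y712

open NumberField Pool.Agent.W569.FM Matrix

variable {n : ℕ}

/-- the action on `ρ ⊗ χ_d`, with rational coefficients -/
noncomputable def Tw (ρ : GQ → Matrix (Fin n) (Fin n) ℤ_[2]) (d : ℤ) (σ : GQ) :
    Matrix (Fin n) (Fin n) ℚ_[2] :=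
  (qc d σ : ℚ_[2]) • (ρ σ).map (fun x => (x : ℚ_[2]))

/-- the conditions on the crossed homomorphisms: no condition at the primes dividing `2 N` -/
def IsSel (N : ℕ) (A : GQ → Matrix (Fin n) (Fin n) ℚ_[2]) (f : GQ → Fin n → ℚ_[2]) : Prop :=
  Continuous f ∧ (∀ σ τ, f (σ * τ) = f σ + A σ *ᵥ f τ) ∧
    ∀ P : Ideal (OO ℚ), P.IsMaximal → ((2 * N : ℕ) : OO ℚ) ∉ P →
      ∃ v : Fin n → ℚ_[2], ∀ σ : GQ, InInertia P σ → f σ = A σ *ᵥ v - v

/-- residually trivial, continuous, unramified outside `N` -/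
structure Good (ρ : GQ → Matrix (Fin n) (Fin n) ℤ_[2]) (N : ℕ) : Prop where
  mul : ∀ σ τ, ρ (σ * τ) = ρ σ * ρ τ
  one : ρ 1 = 1
  cont : Continuous ρ
  ne : N ≠ 0
  ur : ∀ P : Ideal (OO ℚ), P.IsMaximal → (N : OO ℚ) ∉ P → ∀ σ, InInertia P σ → ρ σ = 1
  res : ∀ σ i j, (2 : ℤ_[2]) ∣ (ρ σ - 1) i j

lemma norm_two : ‖(2 : ℚ_[2])‖ = 2⁻¹ := by
  have := Padic.norm_p (p := 2)
  exact_mod_cast this

lemma norm_sum_le {α : Type} (s : Finset α) (f : α → ℚ_[2]) (h : ∀ a ∈ s, ‖f a‖ ≤ 1) :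
    ‖∑ a ∈ s, f a‖ ≤ 1 := by
  classical
  induction s using Finset.induction_on with
  | empty => simp
  | insert a s ha ih =>
    rw [Finset.sum_insert ha]
    exact (Padic.nonarchimedean _ _).trans (max_le (h a (Finset.mem_insert_self a s))
      (ih fun b hb => h b (Finset.mem_insert_of_mem hb)))

lemma norm_mul_le1 {x y : ℚ_[2]} (hx : ‖x‖ ≤ 1) (hy : ‖y‖ ≤ 1) : ‖x * y‖ ≤ 1 := by
  rw [norm_mul]
  exact mul_le_one₀ hx (norm_nonneg _) hy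

lemma rd_sum {α : Type} (s : Finset α) (f : α → ℚ_[2]) (h : ∀ a ∈ s, ‖f a‖ ≤ 1) :
    rd (∑ a ∈ s, f a) = ∑ a ∈ s, rd (f a) := by
  classical
  induction s using Finset.induction_on with
  | empty => simp [rd_zero]
  | insert a s ha ih =>
    rw [Finset.sum_insert ha, Finset.sum_insert ha, rd_add (h a (Finset.mem_insert_self a s))
      (norm_sum_le s f fun b hb => h b (Finset.mem_insert_of_mem hb)),
      ih fun b hb => h b (Finset.mem_insert_of_mem hb)]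

/-- the matrix `(ρ - 1) / 2` -/
noncomputable def Mb (ρ : GQ → Matrix (Fin n) (Fin n) ℤ_[2]) (σ : GQ) (i j : Fin n) : ℚ_[2] :=
  ((ρ σ - 1) i j : ℚ_[2]) / 2

section good

variable {ρ : GQ → Matrix (Fin n) (Fin n) ℤ_[2]} {N : ℕ}

lemma Mb_norm (h : Good ρ N) (σ : GQ) (i j : Fin n) : ‖Mb ρ σ i j‖ ≤ 1 := by
  obtain ⟨c, hc⟩ := h.res σ i j
  unfold Mb
  rw [hc]
  have : (((2 : ℤ_[2]) * c : ℤ_[2]) : ℚ_[2]) / 2 = (c : ℚ_[2]) := by
    have h2 : ((2 : ℤ_[2]) : ℚ_[2]) = 2 := rfl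
    rw [PadicInt.coe_mul, h2]
    field_simp
  rw [this]
  exact c.2

lemma rho_eq (σ : GQ) (i j : Fin n) :
    ((ρ σ i j : ℤ_[2]) : ℚ_[2]) = (1 : Matrix (Fin n) (Fin n) ℚ_[2]) i j + 2 * Mb ρ σ i j := by
  unfold Mb
  rw [Matrix.sub_apply]
  push_cast
  have : (((1 : Matrix (Fin n) (Fin n) ℤ_[2]) i j : ℤ_[2]) : ℚ_[2]) =
      (1 : Matrix (Fin n) (Fin n) ℚ_[2]) i j := by
    rw [Matrix.one_apply, Matrix.one_apply]
    split_ifs <;> simp
  rw [this]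
  ring

lemma Mb_mul (h : Good ρ N) (σ τ : GQ) (i j : Fin n) :
    Mb ρ (σ * τ) i j = Mb ρ σ i j + Mb ρ τ i j + 2 * ∑ l, Mb ρ σ i l * Mb ρ τ l j := by
  have h1 := rho_eq (ρ := ρ) (σ * τ) i j
  rw [h.mul, Matrix.mul_apply] at h1
  rw [PadicInt.coe_sum] at h1
  simp only [PadicInt.coe_mul, rho_eq] at h1
  have h2 : ∑ x, ((1 : Matrix (Fin n) (Fin n) ℚ_[2]) i x + 2 * Mb ρ σ i x) *
      ((1 : Matrix (Fin n) (Fin n) ℚ_[2]) x j + 2 * Mb ρ τ x j) =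
      (1 : Matrix (Fin n) (Fin n) ℚ_[2]) i j + 2 * Mb ρ σ i j + 2 * Mb ρ τ i j +
        4 * ∑ l, Mb ρ σ i l * Mb ρ τ l j := by
    have e1 : ∀ x, ((1 : Matrix (Fin n) (Fin n) ℚ_[2]) i x + 2 * Mb ρ σ i x) *
      ((1 : Matrix (Fin n) (Fin n) ℚ_[2]) x j + 2 * Mb ρ τ x j) =
      (1 : Matrix (Fin n) (Fin n) ℚ_[2]) i x * (1 : Matrix (Fin n) (Fin n) ℚ_[2]) x j +
      2 * (Mb ρ σ i x * (1 : Matrix (Fin n) (Fin n) ℚ_[2]) x j) +
      2 * ((1 : Matrix (Fin n) (Fin n) ℚ_[2]) i x * Mb ρ τ x j) +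
      4 * (Mb ρ σ i x * Mb ρ τ x j) := fun x => by ring
    rw [Finset.sum_congr rfl fun x _ => e1 x, Finset.sum_add_distrib, Finset.sum_add_distrib,
      Finset.sum_add_distrib, ← Finset.mul_sum, ← Finset.mul_sum, ← Finset.mul_sum]
    have e2 : ∑ x, (1 : Matrix (Fin n) (Fin n) ℚ_[2]) i x * (1 : Matrix (Fin n) (Fin n) ℚ_[2]) x j =
        (1 : Matrix (Fin n) (Fin n) ℚ_[2]) i j := by
      rw [← Matrix.mul_apply, one_mul]
    have e3 : ∑ x, Mb ρ σ i x * (1 : Matrix (Fin n) (Fin n) ℚ_[2]) x j = Mb ρ σ i j := by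
      simp [Matrix.one_apply]
    have e4 : ∑ x, (1 : Matrix (Fin n) (Fin n) ℚ_[2]) i x * Mb ρ τ x j = Mb ρ τ i j := by
      simp [Matrix.one_apply]
    rw [e2, e3, e4]
  rw [h2] at h1
  linear_combination (-1 / 2 : ℚ_[2]) * h1

lemma rd_Mb_mul (h : Good ρ N) (σ τ : GQ) (i j : Fin n) :
    rd (Mb ρ (σ * τ) i j) = rd (Mb ρ σ i j) + rd (Mb ρ τ i j) := by
  have h3 : ‖∑ l, Mb ρ σ i l * Mb ρ τ l j‖ ≤ 1 :=
    norm_sum_le _ _ fun l _ => norm_mul_le1 (Mb_norm h _ _ _) (Mb_norm h _ _ _)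
  have h4 : ‖(2 : ℚ_[2]) * ∑ l, Mb ρ σ i l * Mb ρ τ l j‖ ≤ 1 :=
    norm_mul_le1 (by rw [norm_two]; norm_num) h3
  rw [Mb_mul h, rd_add ((Padic.nonarchimedean _ _).trans
    (max_le (Mb_norm h _ _ _) (Mb_norm h _ _ _))) h4, rd_add (Mb_norm h _ _ _) (Mb_norm h _ _ _),
    rd_two_mul h3, add_zero]

/-- the reduction is locally constant -/
lemma rd_lc : IsLocallyConstant rd := by
  have h0 : {x : ℚ_[2] | rd x = 0} = Metric.ball 0 1 := by
    ext x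
    rw [Set.mem_ofPred_eq, mem_ball_zero_iff]
    unfold rd
    split_ifs with h
    · simp [h]
    · simp [h]
  have hcl : IsClopen (Metric.ball (0 : ℚ_[2]) 1) := IsUltrametricDist.isClopen_ball 0 1
  rw [IsLocallyConstant.iff_isOpen_fiber]
  intro y
  have hy : y = 0 ∨ y = 1 := by
    revert y
    decide
  rcases hy with rfl | rfl
  · show IsOpen {x : ℚ_[2] | rd x = 0}
    rw [h0]
    exact hcl.isOpen
  · have : {x : ℚ_[2] | rd x = 1} = (Metric.ball 0 1)ᶜ := by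
      rw [← h0]
      ext x
      rw [Set.mem_ofPred_eq, Set.mem_compl_iff, Set.mem_ofPred_eq]
      unfold rd
      split_ifs <;> simp
    show IsOpen {x : ℚ_[2] | rd x = 1}
    rw [this]
    exact hcl.compl.isOpen

lemma rd_comp_lc {X : Type} [TopologicalSpace X] {f : X → ℚ_[2]} (hf : Continuous f) :
    IsLocallyConstant (fun x => rd (f x)) := rd_lc.comp_continuous hf

lemma Mb_cont (h : Good ρ N) (i j : Fin n) : Continuous (fun σ => Mb ρ σ i j) := by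
  unfold Mb
  have h1 : Continuous fun σ => (ρ σ - 1) i j :=
    ((continuous_apply_apply i j).comp (h.cont.sub continuous_const))
  exact (continuous_subtype_val.comp h1).div_const 2

lemma exists_mu (h : Good ρ N) : ∃ μ : Fin n → Fin n → ℤ, (∀ i j, Squarefree (μ i j)) ∧
    ∀ σ i j, rd (Mb ρ σ i j) = qz (μ i j) σ := by
  have h1 : ∀ i j, ∃ e : ℤ, Squarefree e ∧ ∀ σ, rd (Mb ρ σ i j) = qz e σ := fun i j =>
    kum2 (fun σ => rd (Mb ρ σ i j)) (rd_comp_lc (Mb_cont h i j)) fun σ τ => rd_Mb_mul h σ τ i j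
  choose μ h2 h3 using h1
  exact ⟨μ, h2, fun σ i j => h3 i j σ⟩

/-! ### The values at inertia elements -/

/-- the value of a quadratic character at a ramified element -/
lemma qz_tau {P : Ideal (OO ℚ)} (hP : P.IsMaximal) {p : ℕ} (hp : p.Prime) (hp2 : p ≠ 2)
    (hpP : (p : OO ℚ) ∈ P) {τ : GQ} (hτ : InInertia P τ) (hτ1 : qc p τ = -1) {e : ℤ}
    (he : Squarefree e) : qz e τ = if (p : ℤ) ∣ e then 1 else 0 := by
  have h2 := not_mem_two hP hp hp2 hpP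
  split_ifs with h
  · obtain ⟨e', rfl⟩ := h
    have hp0 : ((p : ℕ) : ℤ) ≠ 0 := by exact_mod_cast hp.ne_zero
    have he' : e' ≠ 0 := right_ne_zero_of_mul he.ne_zero
    have hpe : ¬ (p : ℤ) ∣ e' := by
      rintro ⟨b, rfl⟩
      have h3 : (p : ℤ) * p ∣ p * (p * b) := ⟨b, by ring⟩
      have h4 := he p h3
      rw [Int.isUnit_iff] at h4
      have := hp.two_le
      omega
    have h5 : qc e' τ = 1 :=
      qc_inertia hP h2 (fun h' => hpe ((int_mem_iff hP hp hpP e').1 h')) hτ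
    unfold qz
    rw [qc_mul_left hp0 he', hτ1, h5]
    rfl
  · have h5 : qc e τ = 1 :=
      qc_inertia hP h2 (fun h' => h ((int_mem_iff hP hp hpP e).1 h')) hτ
    unfold qz
    rw [h5]
    rfl

lemma natCast_not_mem {P : Ideal (OO ℚ)} (hP : P.IsMaximal) {p : ℕ} (hp : p.Prime)
    (hpP : (p : OO ℚ) ∈ P) {N : ℕ} (hN : ¬ p ∣ N) : (N : OO ℚ) ∉ P := by
  intro h
  apply hN
  have h1 := (int_mem_iff hP hp hpP (N : ℤ)).1 (by exact_mod_cast h)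
  exact_mod_cast h1

lemma two_mul_not_mem {P : Ideal (OO ℚ)} (hP : P.IsMaximal) {p : ℕ} (hp : p.Prime)
    (hpP : (p : OO ℚ) ∈ P) (hp2 : p ≠ 2) {N : ℕ} (hN : ¬ p ∣ N) : ((2 * N : ℕ) : OO ℚ) ∉ P := by
  refine natCast_not_mem hP hp hpP fun h => ?_
  rcases (Nat.Prime.dvd_mul hp).1 h with h1 | h1
  · exact hp2 ((Nat.prime_dvd_prime_iff_eq hp Nat.prime_two).1 h1)
  · exact hN h1

lemma mu_unr (h : Good ρ N) {μ : Fin n → Fin n → ℤ} (hμ : ∀ i j, Squarefree (μ i j))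
    (hμ2 : ∀ σ i j, rd (Mb ρ σ i j) = qz (μ i j) σ) {p : ℕ} (hp : p.Prime) (hp2 : p ≠ 2)
    (hpN : ¬ p ∣ N) (i j : Fin n) : ¬ (p : ℤ) ∣ μ i j := by
  intro hd
  obtain ⟨P, hP, hpP, φ, τ, _, hτ, hτ1, _⟩ := exists_ram hp hp2
  have h1 := h.ur P hP (natCast_not_mem hP hp hpP hpN) τ hτ
  have h2 := hμ2 τ i j
  have h3 : Mb ρ τ i j = 0 := by
    unfold Mb
    rw [h1, sub_self]
    simp
  rw [h3, rd_zero, qz_tau hP hp hp2 hpP hτ hτ1 (hμ i j), if_pos hd] at h2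
  exact absurd h2 (by decide)

lemma Tw_mulVec {d : ℤ} {σ : GQ} (w : Fin n → ℚ_[2]) (i : Fin n) :
    (Tw ρ d σ *ᵥ w) i = (qc d σ : ℚ_[2]) * (w i + 2 * ∑ j, Mb ρ σ i j * w j) := by
  unfold Tw
  rw [Matrix.smul_mulVec, Pi.smul_apply, smul_eq_mul]
  congr 1
  unfold Matrix.mulVec dotProduct
  have h1 : ∀ j, (ρ σ).map (fun x => (x : ℚ_[2])) i j * w j =
      (1 : Matrix (Fin n) (Fin n) ℚ_[2]) i j * w j + 2 * (Mb ρ σ i j * w j) := by
    intro j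
    rw [Matrix.map_apply, rho_eq]
    ring
  rw [Finset.sum_congr rfl fun j _ => h1 j, Finset.sum_add_distrib, ← Finset.mul_sum]
  congr 1
  simp [Matrix.one_apply]

/-- the reduction of an integral crossed homomorphism is a homomorphism -/
lemma rd_hom (h : Good ρ N) {d : ℤ} {f : GQ → Fin n → ℚ_[2]}
    (hf : ∀ σ τ, f (σ * τ) = f σ + Tw ρ d σ *ᵥ f τ) (hint : ∀ σ i, ‖f σ i‖ ≤ 1) (σ τ : GQ)
    (i : Fin n) : rd (f (σ * τ) i) = rd (f σ i) + rd (f τ i) := by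
  rw [hf, Pi.add_apply, Tw_mulVec]
  have h3 : ‖∑ j, Mb ρ σ i j * f τ j‖ ≤ 1 :=
    norm_sum_le _ _ fun l _ => norm_mul_le1 (Mb_norm h _ _ _) (hint _ _)
  have h4 : ‖(2 : ℚ_[2]) * ∑ j, Mb ρ σ i j * f τ j‖ ≤ 1 :=
    norm_mul_le1 (by rw [norm_two]; norm_num) h3
  have h5 : ‖f τ i + 2 * ∑ j, Mb ρ σ i j * f τ j‖ ≤ 1 :=
    (Padic.nonarchimedean _ _).trans (max_le (hint τ i) h4)
  have h6 : rd (f τ i + 2 * ∑ j, Mb ρ σ i j * f τ j) = rd (f τ i) := by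
    rw [rd_add (hint τ i) h4, rd_two_mul h3, add_zero]
  rcases qc_val d σ with h7 | h7 <;> rw [h7]
  · rw [Int.cast_one, one_mul, rd_add (hint σ i) h5, h6]
  · have h8 : (((-1 : ℤ) : ℚ_[2]) * (f τ i + 2 * ∑ j, Mb ρ σ i j * f τ j)) =
        -(f τ i + 2 * ∑ j, Mb ρ σ i j * f τ j) := by
      push_cast
      ring
    rw [h8, rd_add (hint σ i) (by rw [norm_neg]; exact h5), rd_neg, h6]

/-- Kummer generators of the reduction -/
lemma exists_e (h : Good ρ N) {d : ℤ} {f : GQ → Fin n → ℚ_[2]}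
    (hc : Continuous f) (hf : ∀ σ τ, f (σ * τ) = f σ + Tw ρ d σ *ᵥ f τ)
    (hint : ∀ σ i, ‖f σ i‖ ≤ 1) :
    ∃ e : Fin n → ℤ, (∀ i, Squarefree (e i)) ∧ ∀ σ i, rd (f σ i) = qz (e i) σ := by
  have h1 : ∀ i, ∃ e : ℤ, Squarefree e ∧ ∀ σ, rd (f σ i) = qz e σ := fun i =>
    kum2 (fun σ => rd (f σ i)) (rd_comp_lc ((continuous_apply i).comp hc))
      fun σ τ => rd_hom h hf hint σ τ i
  choose e h2 h3 using h1
  exact ⟨e, h2, fun σ i => h3 i σ⟩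

/-- no ramification at the primes that do not divide `2 N d` -/
lemma e_unr (h : Good ρ N) {d : ℤ} {f : GQ → Fin n → ℚ_[2]} (hf : IsSel N (Tw ρ d) f)
    {e : Fin n → ℤ} (he : ∀ i, Squarefree (e i)) (he2 : ∀ σ i, rd (f σ i) = qz (e i) σ) {p : ℕ}
    (hp : p.Prime) (hp2 : p ≠ 2) (hpN : ¬ p ∣ N) (hpd : ¬ (p : ℤ) ∣ d) (i : Fin n) :
    ¬ (p : ℤ) ∣ e i := by
  intro hd
  obtain ⟨P, hP, hpP, φ, τ, _, hτ, hτ1, _⟩ := exists_ram hp hp2
  have h1 := h.ur P hP (natCast_not_mem hP hp hpP hpN) τ hτ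
  have h2 := not_mem_two hP hp hp2 hpP
  obtain ⟨v, hv⟩ := hf.2.2 P hP (two_mul_not_mem hP hp hpP hp2 hpN)
  have h3 : qc d τ = 1 := qc_inertia hP h2 (fun h' => hpd ((int_mem_iff hP hp hpP d).1 h')) hτ
  have h4 : f τ i = 0 := by
    rw [hv τ hτ, Pi.sub_apply, Tw_mulVec, h3]
    have h5 : ∀ j, Mb ρ τ i j = 0 := by
      intro j
      unfold Mb
      rw [h1, sub_self]
      simp
    simp [h5]
  have h6 := he2 τ i
  rw [h4, rd_zero, qz_tau hP hp hp2 hpP hτ hτ1 (he i), if_pos hd] at h6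
  exact absurd h6 (by decide)

/-- the additive Legendre symbol -/
lemma qz_frob {P : Ideal (OO ℚ)} (hP : P.IsMaximal) {p : ℕ} (hp : p.Prime) (hp2 : p ≠ 2)
    (h : (p : OO ℚ) ∈ P) {φ : GQ} (hφ : FrobAt p P φ) {a : ℤ} (ha : ¬ (p : ℤ) ∣ a) :
    qz a φ = if jacobiSym a p = -1 then 1 else 0 := by
  unfold qz
  rw [qc_frob hP hp hp2 h hφ ha]

/-- **the local relation** -/
theorem local_rel (h : Good ρ N) {d : ℤ} (hd : d ≠ 0) {f : GQ → Fin n → ℚ_[2]}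
    (hf : IsSel N (Tw ρ d) f) (hint : ∀ σ i, ‖f σ i‖ ≤ 1) {e : Fin n → ℤ}
    (he : ∀ i, Squarefree (e i)) (he2 : ∀ σ i, rd (f σ i) = qz (e i) σ)
    {μ : Fin n → Fin n → ℤ} (hμ : ∀ i j, Squarefree (μ i j))
    (hμ2 : ∀ σ i j, rd (Mb ρ σ i j) = qz (μ i j) σ) {p : ℕ}
    (hp : p.Prime) (hp2 : p ≠ 2) (hpN : ¬ p ∣ N) (hpd : (p : ℤ) ∣ d) (hpd2 : ¬ (p : ℤ) ^ 2 ∣ d)
    (i : Fin n) :
    (if jacobiSym (if (p : ℤ) ∣ e i then e i / p else e i) p = -1 then (1 : ZMod 2) else 0) =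
      (if jacobiSym (d / p) p = -1 then (if (p : ℤ) ∣ e i then 1 else 0) else 0) +
        ∑ j, (if jacobiSym (μ i j) p = -1 then 1 else 0) * (if (p : ℤ) ∣ e j then 1 else 0) := by
  obtain ⟨P, hP, hpP, φ, τ, hφ, hτ, hτ1, hφ1⟩ := exists_ram hp hp2
  have hp0 : ((p : ℕ) : ℤ) ≠ 0 := by exact_mod_cast hp.ne_zero
  have h2 := not_mem_two hP hp hp2 hpP
  have hN := natCast_not_mem hP hp hpP hpN
  obtain ⟨v, hv⟩ := hf.2.2 P hP (two_mul_not_mem hP hp hpP hp2 hpN)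
  -- the discriminant
  obtain ⟨d', rfl⟩ := hpd
  have hd' : d' ≠ 0 := right_ne_zero_of_mul hd
  have hpd' : ¬ (p : ℤ) ∣ d' := by
    rintro ⟨b, rfl⟩
    exact hpd2 ⟨b, by ring⟩
  rw [Int.mul_ediv_cancel_left _ hp0]
  have hdτ : qc (p * d') τ = -1 := by
    rw [qc_mul_left hp0 hd', hτ1,
      qc_inertia hP h2 (fun h' => hpd' ((int_mem_iff hP hp hpP d').1 h')) hτ, mul_one]
  have hdφ : qc (p * d') φ = jacobiSym d' p := by
    rw [qc_mul_left hp0 hd', hφ1, one_mul, qc_frob hP hp hp2 hpP hφ hpd']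
  -- the conjugate
  have hφP : ∀ x : OO ℚ, x ∈ P → φ • x ∈ P := by
    intro x hx
    have h3 := hφ x
    have h4 : φ • x = (φ • x - x ^ p) + x ^ p := by ring
    rw [h4]
    exact P.add_mem h3 (P.pow_mem_of_mem hx _ hp.pos)
  have hτ' : InInertia P (φ * τ * φ⁻¹) := by
    intro x
    have h3 : (φ * τ * φ⁻¹) • x - x = φ • (τ • (φ⁻¹ • x) - φ⁻¹ • x) := by
      rw [smul_sub, smul_inv_smul, mul_smul, mul_smul]
    rw [h3]
    exact hφP _ (hτ _)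
  have hρτ : ρ τ = 1 := h.ur P hP hN τ hτ
  have hρτ' : ρ (φ * τ * φ⁻¹) = 1 := h.ur P hP hN _ hτ'
  have hMb : ∀ σ, ρ σ = 1 → ∀ a b, Mb ρ σ a b = 0 := by
    intro σ hσ a b
    unfold Mb
    rw [hσ, sub_self]
    simp
  have hqτ' : qc (p * d') (φ * τ * φ⁻¹) = -1 := by
    rw [qc_comm hd, hdτ]
  -- the value at the Frobenius element
  have hfφ : f φ = Tw ρ (p * d') φ *ᵥ v - v := by
    have e1 : φ * τ = (φ * τ * φ⁻¹) * φ := by group
    have e2 := hf.2.1 φ τ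
    rw [e1, hf.2.1 (φ * τ * φ⁻¹) φ, hv τ hτ, hv _ hτ'] at e2
    funext a
    have e3 := congrFun e2 a
    simp only [Pi.add_apply, Pi.sub_apply, Tw_mulVec, hMb _ hρτ, hMb _ hρτ', hqτ', hdτ,
      zero_mul, Finset.sum_const_zero, mul_zero, add_zero] at e3 ⊢
    push_cast at e3
    have e4 : ∑ j, Mb ρ φ a j * (-1 * v j - v j) = (-2) * ∑ j, Mb ρ φ a j * v j := by
      rw [Finset.mul_sum]
      exact Finset.sum_congr rfl fun j _ => by ring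
    rw [e4] at e3
    linear_combination (-1 / 2 : ℚ_[2]) * e3
  set w : Fin n → ℚ_[2] := f τ with hw
  have hwv : ∀ a, v a = -(1 / 2) * w a := by
    intro a
    rw [hw, hv τ hτ, Pi.sub_apply, Tw_mulVec, hdτ]
    simp only [hMb _ hρτ, zero_mul, Finset.sum_const_zero, mul_zero, add_zero]
    push_cast
    ring
  have hwi : ∀ a, ‖w a‖ ≤ 1 := fun a => hint τ a
  -- the reductions
  have r1 : ∀ a, rd (w a) = if (p : ℤ) ∣ e a then 1 else 0 := by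
    intro a
    rw [hw, he2 τ a, qz_tau hP hp hp2 hpP hτ hτ1 (he a)]
  have r2 : ∀ a b, rd (Mb ρ φ a b) = if jacobiSym (μ a b) p = -1 then 1 else 0 := by
    intro a b
    rw [hμ2 φ a b, qz_frob hP hp hp2 hpP hφ (mu_unr h hμ hμ2 hp hp2 hpN a b)]
  have r3 : rd (f φ i) =
      if jacobiSym (if (p : ℤ) ∣ e i then e i / p else e i) p = -1 then 1 else 0 := by
    rw [he2 φ i]
    by_cases hpe : (p : ℤ) ∣ e i
    · rw [if_pos hpe]
      obtain ⟨e', he'⟩ := hpe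
      have he0 : e' ≠ 0 := by
        have := (he i).ne_zero
        rw [he'] at this
        exact right_ne_zero_of_mul this
      have hpe' : ¬ (p : ℤ) ∣ e' := by
        rintro ⟨b, rfl⟩
        have h3 : (p : ℤ) * p ∣ e i := ⟨b, by rw [he']; ring⟩
        have h4 := he i p h3
        rw [Int.isUnit_iff] at h4
        have := hp.two_le
        omega
      rw [he', Int.mul_ediv_cancel_left _ hp0, qz_mul_left hp0 he0,
        qz_frob hP hp hp2 hpP hφ hpe']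
      have : qz p φ = 0 := by
        unfold qz
        rw [hφ1]
        rfl
      rw [this, zero_add]
    · rw [if_neg hpe, qz_frob hP hp hp2 hpP hφ hpe]
  have hMw : ‖∑ j, Mb ρ φ i j * w j‖ ≤ 1 :=
    norm_sum_le _ _ fun l _ => norm_mul_le1 (Mb_norm h _ _ _) (hwi _)
  have r4 : rd (∑ j, Mb ρ φ i j * w j) =
      ∑ j, (if jacobiSym (μ i j) p = -1 then 1 else 0) * (if (p : ℤ) ∣ e j then 1 else 0) := by
    rw [rd_sum _ _ fun l _ => norm_mul_le1 (Mb_norm h _ _ _) (hwi _)]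
    refine Finset.sum_congr rfl fun j _ => ?_
    rw [rd_mul (Mb_norm h _ _ _) (hwi _), r1, r2]
  rw [← r3, ← r4, hfφ, Pi.sub_apply, Tw_mulVec, hdφ]
  have e5 : ∑ j, Mb ρ φ i j * v j = -(1 / 2) * ∑ j, Mb ρ φ i j * w j := by
    rw [Finset.mul_sum]
    exact Finset.sum_congr rfl fun j _ => by rw [hwv]; ring
  rw [e5, hwv i]
  have hna : Int.gcd d' p = 1 := by
    rw [Int.gcd_comm]
    have h3 : ¬ p ∣ d'.natAbs := by
      rwa [← Int.natCast_dvd]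
    exact hp.coprime_iff_not_dvd.mpr h3
  rcases jacobiSym.eq_one_or_neg_one hna with e6 | e6
  · rw [e6, if_neg (by decide), zero_add]
    have : (((1 : ℤ) : ℚ_[2]) * (-(1 / 2) * w i + 2 * (-(1 / 2) * ∑ j, Mb ρ φ i j * w j)) -
        -(1 / 2) * w i) = -∑ j, Mb ρ φ i j * w j := by
      push_cast
      ring
    rw [this, rd_neg]
  · rw [e6, if_pos rfl, ← r1 i]
    have : (((-1 : ℤ) : ℚ_[2]) * (-(1 / 2) * w i + 2 * (-(1 / 2) * ∑ j, Mb ρ φ i j * w j)) -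
        -(1 / 2) * w i) = w i + ∑ j, Mb ρ φ i j * w j := by
      push_cast
      ring
    rw [this, rd_add (hwi i) hMw]

end good

end Pool.Agent.Y712
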