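import Pool.Agent.Y712.Cnt
import Pool.Agent.TH841.PT.Stm
import Pool.Agent.W762.RK2.EXP4b

/-!
# Expansion of the averages into Jacobi symbols
-/

set_option autoImplicit false

namespace Pool.Agent.Y712

open Finset Pool.Agent.W262.RK Pool.Agent.W762.RK2 Pool.Agent.TH841.PT Pool.Agent.W108.RK

lemma Tup_unit1 {z y : ℕ} {s : Unit → ℕ} (hs : s ∈ Tup Unit z y) : s () ∣ PP z y :=
  (mem_Tup.1 hs).1 ()

lemma prod_gp1 {z y : ℕ} {ι : Type} [Fintype ι] [DecidableEq ι] (w : ι → ℕ → ℝ) (c : ℕ)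
    (l : Pr z y → Option ι) :
    ∏ i, gp (w i) c (Dl l i) = ∏ p : Pr z y, (l p).elim 1 fun i => w i p / ((p : ℝ) - c) := by
  have h1 : ∀ i, gp (w i) c (Dl l i) = ∏ p : Pr z y,
      if l p = some i then w i p / ((p : ℝ) - c) else 1 := by
    intro i
    unfold gp Dl
    rw [prod_pf _ fun p : ℕ => w i p / ((p : ℝ) - c)]
    simp only [decide_eq_true_eq]
  rw [Finset.prod_congr rfl fun i _ => h1 i, Finset.prod_comm]
  refine Finset.prod_congr rfl fun p _ => ?_
  cases h : l p with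
  | none => simp
  | some j => simp

variable {ι : Type} [Fintype ι] [DecidableEq ι] {z y : ℕ}

/-- the indices of the expansion -/
abbrev IX (ι : Type) [Fintype ι] [DecidableEq ι] : Type :=
  {x : Vec ι × Vec ι // x.2 ⬝ᵥ x.1 = 0}

/-- linked indices -/
def LX (ι : Type) [Fintype ι] [DecidableEq ι] (i i' : IX ι) : Bool :=
  decide (i'.1.2 ⬝ᵥ i.1.1 = 1)

/-- the constants -/
def κX (μ : ι → ι → ℤ) (i : IX ι) : ℤ :=
  ∏ a, ∏ b, if i.1.2 a = 1 ∧ i.1.1 b = 1 then μ a b else 1

lemma κX_ne (μ : ι → ι → ℤ) (hμ : ∀ a b, μ a b ≠ 0) (i : IX ι) : κX μ i ≠ 0 := by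
  unfold κX
  refine prod_ne_zero_iff.2 fun a _ => prod_ne_zero_iff.2 fun b _ => ?_
  split_ifs
  · exact hμ a b
  · exact one_ne_zero

lemma LX_self (i : IX ι) : LX ι i i = false := by
  unfold LX
  rw [i.2]
  rfl

/-- unlinked sets are small -/
lemma card_unl (U : Finset (IX ι)) (hU : ∀ i ∈ U, ∀ j ∈ U, LX ι i j = LX ι j i) :
    U.card ≤ 2 ^ Fintype.card ι := by
  classical
  have h1 : (U.map (Function.Embedding.subtype _)).card = U.card := card_map _
  rw [← h1]
  refine iso_card _ ?_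
  intro a ha b hb
  rw [mem_map] at ha hb
  obtain ⟨i, hi, rfl⟩ := ha
  obtain ⟨j, hj, rfl⟩ := hb
  have h := hU i hi j hj
  unfold LX at h
  have h2 := decide_eq_decide.1 h
  show j.1.2 ⬝ᵥ i.1.1 = i.1.2 ⬝ᵥ j.1.1
  rcases zmod2 (j.1.2 ⬝ᵥ i.1.1) with e1 | e1 <;> rcases zmod2 (i.1.2 ⬝ᵥ j.1.1) with e2 | e2
  · rw [e1, e2]
  · rw [e1, e2] at h2
    exact absurd (h2.2 rfl) (by decide)
  · rw [e1, e2] at h2
    exact absurd (h2.1 rfl) (by decide)
  · rw [e1, e2]

/-- the tuple of the support -/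
def SX (ξ : Pr z y → Option (Vec ι)) : Unit → ℕ := Dl fun p => (ξ p).map fun _ => ()

/-- the vector -/
def vX (ξ : Pr z y → Option (Vec ι)) : ℕ → Vec ι :=
  fun q => if h : q ∈ PS z y then (ξ ⟨q, h⟩).elim 0 id else 0

omit [Fintype ι] [DecidableEq ι] in
lemma vX_p (ξ : Pr z y → Option (Vec ι)) (p : Pr z y) : vX ξ p = (ξ p).elim 0 id := by
  unfold vX
  rw [dif_pos p.2]

omit [Fintype ι] [DecidableEq ι] in
lemma SX_eq (ξ : Pr z y → Option (Vec ι)) : SX ξ () = nb fun p => (ξ p).isSome := by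
  unfold SX Dl
  congr 1
  funext p
  show decide ((ξ p).map (fun _ => ()) = some ()) = (ξ p).isSome
  cases h : ξ p with
  | none => rfl
  | some v => rfl

omit [Fintype ι] [DecidableEq ι] in
lemma mem_SX (ξ : Pr z y → Option (Vec ι)) (p : Pr z y) :
    (p : ℕ) ∈ (SX ξ ()).primeFactors ↔ (ξ p).isSome = true := by
  rw [SX_eq, nb_pf, mem_Ts]

omit [Fintype ι] [DecidableEq ι] in
lemma mem_PS_of_SX (ξ : Pr z y → Option (Vec ι)) {q : ℕ} (h : q ∈ (SX ξ ()).primeFactors) :
    q ∈ PS z y := by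
  rw [SX_eq, nb_pf] at h
  unfold Ts at h
  rw [mem_map] at h
  obtain ⟨a, _, rfl⟩ := h
  exact a.2

lemma sum_bigX (F : (Unit → ℕ) → (ℕ → Vec ι) → ℝ) :
    ∑ s ∈ Tup Unit z y, ∑ v ∈ VT ι (s ()).primeFactors, F s v =
      ∑ ξ : Pr z y → Option (Vec ι), F (SX ξ) (vX ξ) := by
  classical
  rw [Finset.sum_sigma']
  symm
  refine Finset.sum_bij (fun ξ _ => ⟨SX ξ, vX ξ⟩) ?_ ?_ ?_ (fun _ _ => rfl)
  · intro ξ _
    rw [Finset.mem_sigma]
    refine ⟨Dl_mem _, ?_⟩
    rw [mem_VT]
    intro q hq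
    show vX ξ q = 0
    by_cases hqP : q ∈ PS z y
    · have h1 := vX_p ξ ⟨q, hqP⟩
      have h2 := mem_SX ξ ⟨q, hqP⟩
      simp only at h1 h2
      rw [h1]
      cases hx : ξ ⟨q, hqP⟩ with
      | none => rfl
      | some v =>
        rw [hx] at h2
        exact absurd (h2.2 rfl) hq
    · unfold vX
      rw [dif_neg hqP]
  · intro ξ _ ξ' _ h
    have h1 : SX ξ = SX ξ' := congrArg Sigma.fst h
    have h2 : vX ξ = vX ξ' := by
      have := congrArg Sigma.snd h
      exact this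
    funext p
    have e1 : (ξ p).isSome = true ↔ (ξ' p).isSome = true := by
      rw [← mem_SX, ← mem_SX, h1]
    have e2 : (ξ p).elim 0 id = (ξ' p).elim 0 id := by
      rw [← vX_p, ← vX_p, h2]
    cases hx : ξ p with
    | none =>
      cases hx' : ξ' p with
      | none => rfl
      | some a' => rw [hx, hx'] at e1; exact absurd (e1.2 rfl) (by simp)
    | some a =>
      cases hx' : ξ' p with
      | none => rw [hx, hx'] at e1; exact absurd (e1.1 rfl) (by simp)
      | some a' =>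
        rw [hx, hx'] at e2
        exact congrArg some e2
  · rintro ⟨s, v⟩ hs
    rw [Finset.mem_sigma] at hs
    obtain ⟨hs, hv⟩ := hs
    simp only at hs hv
    rw [mem_VT] at hv
    have hsP : s () ∣ PP z y := Tup_unit1 hs
    have hs0 : s () ≠ 0 := by
      have h3 := (mem_Tup.1 hs).1 ()
      intro h4
      rw [h4] at h3
      have := nb_ne_zero (z := z) (y := y) (fun _ => true)
      rw [nb_true] at this
      exact this (Nat.eq_zero_of_zero_dvd h3)
    refine ⟨fun p => if (p : ℕ) ∣ s () then some (v p) else none, Finset.mem_univ _, ?_⟩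
    have e1 : SX (fun p : Pr z y => if (p : ℕ) ∣ s () then some (v p) else none) = s := by
      funext u
      have : u = () := rfl
      subst this
      rw [SX_eq]
      conv_rhs => rw [← nb_eq hsP]
      congr 1
      funext p
      by_cases hp : (p : ℕ) ∣ s ()
      · simp [hp]
      · simp [hp]
    have e2 : vX (fun p : Pr z y => if (p : ℕ) ∣ s () then some (v p) else none) = v := by
      funext q
      by_cases hqP : q ∈ PS z y
      · have h1 := vX_p (fun p : Pr z y => if (p : ℕ) ∣ s () then some (v p) else none) ⟨q, hqP⟩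
        simp only at h1
        rw [h1]
        by_cases hq : q ∣ s ()
        · rw [if_pos hq]
          rfl
        · rw [if_neg hq]
          have : q ∉ (s ()).primeFactors := fun h => hq (Nat.dvd_of_mem_primeFactors h)
          rw [hv q this]
          rfl
      · unfold vX
        rw [dif_neg hqP]
        have : q ∉ (s ()).primeFactors := by
          intro h
          apply hqP
          have hp := Nat.prime_of_mem_primeFactors h
          have h2 := (Nat.dvd_of_mem_primeFactors h).trans hsP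
          unfold PP at h2
          obtain ⟨q', hq', hpq⟩ := (hp.prime.dvd_finsetProd_iff _).1 h2
          have h3 := mem_filter.1 hq'
          rwa [(Nat.prime_dvd_prime_iff_eq hp h3.2).1 hpq]
        rw [hv q this]
    rw [e1, e2]

/-- the averaged counting function as a sum of products -/
lemma GN_eq (μ : ι → ι → ℤ) (s : ℕ) :
    GN μ s = ∑ v ∈ VT ι s.primeFactors, ∏ p ∈ s.primeFactors,
      (ind (Cnd μ s.primeFactors true p v) + ind (Cnd μ s.primeFactors false p v)) / 2 := by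
  classical
  set T := s.primeFactors with hT
  have h1 : ∀ E : Finset ℕ, (NS μ T E : ℝ) =
      ∑ v ∈ VT ι T, ∏ p ∈ T, ind (Cnd μ T (decide (p ∈ E)) p v) := by
    intro E
    unfold NS Sl
    rw [Finset.card_filter]
    push_cast
    refine Finset.sum_congr rfl fun d _ => ?_
    rw [prod_ind]
    unfold ind
    congr
  unfold GN
  rw [← hT, Finset.sum_congr rfl fun E _ => h1 E, Finset.sum_comm, Finset.mul_sum]
  refine Finset.sum_congr rfl fun d _ => ?_
  exact avg T T subset_rfl (fun e p => ind (Cnd μ T e p d)) fun p hp hn => absurd hp hn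

/-- the local term -/
noncomputable def TX (μ : ι → ι → ℤ) (g : ℕ → ℝ) (c : ℕ) (ξ : Pr z y → Option (Vec ι))
    (p : Pr z y) : ℝ :=
  (ξ p).elim 1 fun _ => g p / ((p : ℝ) - c) *
    ((ind (Cnd μ (SX ξ ()).primeFactors true p (vX ξ)) +
      ind (Cnd μ (SX ξ ()).primeFactors false p (vX ξ))) / 2)

lemma lhsX (μ : ι → ι → ℤ) (g : ℕ → ℝ) (c : ℕ) :
    ∑ s ∈ Tup Unit z y, GN μ (s ()) * ∏ j, gp g c (s j) =
      ∑ ξ : Pr z y → Option (Vec ι), ∏ p, TX μ g c ξ p := by
  have h1 : ∀ s ∈ Tup Unit z y, GN μ (s ()) * ∏ j, gp g c (s j) =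
      ∑ v ∈ VT ι (s ()).primeFactors, (∏ p ∈ (s ()).primeFactors,
        (ind (Cnd μ (s ()).primeFactors true p v) + ind (Cnd μ (s ()).primeFactors false p v)) / 2) *
        ∏ j, gp g c (s j) := by
    intro s _
    rw [GN_eq, Finset.sum_mul]
  rw [Finset.sum_congr rfl h1, sum_bigX fun s v => (∏ p ∈ (s ()).primeFactors,
    (ind (Cnd μ (s ()).primeFactors true p v) + ind (Cnd μ (s ()).primeFactors false p v)) / 2) *
        ∏ j, gp g c (s j)]
  refine Finset.sum_congr rfl fun ξ _ => ?_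
  have h2 : ∏ j, gp g c (SX ξ j) = ∏ p : Pr z y, ((ξ p).map fun _ => ()).elim 1
      fun _ : Unit => g p / ((p : ℝ) - c) := prod_gp1 (fun _ : Unit => g) c _
  rw [h2]
  have h3 : ∏ p ∈ (SX ξ ()).primeFactors,
      (ind (Cnd μ (SX ξ ()).primeFactors true p (vX ξ)) +
        ind (Cnd μ (SX ξ ()).primeFactors false p (vX ξ))) / 2 =
      ∏ p : Pr z y, if (ξ p).isSome = true then
        (ind (Cnd μ (SX ξ ()).primeFactors true p (vX ξ)) +
        ind (Cnd μ (SX ξ ()).primeFactors false p (vX ξ))) / 2 else 1 := by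
    conv_lhs => rw [SX_eq]
    rw [prod_pf (fun p => (ξ p).isSome) fun p =>
      (ind (Cnd μ (nb fun p => (ξ p).isSome).primeFactors true p (vX ξ)) +
        ind (Cnd μ (nb fun p => (ξ p).isSome).primeFactors false p (vX ξ))) / 2, SX_eq]
  rw [h3, ← Finset.prod_mul_distrib]
  refine Finset.prod_congr rfl fun p _ => ?_
  unfold TX
  cases hx : ξ p with
  | none => simp
  | some v =>
    simp only [Option.map_some, Option.isSome_some, if_true, Option.elim]
    ring

/-- forget the character -/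
def fgX (x : Option (IX ι)) : Option (Vec ι) := x.map fun i => i.1.1

/-- the local factor -/
noncomputable def GX (μ : ι → ι → ℤ) (g : ℕ → ℝ) (c : ℕ) (ξ : Pr z y → Option (Vec ι))
    (p : Pr z y) (x : Option (IX ι)) : ℝ :=
  x.elim 1 fun i => g p / ((p : ℝ) - c) * (1 / 2 ^ Fintype.card ι * Jr (κX μ i) p *
    ∏ q : Pr z y, if i.1.2 ⬝ᵥ vX ξ q = 1 then Jr (q : ℕ) p else 1)

lemma gcd_of_prime {k : ℤ} {p : ℕ} (hp : p.Prime) (h : ¬ (p : ℤ) ∣ k) : k.gcd p = 1 := by
  rw [Int.gcd_comm]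
  have h3 : ¬ p ∣ k.natAbs := by
    rwa [← Int.natCast_dvd]
  exact hp.coprime_iff_not_dvd.mpr h3

lemma Jr_one_left' (n : ℕ) : Jr 1 n = 1 := by
  unfold Jr
  simp

lemma Jr_kX (μ : ι → ι → ℤ) {p : ℕ} (hp : p.Prime) (hμ : ∀ a b, ¬ (p : ℤ) ∣ μ a b) (i : IX ι) :
    Jr (κX μ i) p = ep (i.1.2 ⬝ᵥ fun a => ∑ b, js p (μ a b) * i.1.1 b) := by
  have h1 : ep (i.1.2 ⬝ᵥ fun a => ∑ b, js p (μ a b) * i.1.1 b) =
      ∏ a, ∏ b, ep (js p (μ a b) * (i.1.2 a * i.1.1 b)) := by
    unfold dotProduct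
    rw [ep_sum]
    refine prod_congr rfl fun a _ => ?_
    rw [mul_sum, ep_sum]
    refine prod_congr rfl fun b _ => ?_
    congr 1
    ring
  rw [h1]
  unfold κX
  have h2 : ∀ (s : Finset ι) (f : ι → ℤ), Jr (∏ a ∈ s, f a) p = ∏ a ∈ s, Jr (f a) p := by
    intro s f
    induction s using Finset.induction_on with
    | empty => simp [Jr_one_left']
    | insert a s ha ih => rw [prod_insert ha, prod_insert ha, Jr_mul_left, ih]
  rw [h2]
  refine prod_congr rfl fun a _ => ?_
  rw [h2]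
  refine prod_congr rfl fun b _ => ?_
  rw [ep_js (gcd_of_prime hp (hμ a b))]
  rcases zmod2 (i.1.2 a) with e1 | e1 <;> rcases zmod2 (i.1.1 b) with e2 | e2 <;> rw [e1, e2] <;>
    simp [Jr_one_left']

/-- the local identity for the conditions -/
lemma loc_C (μ : ι → ι → ℤ) (ξ : Pr z y → Option (Vec ι)) (p : Pr z y) (v : Vec ι)
    (hv : ξ p = some v) (hμ : ∀ a b, ¬ ((p : ℕ) : ℤ) ∣ μ a b) :
    (ind (Cnd μ (SX ξ ()).primeFactors true p (vX ξ)) +
      ind (Cnd μ (SX ξ ()).primeFactors false p (vX ξ))) / 2 =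
      ∑ w : Vec ι, if h : w ⬝ᵥ v = 0 then 1 / 2 ^ Fintype.card ι *
        Jr (κX μ ⟨(v, w), h⟩) p * ∏ q : Pr z y, (if w ⬝ᵥ vX ξ q = 1 then Jr (q : ℕ) p else 1)
        else 0 := by
  set T := (SX ξ ()).primeFactors with hT
  have hvp : vX ξ p = v := by
    rw [vX_p, hv]
    rfl
  set x : Vec ι := fun i => ∑ q ∈ T.erase p, js p q * vX ξ q i with hx
  set u : Vec ι := fun a => ∑ b, js p (μ a b) * v b with hu
  have h1 : Cnd μ T true p (vX ξ) ↔ x = v + u := by
    rw [funext_iff]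
    unfold Cnd
    refine forall_congr' fun i => ?_
    rw [hvp]
    rfl
  have h2 : Cnd μ T false p (vX ξ) ↔ x = u := by
    rw [funext_iff]
    unfold Cnd
    refine forall_congr' fun i => ?_
    rw [hvp]
    simp [hx, hu]
  rw [propext h1, propext h2, loc_id2]
  refine sum_congr rfl fun w _ => ?_
  by_cases hw : w ⬝ᵥ v = 0
  · rw [if_pos hw, dif_pos hw, mul_assoc]
    congr 1
    rw [dotProduct_add, ep_add, mul_comm, Jr_kX μ (Pr_prime p) hμ]
    congr 1
    -- the symbols
    have h3 : w ⬝ᵥ x = ∑ q ∈ T.erase p, js p q * (w ⬝ᵥ vX ξ q) := by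
      unfold dotProduct
      simp only [hx, mul_sum]
      rw [sum_comm]
      refine sum_congr rfl fun q _ => sum_congr rfl fun i _ => ?_
      ring
    have h4 : ep (w ⬝ᵥ x) = ∏ q ∈ T.erase p, if w ⬝ᵥ vX ξ q = 1 then Jr (q : ℕ) p else 1 := by
      rw [h3, ep_sum]
      refine prod_congr rfl fun q hq => ?_
      rw [mem_erase] at hq
      refine ep_js (gcd_of_prime (Pr_prime p) ?_) _
      rw [Int.natCast_dvd_natCast]
      intro hd
      exact hq.1 ((Nat.prime_dvd_prime_iff_eq (Pr_prime p)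
        (Nat.prime_of_mem_primeFactors hq.2)).1 hd).symm
    rw [h4, prod_erase]
    · conv_lhs => rw [hT, SX_eq]
      rw [prod_pf (fun p => (ξ p).isSome) fun q : ℕ =>
        if w ⬝ᵥ vX ξ q = 1 then Jr (q : ℕ) p else 1]
      refine prod_congr rfl fun q _ => ?_
      cases hq : ξ q with
      | none =>
        have : vX ξ q = 0 := by
          rw [vX_p, hq]
          rfl
        simp [this]
      | some v' => simp
    · rw [hvp, hw, if_neg (by decide)]
  · rw [if_neg hw, dif_neg hw]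

lemma sum_GX (μ : ι → ι → ℤ) (g : ℕ → ℝ) (c : ℕ) (ξ : Pr z y → Option (Vec ι))
    (p : Pr z y) (hμ : ∀ a b, ¬ ((p : ℕ) : ℤ) ∣ μ a b) :
    ∑ x ∈ univ.filter (fun x : Option (IX ι) => fgX x = ξ p), GX μ g c ξ p x =
      TX μ g c ξ p := by
  rw [Finset.sum_filter, Fintype.sum_option]
  unfold TX
  cases hx : ξ p with
  | none => simp [fgX, GX]
  | some v =>
    have h0 : (if fgX (none : Option (IX ι)) = some v then GX μ g c ξ p none else 0) = 0 := by
      rw [if_neg]
      simp [fgX]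
    rw [h0, zero_add]
    obtain ⟨F, hF⟩ : ∃ F : Vec ι × Vec ι → ℝ, F = fun r : Vec ι × Vec ι =>
        if h : r.2 ⬝ᵥ r.1 = 0 then
          (if r.1 = v then g p / ((p : ℝ) - c) * (1 / 2 ^ Fintype.card ι * Jr (κX μ ⟨r, h⟩) p *
    ∏ q : Pr z y, if r.2 ⬝ᵥ vX ξ q = 1 then Jr (q : ℕ) p else 1) else 0) else 0 := ⟨_, rfl⟩
    have h2 : ∀ i : IX ι, (if fgX (some i) = some v then GX μ g c ξ p (some i) else 0) =
        F i.1 := by
      intro i
      rw [hF]
      simp only
      rw [dif_pos i.2]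
      refine if_congr ?_ rfl rfl
      simp [fgX]
    rw [Finset.sum_congr rfl fun i _ => h2 i]
    have h4 : ∀ r, r.2 ⬝ᵥ r.1 ≠ 0 → F r = 0 := by
      intro r hr
      rw [hF]
      exact dif_neg hr
    have h3 : ∑ i : IX ι, F i.1 = ∑ r, F r := by
      rw [← Finset.sum_subtype (univ.filter fun r : Vec ι × Vec ι => r.2 ⬝ᵥ r.1 = 0)
        (fun x => by simp) F, Finset.sum_filter]
      refine Finset.sum_congr rfl fun r _ => ?_
      split_ifs with h
      · rfl
      · exact (h4 r h).symm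
    rw [h3, Fintype.sum_prod_type, Finset.sum_eq_single v]
    · show _ = g p / ((p : ℝ) - c) * _
      rw [loc_C μ ξ p v hx hμ, Finset.mul_sum]
      refine Finset.sum_congr rfl fun w _ => ?_
      rw [hF]
      simp only
      by_cases hw : w ⬝ᵥ v = 0
      · rw [dif_pos hw, dif_pos hw, if_pos trivial]
      · rw [dif_neg hw, dif_neg hw, mul_zero]
    · intro v' _ hv'
      refine Finset.sum_eq_zero fun w _ => ?_
      rw [hF]
      simp only
      split_ifs <;> rfl
    · intro h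
      exact absurd (Finset.mem_univ _) h

lemma rhsX (μ : ι → ι → ℤ) (g : ℕ → ℝ) (c : ℕ) (ξ : Pr z y → Option (Vec ι))
    (l : Pr z y → Option (IX ι)) (h : ∀ p, fgX (l p) = ξ p) :
    (∏ i : IX ι, gp (fun p => g p / 2 ^ Fintype.card ι) c (Dl l i)) *
      Pool.Agent.W262.RK.Sym (LX ι) (κX μ) (Dl l) = ∏ p, GX μ g c ξ p (l p) := by
  rw [prod_gp1 (fun _ : IX ι => fun p => g p / 2 ^ Fintype.card ι), Sym_Dl,
    ← Finset.prod_mul_distrib, ← Finset.prod_mul_distrib]
  refine Finset.prod_congr rfl fun p _ => ?_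
  cases hl : l p with
  | none =>
    have h0 : ∀ q, Pool.Agent.W762.RK2.lk (LX ι) (l q) (none : Option (IX ι)) = false := by
      intro q
      cases l q <;> rfl
    simp [h0, GX]
  | some i =>
    have h2 : ∏ q : Pr z y, (if Pool.Agent.W762.RK2.lk (LX ι) (l q) (some i) = true then Jr (q : ℕ) p else 1) =
        ∏ q : Pr z y, if i.1.2 ⬝ᵥ vX ξ q = 1 then Jr (q : ℕ) p else 1 := by
      refine Finset.prod_congr rfl fun q _ => ?_
      refine if_congr ?_ rfl rfl
      cases hq : l q with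
      | none =>
        have h5 : vX ξ q = 0 := by
          rw [vX_p, ← h q, hq]
          rfl
        simp [Pool.Agent.W762.RK2.lk, h5]
      | some i' =>
        have h5 : vX ξ q = i'.1.1 := by
          rw [vX_p, ← h q, hq]
          rfl
        rw [h5]
        show decide (i.1.2 ⬝ᵥ i'.1.1 = 1) = true ↔ _
        exact decide_eq_true_iff
    rw [h2]
    simp only [GX, Option.elim]
    ring

/-- **the expansion** -/
theorem expn (μ : ι → ι → ℤ) (g : ℕ → ℝ) (c z y : ℕ)
    (hμ : ∀ p ∈ PS z y, ∀ a b, ¬ (p : ℤ) ∣ μ a b) :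
    ∑ s ∈ Tup Unit z y, GN μ (s ()) * ∏ j, gp g c (s j) =
      ∑ d ∈ Tup (IX ι) z y, (∏ i : IX ι, gp (fun p => g p / 2 ^ Fintype.card ι) c (d i)) *
        Pool.Agent.W262.RK.Sym (LX ι) (κX μ) d := by
  classical
  rw [lhsX, sum_Tup, ← Finset.sum_fiberwise univ
    (fun (l : Pr z y → Option (IX ι)) => fun p => fgX (l p))]
  refine Finset.sum_congr rfl fun ξ _ => ?_
  have h1 : (univ.filter fun l : Pr z y → Option (IX ι) => (fun p => fgX (l p)) = ξ) =
      Fintype.piFinset (fun p => univ.filter (fun x : Option (IX ι) => fgX x = ξ p)) := by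
    ext l
    simp only [Finset.mem_filter, Finset.mem_univ, true_and, Fintype.mem_piFinset, funext_iff]
  rw [h1, Finset.prod_congr rfl fun p _ => (sum_GX μ g c ξ p (hμ p p.2)).symm,
    Finset.prod_univ_sum]
  refine Finset.sum_congr rfl fun l hl => ?_
  rw [Fintype.mem_piFinset] at hl
  exact (rhsX μ g c ξ l fun p => (Finset.mem_filter.1 (hl p)).2).symm

end Pool.Agent.Y712
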