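import Pool.Agent.Y712.Coc
import Pool.Agent.W401.Cheb.Frob

/-!
# Selmer groups over quadratic extensions
-/

set_option autoImplicit false

namespace Pool.Agent.Y712

open NumberField Pool.Agent.W569.FM Matrix
open Pool.Agent.W401.Frob (tr mem_tr tr_max)

variable {n : ℕ}

/-- the crossed homomorphisms on `H` with the local conditions outside `2 N` -/
def ZS (N : ℕ) (H : Subgroup GQ) (A : GQ → Matrix (Fin n) (Fin n) ℚ_[2]) :
    Submodule ℚ_[2] (H → Fin n → ℚ_[2]) where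
  carrier := {f | Continuous f ∧ (∀ σ τ : H, f (σ * τ) = f σ + A σ *ᵥ f τ) ∧
    ∀ P : Ideal (OO ℚ), P.IsMaximal → ((2 * N : ℕ) : OO ℚ) ∉ P →
      ∃ v : Fin n → ℚ_[2], ∀ σ : H, (∀ x : OO ℚ, (σ : GQ) • x - x ∈ P) → f σ = A σ *ᵥ v - v}
  zero_mem' := by
    refine ⟨continuous_const, fun σ τ => ?_, fun P _ _ => ⟨0, fun σ _ => ?_⟩⟩
    · simp
    · simp
  add_mem' := by
    rintro f g ⟨h1, h2, h3⟩ ⟨h4, h5, h6⟩
    refine ⟨h1.add h4, fun σ τ => ?_, fun P hP hP2 => ?_⟩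
    · rw [Pi.add_apply, Pi.add_apply, Pi.add_apply, h2, h5, mulVec_add]
      abel
    · obtain ⟨v, hv⟩ := h3 P hP hP2
      obtain ⟨w, hw⟩ := h6 P hP hP2
      refine ⟨v + w, fun σ hσ => ?_⟩
      rw [Pi.add_apply, hv σ hσ, hw σ hσ, mulVec_add]
      abel
  smul_mem' := by
    rintro c f ⟨h1, h2, h3⟩
    refine ⟨h1.const_smul c, fun σ τ => ?_, fun P hP hP2 => ?_⟩
    · rw [Pi.smul_apply, Pi.smul_apply, Pi.smul_apply, h2, mulVec_smul, smul_add]
    · obtain ⟨v, hv⟩ := h3 P hP hP2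
      refine ⟨c • v, fun σ hσ => ?_⟩
      rw [Pi.smul_apply, hv σ hσ, mulVec_smul, smul_sub]

/-- the coboundaries -/
def BS (N : ℕ) (H : Subgroup GQ) (A : GQ → Matrix (Fin n) (Fin n) ℚ_[2]) :
    Submodule ℚ_[2] (ZS N H A) where
  carrier := {f | ∃ v : Fin n → ℚ_[2], ∀ σ : H, f.1 σ = A σ *ᵥ v - v}
  zero_mem' := ⟨0, fun σ => by simp⟩
  add_mem' := by
    rintro f g ⟨v, hv⟩ ⟨w, hw⟩
    refine ⟨v + w, fun σ => ?_⟩
    have : (f + g).1 σ = f.1 σ + g.1 σ := rfl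
    rw [this, hv, hw, mulVec_add]
    abel
  smul_mem' := by
    rintro c f ⟨v, hv⟩
    refine ⟨c • v, fun σ => ?_⟩
    have : (c • f).1 σ = c • f.1 σ := rfl
    rw [this, hv, mulVec_smul, smul_sub]

/-- the Selmer group -/
abbrev HS (N : ℕ) (H : Subgroup GQ) (A : GQ → Matrix (Fin n) (Fin n) ℚ_[2]) : Type :=
  ZS N H A ⧸ BS N H A

/-! ### Two-step extensions -/

section step

variable {N : ℕ} {H H' : Subgroup GQ} {A B : GQ → Matrix (Fin n) (Fin n) ℚ_[2]}

open Classical in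
/-- extension by zero -/
noncomputable def ez (f : H' → Fin n → ℚ_[2]) (g : GQ) : Fin n → ℚ_[2] :=
  if h : g ∈ H' then f ⟨g, h⟩ else 0

lemma ez_mem (f : H' → Fin n → ℚ_[2]) {g : GQ} (h : g ∈ H') : ez f g = f ⟨g, h⟩ := by
  unfold ez
  rw [dif_pos h]

lemma ez_not (f : H' → Fin n → ℚ_[2]) {g : GQ} (h : g ∉ H') : ez f g = 0 := by
  unfold ez
  rw [dif_neg h]

lemma ez_cont (hH : IsOpen (H' : Set GQ)) {f : H' → Fin n → ℚ_[2]} (hf : Continuous f) :
    Continuous (ez f) := by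
  classical
  have hcl : IsClopen (H' : Set GQ) := ⟨H'.isClosed_of_isOpen hH, hH⟩
  rw [← continuousOn_univ, ← Set.union_compl_self (H' : Set GQ)]
  have h1 : ContinuousOn (ez f) (H' : Set GQ) := by
    rw [continuousOn_iff_continuous_domRestrict]
    have : (H' : Set GQ).domRestrict (ez f) = f := by
      funext x
      exact ez_mem f x.2
    rw [this]
    exact hf
  have h2 : ContinuousOn (ez f) (H' : Set GQ)ᶜ := by
    refine continuousOn_const.congr (f := fun _ => 0) fun x hx => ?_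
    exact ez_not f hx
  exact h1.union_of_isOpen h2 hH hcl.compl.isOpen

/-- the transfer -/
noncomputable def tf (B : GQ → Matrix (Fin n) (Fin n) ℚ_[2]) (s : GQ) (f : H' → Fin n → ℚ_[2])
    (h : GQ) : Fin n → ℚ_[2] :=
  ez f h + ez f (h * s) + B s *ᵥ (ez f (s⁻¹ * h * s) + ez f (s⁻¹ * h))

/-- the index two situation -/
structure Two (H H' : Subgroup GQ) (s : GQ) : Prop where
  le : H' ≤ H
  mem : s ∈ H
  not : s ∉ H'
  mul : ∀ a ∈ H, ∀ b ∈ H, (a * b ∈ H' ↔ (a ∈ H' ↔ b ∈ H'))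

lemma Two.inv {s : GQ} (_t : Two H H' s) {a : GQ} : a⁻¹ ∈ H' ↔ a ∈ H' := H'.inv_mem_iff

lemma Two.sin {s : GQ} (t : Two H H' s) : s⁻¹ ∈ H := H.inv_mem t.mem

lemma Two.m1 {s : GQ} (t : Two H H' s) {h : GQ} (hh : h ∈ H) : h * s ∈ H' ↔ h ∉ H' := by
  rw [t.mul h hh s t.mem]
  have := t.not
  tauto

lemma Two.m2 {s : GQ} (t : Two H H' s) {h : GQ} (hh : h ∈ H) : s⁻¹ * h ∈ H' ↔ h ∉ H' := by
  rw [t.mul s⁻¹ t.sin h hh, t.inv]
  have := t.not
  tauto

lemma Two.m3 {s : GQ} (t : Two H H' s) {h : GQ} (hh : h ∈ H) : s⁻¹ * h * s ∈ H' ↔ h ∈ H' := by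
  rw [t.m1 (H.mul_mem t.sin hh), t.m2 hh]
  tauto

lemma tf_in {s : GQ} (t : Two H H' s) (f : H' → Fin n → ℚ_[2]) {h : GQ} (hh : h ∈ H')
    (hs : s⁻¹ * h * s ∈ H') :
    tf B s f h = f ⟨h, hh⟩ + B s *ᵥ f ⟨s⁻¹ * h * s, hs⟩ := by
  have hH := t.le hh
  unfold tf
  rw [ez_mem f hh, ez_not f (fun h' => (t.m1 hH).1 h' hh), ez_mem f hs,
    ez_not f (fun h' => (t.m2 hH).1 h' hh), add_zero, add_zero]

lemma tf_out {s : GQ} (t : Two H H' s) (f : H' → Fin n → ℚ_[2]) {h : GQ} (hH : h ∈ H)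
    (h1 : h * s ∈ H') (h2 : s⁻¹ * h ∈ H') :
    tf B s f h = f ⟨h * s, h1⟩ + B s *ᵥ f ⟨s⁻¹ * h, h2⟩ := by
  have hh : h ∉ H' := (t.m1 hH).1 h1
  unfold tf
  rw [ez_not f hh, ez_mem f h1, ez_not f (fun h' => hh ((t.m3 hH).1 h')), ez_mem f h2, zero_add,
    zero_add]

lemma coc_of {f : H' → Fin n → ℚ_[2]} (hf : ∀ σ τ : H', f (σ * τ) = f σ + B σ *ᵥ f τ)
    {a b c : GQ} (ha : a ∈ H') (hb : b ∈ H') (hc : c ∈ H') (h : c = a * b) :
    f ⟨c, hc⟩ = f ⟨a, ha⟩ + B a *ᵥ f ⟨b, hb⟩ := by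
  subst h
  exact hf ⟨a, ha⟩ ⟨b, hb⟩

/-- the transfer is a crossed homomorphism -/
lemma tf_coc {s : GQ} (t : Two H H' s) (hB : ∀ σ τ, B (σ * τ) = B σ * B τ)
    {f : H' → Fin n → ℚ_[2]} (hf : ∀ σ τ : H', f (σ * τ) = f σ + B σ *ᵥ f τ)
    {g h : GQ} (hg : g ∈ H) (hh : h ∈ H) : tf B s f (g * h) = tf B s f g + B g *ᵥ tf B s f h := by
  have hgh : g * h ∈ H := H.mul_mem hg hh
  by_cases g1 : g ∈ H' <;> by_cases h1 : h ∈ H'
  · have m : g * h ∈ H' := (t.mul g hg h hh).2 (by tauto)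
    have m1 := (t.m3 hg).2 g1
    have m2 := (t.m3 hh).2 h1
    have m3 := (t.m3 hgh).2 m
    rw [tf_in t f m m3, tf_in t f g1 m1, tf_in t f h1 m2, coc_of hf g1 h1 m rfl,
      coc_of hf m1 m2 m3 (by group), mulVec_add, mulVec_add, mulVec_mulVec, mulVec_mulVec, ← hB,
      ← hB]
    have e : s * (s⁻¹ * g * s) = g * s := by group
    rw [e]
    abel
  · have m : g * h ∉ H' := fun h' => by
      have := (t.mul g hg h hh).1 h'
      tauto
    have m1 := (t.m3 hg).2 g1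
    have a1 := (t.m1 hh).2 h1
    have a2 := (t.m2 hh).2 h1
    have b1 := (t.m1 hgh).2 m
    have b2 := (t.m2 hgh).2 m
    rw [tf_out t f hgh b1 b2, tf_in t f g1 m1, tf_out t f hh a1 a2,
      coc_of hf g1 a1 b1 (by group), coc_of hf m1 a2 b2 (by group), mulVec_add, mulVec_add,
      mulVec_mulVec, mulVec_mulVec, ← hB, ← hB]
    have e : s * (s⁻¹ * g * s) = g * s := by group
    rw [e]
    abel
  · have m : g * h ∉ H' := fun h' => by
      have := (t.mul g hg h hh).1 h'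
      tauto
    have m2 := (t.m3 hh).2 h1
    have a1 := (t.m1 hg).2 g1
    have a2 := (t.m2 hg).2 g1
    have b1 := (t.m1 hgh).2 m
    have b2 := (t.m2 hgh).2 m
    rw [tf_out t f hgh b1 b2, tf_out t f hg a1 a2, tf_in t f h1 m2,
      coc_of hf a1 m2 b1 (by group), coc_of hf a2 h1 b2 (by group), mulVec_add, mulVec_add,
      mulVec_mulVec, mulVec_mulVec, ← hB, ← hB]
    have e : s * (s⁻¹ * g) = g := by group
    rw [e]
    abel
  · have m : g * h ∈ H' := (t.mul g hg h hh).2 (by tauto)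
    have a1 := (t.m1 hg).2 g1
    have a2 := (t.m2 hg).2 g1
    have b1 := (t.m1 hh).2 h1
    have b2 := (t.m2 hh).2 h1
    have m3 := (t.m3 hgh).2 m
    rw [tf_in t f m m3, tf_out t f hg a1 a2, tf_out t f hh b1 b2,
      coc_of hf a1 b2 m (by group), coc_of hf a2 b1 m3 (by group), mulVec_add, mulVec_add,
      mulVec_mulVec, mulVec_mulVec, ← hB, ← hB]
    have e : s * (s⁻¹ * g) = g := by group
    rw [e]
    abel

/-- a crossed homomorphism on a subgroup `J` that is trivial on a subgroup of index two is a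
coboundary -/
lemma two_cob {c : GQ → Fin n → ℚ_[2]} {J : Subgroup GQ}
    (hc : ∀ g ∈ J, ∀ h ∈ J, c (g * h) = c g + B g *ᵥ c h) (hB : ∀ σ τ, B (σ * τ) = B σ * B τ)
    (hJ : ∀ a ∈ J, ∀ b ∈ J, (a * b ∈ H' ↔ (a ∈ H' ↔ b ∈ H')))
    (h0 : ∀ h ∈ J, h ∈ H' → c h = 0) : ∃ w, ∀ h ∈ J, c h = B h *ᵥ w - w := by
  by_cases hall : ∀ h ∈ J, h ∈ H'
  · refine ⟨0, fun h hh => ?_⟩
    rw [h0 h hh (hall h hh), mulVec_zero, sub_zero]
  push Not at hall
  obtain ⟨g, hg, hg'⟩ := hall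
  have hgi : g⁻¹ ∈ J := J.inv_mem hg
  have hgi' : g⁻¹ ∉ H' := fun h => hg' (H'.inv_mem_iff.1 h)
  set w := c g with hw
  -- elements outside
  have h1 : ∀ h ∈ J, h ∉ H' → c h = w := by
    intro h hh hh'
    have m1 : g⁻¹ * h ∈ J := J.mul_mem hgi hh
    have m2 : g⁻¹ * h ∈ H' := (hJ _ hgi _ hh).2 (by tauto)
    have e := hc g hg _ m1
    rw [mul_inv_cancel_left, h0 _ m1 m2, mulVec_zero, add_zero] at e
    exact e
  -- elements inside
  have h2 : ∀ h ∈ J, h ∈ H' → B h *ᵥ w = w := by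
    intro h hh hh'
    have m1 : h * g ∈ J := J.mul_mem hh hg
    have m2 : h * g ∉ H' := fun h' => by
      have := (hJ _ hh _ hg).1 h'
      tauto
    have e := hc h hh g hg
    rw [h1 _ m1 m2, h0 h hh hh', zero_add] at e
    exact e.symm
  have h3 : B g *ᵥ w = -w := by
    have m1 : g * g ∈ J := J.mul_mem hg hg
    have m2 : g * g ∈ H' := (hJ _ hg _ hg).2 (by tauto)
    have e := hc g hg g hg
    rw [h0 _ m1 m2] at e
    exact eq_neg_of_add_eq_zero_right e.symm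
  have h4 : ∀ h ∈ J, h ∉ H' → B h *ᵥ w = -w := by
    intro h hh hh'
    have m1 : g⁻¹ * h ∈ J := J.mul_mem hgi hh
    have m2 : g⁻¹ * h ∈ H' := (hJ _ hgi _ hh).2 (by tauto)
    have e : h = g * (g⁻¹ * h) := by group
    rw [e, hB, ← mulVec_mulVec, h2 _ m1 m2, h3]
  refine ⟨(-(1 / 2) : ℚ_[2]) • w, fun h hh => ?_⟩
  rw [mulVec_smul]
  by_cases hh' : h ∈ H'
  · rw [h0 h hh hh', h2 h hh hh', sub_self]
  · rw [h1 h hh hh', h4 h hh hh']
    funext i
    simp only [Pi.sub_apply, Pi.smul_apply, Pi.neg_apply, smul_eq_mul]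
    ring

/-- the inertia group -/
def IP (P : Ideal (OO ℚ)) : Subgroup GQ where
  carrier := {σ | InInertia P σ}
  one_mem' := inertia_one P
  mul_mem' := by
    intro a b ha hb x
    have h1 : (a * b) • x - x = (a • (b • x) - b • x) + (b • x - x) := by
      rw [mul_smul]
      ring
    rw [h1]
    exact P.add_mem (ha _) (hb _)
  inv_mem' := by
    intro a ha x
    have h1 := ha (a⁻¹ • x)
    rw [smul_inv_smul] at h1
    have h2 : a⁻¹ • x - x = -(x - a⁻¹ • x) := by ring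
    rw [h2]
    exact P.neg_mem h1

/-- the transfer of a Selmer crossed homomorphism -/
lemma tf_mem {s : GQ} (t : Two H H' s) (hB : ∀ σ τ, B (σ * τ) = B σ * B τ)
    (hAB : ∀ σ ∈ H', A σ = B σ) (hop : IsOpen (H' : Set GQ)) {f : H' → Fin n → ℚ_[2]}
    (hf : f ∈ ZS N H' A) : (fun h : H => tf B s f h) ∈ ZS N H B := by
  obtain ⟨h1, h2, h3⟩ := hf
  have h2' : ∀ σ τ : H', f (σ * τ) = f σ + B σ *ᵥ f τ := by
    intro σ τ
    rw [h2, hAB σ σ.2]
  refine ⟨?_, fun σ τ => tf_coc t hB h2' σ.2 τ.2, fun P hP hP2 => ?_⟩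
  · have hc := ez_cont hop h1
    have hc2 : Continuous (tf B s f) := by
      unfold tf
      refine Continuous.add (Continuous.add hc (hc.comp (continuous_mul_const s))) ?_
      refine Continuous.matrix_mulVec continuous_const ?_
      refine Continuous.add (hc.comp ?_) (hc.comp (continuous_const_mul s⁻¹))
      exact (continuous_mul_const s).comp (continuous_const_mul s⁻¹)
    exact hc2.comp continuous_subtype_val
  · obtain ⟨v, hv⟩ := h3 P hP hP2
    have hP' : (tr s⁻¹ P).IsMaximal := tr_max s⁻¹ P hP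
    have hmem : ∀ x : OO ℚ, x ∈ tr s⁻¹ P ↔ s • x ∈ P := by
      intro x
      rw [mem_tr, inv_inv]
    have hP2' : ((2 * N : ℕ) : OO ℚ) ∉ tr s⁻¹ P := by
      rw [hmem]
      have h5 : s • ((2 * N : ℕ) : OO ℚ) = ((2 * N : ℕ) : OO ℚ) := by
        have := map_natCast (MulSemiringAction.toRingHom GQ (OO ℚ) s) (2 * N)
        exact this
      rw [h5]
      exact hP2
    obtain ⟨v', hv'⟩ := h3 _ hP' hP2'
    set u := v + B s *ᵥ v' with hu
    set J : Subgroup GQ := H ⊓ IP P with hJ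
    have key := two_cob (B := B) (H' := H') (c := fun h => tf B s f h - (B h *ᵥ u - u)) (J := J)
      (by
        intro g hg h hh
        rw [tf_coc t hB h2' hg.1 hh.1, hB, ← mulVec_mulVec]
        simp only [mulVec_sub]
        abel) hB (fun a ha b hb => t.mul a ha.1 b hb.1) (by
        intro h hh hh'
        have m := (t.m3 hh.1).2 hh'
        rw [tf_in t f hh' m, hv ⟨h, hh'⟩ hh.2]
        have hin : ∀ x : OO ℚ, ((⟨s⁻¹ * h * s, m⟩ : H') : GQ) • x - x ∈ tr s⁻¹ P := by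
          intro x
          rw [hmem, smul_sub]
          have h6 : s • (((⟨s⁻¹ * h * s, m⟩ : H') : GQ) • x) = h • (s • x) := by
            show s • ((s⁻¹ * h * s) • x) = h • (s • x)
            rw [smul_smul, smul_smul]
            congr 1
            group
          rw [h6]
          exact hh.2 (s • x)
        rw [hv' ⟨s⁻¹ * h * s, m⟩ hin]
        have e1 : A ((⟨h, hh'⟩ : H') : GQ) = B h := hAB h hh'
        have e2 : A ((⟨s⁻¹ * h * s, m⟩ : H') : GQ) = B (s⁻¹ * h * s) := hAB _ m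
        rw [e1, e2, hu]
        simp only [mulVec_sub, mulVec_add, mulVec_mulVec]
        rw [← hB, ← hB]
        have e : s * (s⁻¹ * h * s) = h * s := by group
        rw [e]
        abel)
    obtain ⟨w, hw⟩ := key
    refine ⟨u + w, fun σ hσ => ?_⟩
    have h7 := hw σ ⟨σ.2, hσ⟩
    show tf B s f σ = _
    rw [mulVec_add]
    have h8 : tf B s f σ = (B σ *ᵥ w - w) + (B σ *ᵥ u - u) := by
      rw [← h7]
      abel
    rw [h8]
    abel

/-- the transfer as a linear map -/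
noncomputable def tfl {s : GQ} (t : Two H H' s) (hB : ∀ σ τ, B (σ * τ) = B σ * B τ)
    (hAB : ∀ σ ∈ H', A σ = B σ) (hop : IsOpen (H' : Set GQ)) :
    ZS N H' A →ₗ[ℚ_[2]] ZS N H B where
  toFun f := ⟨fun h : H => tf B s f.1 h, tf_mem t hB hAB hop f.2⟩
  map_add' := by
    intro f g
    apply Subtype.ext
    funext h
    have e : ∀ x : GQ, ez (f + g).1 x = ez f.1 x + ez g.1 x := by
      intro x
      by_cases hx : x ∈ H'
      · rw [ez_mem _ hx, ez_mem _ hx, ez_mem _ hx]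
        rfl
      · rw [ez_not _ hx, ez_not _ hx, ez_not _ hx, add_zero]
    show tf B s (f + g).1 h = tf B s f.1 h + tf B s g.1 h
    unfold tf
    simp only [e, mulVec_add]
    abel
  map_smul' := by
    intro c f
    apply Subtype.ext
    funext h
    have e : ∀ x : GQ, ez (c • f).1 x = c • ez f.1 x := by
      intro x
      by_cases hx : x ∈ H'
      · rw [ez_mem _ hx, ez_mem _ hx]
        rfl
      · rw [ez_not _ hx, ez_not _ hx, smul_zero]
    show tf B s (c • f).1 h = c • tf B s f.1 h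
    unfold tf
    simp only [e, mulVec_add, mulVec_smul, smul_add]

end step

/-- **the Selmer group over a quadratic extension** -/
theorem quad_step {N : ℕ} {H H' : Subgroup GQ} {A B : GQ → Matrix (Fin n) (Fin n) ℚ_[2]} {s : GQ}
    (t : Two H H' s) (hA : ∀ σ τ, A (σ * τ) = A σ * A τ) (hB : ∀ σ τ, B (σ * τ) = B σ * B τ)
    (hAB : ∀ σ ∈ H', A σ = B σ) (hs : B s = - A s) (hop : IsOpen (H' : Set GQ))
    (hfA : FiniteDimensional ℚ_[2] (HS N H A)) (hfB : FiniteDimensional ℚ_[2] (HS N H B)) :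
    FiniteDimensional ℚ_[2] (HS N H' A) ∧
      Module.finrank ℚ_[2] (HS N H' A) ≤
        Module.finrank ℚ_[2] (HS N H A) + Module.finrank ℚ_[2] (HS N H B) := by
  let Φ : ZS N H' A →ₗ[ℚ_[2]] (HS N H A) × (HS N H B) :=
    ((BS N H A).mkQ.comp (tfl t hA (fun _ _ => rfl) hop)).prod
      ((BS N H B).mkQ.comp (tfl t hB hAB hop))
  have hker : LinearMap.ker Φ ≤ BS N H' A := by
    intro f hf
    rw [LinearMap.mem_ker, LinearMap.prod_apply, Prod.mk_eq_zero] at hf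
    obtain ⟨h1, h2⟩ := hf
    have h1' : tfl t hA (fun _ _ => rfl) hop f ∈ BS N H A :=
      (Submodule.Quotient.mk_eq_zero (BS N H A)).1 h1
    have h2' : tfl t hB hAB hop f ∈ BS N H B := (Submodule.Quotient.mk_eq_zero (BS N H B)).1 h2
    obtain ⟨v, hv⟩ := h1'
    obtain ⟨w, hw⟩ := h2'
    refine ⟨(1 / 2 : ℚ_[2]) • (v + w), fun σ => ?_⟩
    have hσH : (σ : GQ) ∈ H := t.le σ.2
    have m := (t.m3 hσH).2 σ.2
    have e1 : tf A s f.1 σ = A σ *ᵥ v - v := hv ⟨σ, hσH⟩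
    have e2 : tf B s f.1 σ = B σ *ᵥ w - w := hw ⟨σ, hσH⟩
    rw [tf_in t f.1 σ.2 m] at e1 e2
    rw [hs, neg_mulVec, ← hAB σ σ.2] at e2
    have e3 : (2 : ℚ_[2]) • f.1 σ = A σ *ᵥ (v + w) - (v + w) := by
      rw [mulVec_add, two_smul]
      have e4 : f.1 σ + f.1 σ = (A σ *ᵥ v - v) + (A σ *ᵥ w - w) := by
        rw [← e1, ← e2]
        abel
      rw [e4]
      abel
    rw [mulVec_smul, ← smul_sub, ← e3, smul_smul]
    norm_num
  have hfr : FiniteDimensional ℚ_[2] (ZS N H' A ⧸ LinearMap.ker Φ) :=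
    LinearEquiv.finiteDimensional (LinearMap.quotKerEquivRange Φ).symm
  let Ψ : (ZS N H' A ⧸ LinearMap.ker Φ) →ₗ[ℚ_[2]] HS N H' A := Submodule.factor hker
  have hΨ : Function.Surjective Ψ := Submodule.factor_surjective hker
  refine ⟨Module.Finite.of_surjective Ψ hΨ, ?_⟩
  calc Module.finrank ℚ_[2] (HS N H' A) ≤ Module.finrank ℚ_[2] (ZS N H' A ⧸ LinearMap.ker Φ) :=
        LinearMap.finrank_le_finrank_of_surjective hΨ
    _ = Module.finrank ℚ_[2] (LinearMap.range Φ) :=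
        LinearEquiv.finrank_eq (LinearMap.quotKerEquivRange Φ)
    _ ≤ Module.finrank ℚ_[2] ((HS N H A) × (HS N H B)) := Submodule.finrank_le _
    _ = _ := Module.finrank_prod

end Pool.Agent.Y712
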