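import Pool.Agent.Y712.Avg
import Pool.Agent.Y712.Bnd
import Pool.Agent.TH841.PT.Fact8
import Pool.Agent.TH841.PT.Twp8
import Pool.Agent.TH841.PT.LAD
import Pool.Agent.TH841.PT.M2AG
import Pool.Agent.TH841.PT.M2BG
import Pool.Agent.TH841.PT.M2CG
import Pool.Agent.TH841.PT.M3
import Pool.Agent.TH841.PT.M3G
import Pool.Agent.TH841.PT.TWG
import Pool.Agent.TH841.PT.GDP
import Pool.Agent.TH841.PT.LWP
import Pool.Agent.TH841.PT.CNTP
import Pool.Agent.TH841.PT.SVP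
import Pool.Agent.TH841.PT.RVU
import Pool.Agent.TH841.PT.ATG
import Pool.Agent.TH841.PT.ANTX
import Pool.Agent.TH841.PT.RSP
import Pool.Agent.TH841.PT.EFG
import Pool.Agent.TH841.PT.Fac
import Pool.Agent.W37.RK.BL2
import Pool.Agent.W505.RK.LS
import Pool.Agent.W655.RK.Blw
import Pool.Agent.W358.RK2.GR

/-!
# The moments for the twists over the rational numbers
-/

set_option autoImplicit false

namespace Pool.Agent.Y712

open Finset Polynomial Pool.Agent.W262.RK Pool.Agent.W307.RT Pool.Agent.W307.RS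
  Pool.Agent.TH841.PT

theorem twg1 : TWG :=
  TWGf.twg_of (M2CGf.m2g_of (M2BGf.m2mg_of (M2AGf.m2ag_of LADf.lad))) (M3Gf.m3g_of M3f.m3)

theorem fact1 : FACT := fact8 GDPf.gdp

theorem twp1 : TWP := twp_of_twg fact1 twg1

theorem blw1 : BLW := Pool.Agent.W655.RK.blw_of (_root_.W37.RK.bl_of Pool.Agent.W505.RK.ls)

theorem atg1 : ATG := ATG.atg_of blw1 EFG.epg EFG.fullg

theorem antx1 : ANTX := ANTXf.antx_of Pool.Agent.W358.RK2.gr

variable {n : ℕ} {N : ℕ}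

/-- the number of the solutions -/
noncomputable def re (N : ℕ) (μ : Fin n → Fin n → ℤ) (d : ℤ) : ℝ := (ER N μ d).ncard

lemma re_nonneg (μ : Fin n → Fin n → ℤ) (d : ℤ) : 0 ≤ re N μ d := Nat.cast_nonneg _

lemma one_le_re (hN : N ≠ 0) (μ : Fin n → Fin n → ℤ) {d : ℤ} (hd : d ≠ 0) : 1 ≤ re N μ d := by
  have := one_le_ER hN μ hd
  unfold re
  exact_mod_cast this

/-- the hypothesis for the powers -/
theorem rb_re (hN : N ≠ 0) (μ : Fin n → Fin n → ℤ) (m : ℕ) :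
    RB (fun d => re N μ d ^ m) (blk m μ) (2 + N) := by
  refine ⟨fun z => 2 ^ ((1 + z) * (n * m)), fun z => by positivity, fun B =>
    ⟨2 ^ (B * (n * m)), one_le_pow₀ (by norm_num), fun z y X k d hz hd hb hX hy hk => ?_⟩⟩
  obtain ⟨_, h1⟩ := card_ER hN μ z y (by omega) (by omega) d hd
  have h2 := card_Pb z y X k B d hd hb hk
  set w := (S2 z y (fun _ : Unit => d) ()).primeFactors.card with hw
  set T := (S1 z y (fun _ : Unit => d) ()).primeFactors with hT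
  set E := ngs d (S1 z y (fun _ : Unit => d) ()) with hE
  have h3 : (re N μ d) ^ m ≤ ((2 ^ (1 + (z + w + k * B))) ^ n * (NS μ T E : ℝ)) ^ m := by
    refine pow_le_pow_left₀ (re_nonneg μ d) ?_ m
    have h4 : re N μ d ≤ (2 ^ (1 + (Pb z y d).card)) ^ n * (NS μ T E : ℝ) := by
      unfold re
      exact_mod_cast h1
    refine h4.trans (mul_le_mul_of_nonneg_right ?_ (Nat.cast_nonneg _))
    refine pow_le_pow_left₀ (by positivity) ?_ n
    exact pow_le_pow_right₀ (by norm_num) (by omega)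
  refine h3.trans (le_of_eq ?_)
  have h5 : (NS (blk m μ) T E : ℝ) = (NS μ T E : ℝ) ^ m := by
    rw [NS_blk]
    push_cast
    rfl
  have h6 : Fintype.card (Fin m × Fin n) = m * n := by
    rw [Fintype.card_prod, Fintype.card_fin, Fintype.card_fin]
  show _ = 2 ^ ((1 + z) * (n * m)) * (2 ^ (B * (n * m))) ^ k * (2 ^ Fintype.card (Fin m × Fin n)) ^ w
    * (NS (blk m μ) T E : ℝ)
  rw [h5, h6, mul_pow, ← pow_mul, ← pow_mul, ← pow_mul, ← pow_mul, ← pow_add, ← pow_add]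
  congr 2
  ring

lemma to_Ioc1 (g : ℤ → ℝ) (hg : ∀ t, 0 ≤ g t) (P : ℤ → Prop) [DecidablePred P] (N : ℤ) (M : ℕ) :
    ∑ t ∈ (Ioc N (N + M)).filter P, g t ≤
      ∑ t ∈ (Icc 1 M).filter (fun t : ℕ => P (N + (t : ℤ))), g (N + (t : ℤ)) := by
  have hinj : Set.InjOn (fun t : ℕ => N + (t : ℤ)) ((Icc 1 M).filter
      (fun t : ℕ => P (N + (t : ℤ))) : Set ℕ) := by
    intro a _ b _ hab
    have : N + (a : ℤ) = N + (b : ℤ) := hab
    omega
  have hsum : ∑ t ∈ (Icc 1 M).filter (fun t : ℕ => P (N + (t : ℤ))),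
      g (N + (t : ℤ)) = ∑ t ∈ ((Icc 1 M).filter
        (fun t : ℕ => P (N + (t : ℤ)))).image (fun t : ℕ => N + (t : ℤ)), g t :=
    (sum_image hinj).symm
  rw [hsum]
  refine sum_le_sum_of_subset_of_nonneg ?_ (fun t _ _ => hg t)
  intro t ht
  rw [mem_filter, mem_Ioc] at ht
  obtain ⟨⟨ht1, ht2⟩, ht3⟩ := ht
  rw [mem_image]
  have h5 : N + (((t - N).toNat : ℕ) : ℤ) = t := by omega
  refine ⟨(t - N).toNat, ?_, h5⟩
  rw [mem_filter, mem_Icc, h5]
  exact ⟨by omega, ht3⟩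

lemma card_filt (N : ℤ) (M : ℕ) (P : ℤ → Prop) [DecidablePred P] :
    (((Ioc N (N + M)).filter P).card : ℝ) ≤ M := by
  have := card_filter_le (Ioc N (N + M)) P
  rw [Int.card_Ioc] at this
  exact_mod_cast this.trans (by omega)

/-- the matrices that occur -/
def Adm (N : ℕ) (μ : Fin n → Fin n → ℤ) : Prop := (∀ i j, Squarefree (μ i j)) ∧
  ∀ p : ℕ, p.Prime → p ≠ 2 → ¬ p ∣ N → ∀ i j, ¬ (p : ℤ) ∣ μ i j

/-- the moments, squarefree polynomials -/
theorem mom_sq (hN : N ≠ 0) {μ : Fin n → Fin n → ℤ} (hμ : Adm N μ) (D : ℤ[X])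
    (hD : Squarefree (D.map (Int.castRingHom ℚ))) (k L : ℕ) :
    ∃ C : ℝ, ∀ (N' : ℤ) (M : ℕ), 1 ≤ M → N'.natAbs ≤ M ^ L →
      ∑ t ∈ (Ioc N' (N' + M)).filter (fun t => D.eval t ≠ 0), re N μ (D.eval t) ^ k ≤ C * M := by
  classical
  rcases Nat.eq_zero_or_pos n with hn | hn
  · subst hn
    refine ⟨1, fun N' M _ _ => ?_⟩
    have h1 : ∀ d, re N μ d ≤ 1 := by
      intro d
      unfold re
      have : (ER N μ d).ncard ≤ 1 := by
        rw [Set.ncard_le_one]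
        intro a _ b _
        funext i
        exact i.elim0
      exact_mod_cast this
    refine (sum_le_sum (g := fun _ => (1 : ℝ)) fun t _ =>
      pow_le_one₀ (re_nonneg μ _) (h1 _)).trans ?_
    rw [sum_const, nsmul_eq_mul, mul_one, one_mul]
    exact card_filt N' M _
  by_cases hd : 0 < D.natDegree
  · set m := k + 2 * D.natDegree with hm
    have hm2 : 2 * D.natDegree ≤ 2 ^ Fintype.card (Fin m × Fin n) := by
      rw [Fintype.card_prod, Fintype.card_fin, Fintype.card_fin]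
      have h1 : m < 2 ^ m := Nat.lt_pow_self (by norm_num)
      have h2 : 2 ^ m ≤ 2 ^ (m * n) := Nat.pow_le_pow_right (by norm_num)
        (Nat.le_mul_of_pos_right m hn)
      omega
    have hne : ∀ a b, blk m μ a b ≠ 0 := by
      intro a b
      unfold blk
      split_ifs
      · exact (hμ.1 _ _).ne_zero
      · exact one_ne_zero
    have hnd : ∀ p : ℕ, p.Prime → 2 + N < p → ∀ a b, ¬ (p : ℤ) ∣ blk m μ a b := by
      intro p hp hpN a b
      unfold blk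
      split_ifs
      · refine hμ.2 p hp (by omega) ?_ _ _
        intro h'
        have := Nat.le_of_dvd (Nat.pos_of_ne_zero hN) h'
        omega
      · intro h'
        have h1 := Int.le_of_dvd (by norm_num) h'
        have := hp.two_le
        omega
    obtain ⟨C, hC⟩ := avgx (Rf := fun d => re N μ d ^ m)
      (fun d => pow_nonneg (re_nonneg μ d) _)
      (CNTPf.cntp_of SVPf.svp) antx1 RSPf.rsp RVU.rvp RVU.rup atg1 (LWPf.lwp_of fact1) twp1
      GDPf.gdp (blk m μ) hne (2 + N) (rb_re hN μ m) hnd D L hD hd hm2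
    refine ⟨C, fun N' M hM hN' => ?_⟩
    have h1 := to_Ioc1 (fun t => re N μ (D.eval t) ^ m)
      (fun t => pow_nonneg (re_nonneg μ _) _)
      (fun t => D.eval t ≠ 0) N' M
    refine (sum_le_sum fun t ht => ?_).trans (h1.trans ?_)
    · exact pow_le_pow_right₀ (one_le_re hN μ (mem_filter.1 ht).2) (by omega)
    · convert hC N' M hM hN'
  · obtain ⟨c, hc⟩ : ∃ c : ℤ, D = C c :=
      ⟨D.coeff 0, Polynomial.eq_C_of_natDegree_eq_zero (by omega)⟩
    refine ⟨re N μ c ^ k, fun N' M hM hN' => ?_⟩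
    have h0 : 0 ≤ re N μ c ^ k := pow_nonneg (re_nonneg μ _) _
    calc ∑ t ∈ (Ioc N' (N' + M)).filter (fun t => D.eval t ≠ 0), re N μ (D.eval t) ^ k
        = ((Ioc N' (N' + M)).filter (fun t => D.eval t ≠ 0)).card * re N μ c ^ k := by
          rw [hc]
          simp only [eval_C]
          rw [sum_const, nsmul_eq_mul]
      _ ≤ M * re N μ c ^ k := mul_le_mul_of_nonneg_right (card_filt N' M _) h0
      _ = _ := mul_comm _ _

open Classical in
/-- the finite set of the matrices that occur -/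
noncomputable def MMs (n N : ℕ) : Finset (Fin n → Fin n → ℤ) :=
  (Fintype.piFinset (fun _ : Fin n => Fintype.piFinset fun _ : Fin n =>
    AS (range (2 + N + 1)))).filter (Adm N)

lemma mem_MMs (hN : N ≠ 0) {μ : Fin n → Fin n → ℤ} (hμ : Adm N μ) : μ ∈ MMs n N := by
  classical
  unfold MMs
  rw [mem_filter, Fintype.mem_piFinset]
  refine ⟨fun i => ?_, hμ⟩
  rw [Fintype.mem_piFinset]
  refine fun j => mem_AS (hμ.1 i j) fun p hp hpd => ?_
  rw [mem_range]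
  by_contra hcon
  push Not at hcon
  refine hμ.2 p hp (by omega) (fun h' => ?_) i j hpd
  have := Nat.le_of_dvd (Nat.pos_of_ne_zero hN) h'
  omega

/-- **the majorant** for the values of a polynomial -/
theorem mom_maj (n : ℕ) (hN : N ≠ 0) (D : ℤ[X]) (hD : D ≠ 0) (k L : ℕ) :
    ∃ F : ℤ → ℝ, (∀ t, 0 ≤ F t) ∧ (∃ C : ℝ, ∀ (N' : ℤ) (M : ℕ), 1 ≤ M → N'.natAbs ≤ M ^ L →
      ∑ t ∈ (Ioc N' (N' + M)).filter (fun t => D.eval t ≠ 0), F t ≤ C * M) ∧
      ∀ t, D.eval t ≠ 0 → ∃ d b : ℤ, d ≠ 0 ∧ b ≠ 0 ∧ D.eval t = d * b ^ 2 ∧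
        ∀ μ : Fin n → Fin n → ℤ, Adm N μ → re N μ d ^ k ≤ F t := by
  classical
  obtain ⟨D₁, D₂, hfac, hsq⟩ := exists_fac D hD
  have hev : ∀ t, D.eval t = D₁.eval t * D₂.eval t ^ 2 := by
    intro t
    rw [hfac, eval_mul, eval_pow]
  have hF0 : ∀ t, 0 ≤ ∑ μ ∈ MMs n N, re N μ (D₁.eval t) ^ k := fun t =>
    sum_nonneg fun μ _ => pow_nonneg (re_nonneg μ _) _
  refine ⟨fun t => ∑ μ ∈ MMs n N, re N μ (D₁.eval t) ^ k, hF0, ?_, fun t ht => ?_⟩
  · have h1 : ∀ μ : Fin n → Fin n → ℤ, μ ∈ MMs n N → ∃ C : ℝ, ∀ (N' : ℤ) (M : ℕ), 1 ≤ M →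
        N'.natAbs ≤ M ^ L → ∑ t ∈ (Ioc N' (N' + M)).filter (fun t => D₁.eval t ≠ 0),
          re N μ (D₁.eval t) ^ k ≤ C * M := fun μ hμ =>
      mom_sq hN (mem_filter.1 hμ).2 D₁ hsq k L
    choose! C hC using h1
    refine ⟨∑ μ ∈ MMs n N, C μ, fun N' M hM hN' => ?_⟩
    have h2 : ∑ t ∈ (Ioc N' (N' + M)).filter (fun t => D.eval t ≠ 0),
        ∑ μ ∈ MMs n N, re N μ (D₁.eval t) ^ k ≤
        ∑ t ∈ (Ioc N' (N' + M)).filter (fun t => D₁.eval t ≠ 0),
        ∑ μ ∈ MMs n N, re N μ (D₁.eval t) ^ k := by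
      refine sum_le_sum_of_subset_of_nonneg ?_ fun t _ _ => hF0 t
      intro t ht
      rw [mem_filter] at ht ⊢
      refine ⟨ht.1, fun h0 => ht.2 ?_⟩
      rw [hev, h0, zero_mul]
    refine h2.trans ?_
    rw [sum_comm, sum_mul]
    exact sum_le_sum fun μ hμ => hC μ hμ N' M hM hN'
  · rw [hev] at ht
    have h1 := left_ne_zero_of_mul ht
    have h2 : D₂.eval t ≠ 0 := by
      intro h3
      apply right_ne_zero_of_mul ht
      rw [h3]
      norm_num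
    refine ⟨D₁.eval t, D₂.eval t, h1, h2, hev t, fun μ hμ => ?_⟩
    exact single_le_sum (f := fun μ => re N μ (D₁.eval t) ^ k)
      (fun μ _ => pow_nonneg (re_nonneg μ _) _) (mem_MMs hN hμ)

variable {ρ : GQ → Matrix (Fin n) (Fin n) ℤ_[2]}

/-- the order of the space of crossed homomorphisms, in exponential form -/
noncomputable def rr (N : ℕ) (ρ : GQ → Matrix (Fin n) (Fin n) ℤ_[2]) (d : ℤ) : ℝ :=
  2 ^ Module.finrank ℚ_[2] (ZY N (Tw ρ d))

lemma one_le_rr (d : ℤ) : 1 ≤ rr N ρ d := one_le_pow₀ (by norm_num)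

lemma adm_of (h : Good ρ N) {μ : Fin n → Fin n → ℤ} (hμ : ∀ i j, Squarefree (μ i j))
    (hμ2 : ∀ σ i j, rd (Mb ρ σ i j) = qz (μ i j) σ) : Adm N μ :=
  ⟨hμ, fun _ hp hp2 hpN i j => mu_unr h hμ hμ2 hp hp2 hpN i j⟩

lemma rr_sq {a b : ℤ} (ha : a ≠ 0) (hb : b ≠ 0) : rr N ρ (a * b ^ 2) = rr N ρ a := by
  have : Tw ρ (a * b ^ 2) = Tw ρ a := by
    funext σ
    unfold Tw
    rw [qc_sq ha hb]
  unfold rr
  rw [this]

/-- **the moments for the twists by the values of a polynomial** -/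
theorem mom_one (n : ℕ) (hN : N ≠ 0) (D : ℤ[X]) (hD : D ≠ 0) (k L : ℕ) :
    ∃ F : ℤ → ℝ, (∀ t, 0 ≤ F t) ∧ (∃ C : ℝ, ∀ (N' : ℤ) (M : ℕ), 1 ≤ M → N'.natAbs ≤ M ^ L →
      ∑ t ∈ (Ioc N' (N' + M)).filter (fun t => D.eval t ≠ 0), F t ≤ C * M) ∧
      ∀ t, D.eval t ≠ 0 → ∀ ρ : GQ → Matrix (Fin n) (Fin n) ℤ_[2], Good ρ N →
        rr N ρ (D.eval t) ^ k ≤ F t := by
  obtain ⟨F, hF0, hF1, hF2⟩ := mom_maj n hN D hD k L
  refine ⟨F, hF0, hF1, fun t ht ρ h => ?_⟩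
  obtain ⟨d, b, hd, hb, hdb, hF3⟩ := hF2 t ht
  obtain ⟨μ, hμ, hμ2⟩ := exists_mu h
  rw [hdb, rr_sq hd hb]
  refine le_trans ?_ (hF3 μ (adm_of h hμ hμ2))
  refine pow_le_pow_left₀ (by linarith [one_le_rr (N := N) (ρ := ρ) d]) ?_ k
  have := (bound_ER h hμ hμ2 hd).2
  unfold rr re
  exact_mod_cast this

end Pool.Agent.Y712
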