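import Pool.Agent.Y712.Main

/-!
# The final form
-/

set_option autoImplicit false

namespace Pool.Agent.Y712

open Finset Polynomial NumberField Pool.Agent.W569.FM Matrix

/-- the common kernel of the quadratic characters as the group of a multiquadratic field -/
lemma fix_eq {s : ℕ} (e : Fin s → ℤ) (he : ∀ i, e i ≠ 0) :
    (IntermediateField.adjoin ℚ
      {x : AlgebraicClosure ℚ | ∃ i, x ^ 2 = (e i : AlgebraicClosure ℚ)}).fixingSubgroup =
      (HJ e he univ : Subgroup Gal(AlgebraicClosure ℚ/ℚ)) := by
  ext σ
  have key : (σ ∈ (HJ e he univ : Subgroup Gal(AlgebraicClosure ℚ/ℚ))) ↔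
      ∀ i ∈ (univ : Finset (Fin s)), qc (e i) σ = 1 := Iff.rfl
  have hval : ∀ (i : Fin s) (r : AlgebraicClosure ℚ), r ^ 2 = (e i : AlgebraicClosure ℚ) →
      σ r = (qc (e i) σ : AlgebraicClosure ℚ) * r := fun i r hr => qc_eq hr σ
  refine Iff.trans ?_ key.symm
  constructor
  · intro h i _
    obtain ⟨r, hr⟩ := exists_root (e i)
    have h1 : σ r = r := by
      rw [IntermediateField.mem_fixingSubgroup_iff] at h
      exact h r (IntermediateField.subset_adjoin ℚ _ ⟨i, hr⟩)
    have h3 : r = (qc (e i) σ : AlgebraicClosure ℚ) * r := h1.symm.trans (hval i r hr)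
    apply int_of_mul_eq (root_ne (he i) hr)
    refine h3.symm.trans ?_
    simp
  · intro h
    rw [IntermediateField.mem_fixingSubgroup_iff]
    have h1 : IntermediateField.adjoin ℚ
        {x : AlgebraicClosure ℚ | ∃ i, x ^ 2 = (e i : AlgebraicClosure ℚ)} ≤
        IntermediateField.fixedField (Subgroup.zpowers σ) := by
      rw [IntermediateField.adjoin_le_iff]
      rintro x ⟨i, hx⟩
      rw [SetLike.mem_coe, IntermediateField.mem_fixedField_iff]
      have h2 : σ x = x := by
        refine (hval i x hx).trans ?_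
        have h3 : qc (e i) σ = 1 := h i (mem_univ _)
        rw [h3]
        simp
      intro g hg
      have h4 : Subgroup.zpowers σ ≤ MulAction.stabilizer _ x := by
        rw [Subgroup.zpowers_le]
        exact h2
      exact h4 hg
    intro x hx
    have h5 := h1 hx
    rw [IntermediateField.mem_fixedField_iff] at h5
    exact h5 σ (Subgroup.mem_zpowers σ)

end Pool.Agent.Y712
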