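import Mathlib
import Pool.Agent.W762.RK2.EXP4b

/-!
# Residual conditions for quadratic twists of a residually trivial 2-adic representation

Combinatorics: the linear systems over the field with two elements, their number of solutions and
the expansion of the averages into Jacobi symbols.
-/

set_option autoImplicit false

namespace Pool.Agent.Y712

open Finset Pool.Agent.W262.RK Pool.Agent.W762.RK2

/-- vectors over the field with two elements -/
abbrev Vec (ι : Type) : Type := ι → ZMod 2

/-- the additive Legendre symbol -/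
def js (p : ℕ) (k : ℤ) : ZMod 2 := if jacobiSym k p = -1 then 1 else 0

/-- the sign of an element of the field with two elements -/
noncomputable def ep (a : ZMod 2) : ℝ := if a = 0 then 1 else -1

lemma zmod2 : ∀ a : ZMod 2, a = 0 ∨ a = 1 := by decide

lemma ep_add (a b : ZMod 2) : ep (a + b) = ep a * ep b := by
  unfold ep
  rcases zmod2 a with h | h <;> rcases zmod2 b with h' | h' <;> subst h <;> subst h' <;>
    norm_num
  decide

lemma ep_zero : ep 0 = 1 := by simp [ep]

lemma ep_sum {α : Type} (s : Finset α) (f : α → ZMod 2) : ep (∑ a ∈ s, f a) = ∏ a ∈ s, ep (f a) := by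
  classical
  induction s using Finset.induction_on with
  | empty => simp [ep_zero]
  | insert a s ha ih => rw [sum_insert ha, prod_insert ha, ep_add, ih]

lemma ep_js {p : ℕ} {k : ℤ} (h : k.gcd p = 1) (b : ZMod 2) :
    ep (js p k * b) = if b = 1 then Jr k p else 1 := by
  unfold ep js Jr
  rcases zmod2 b with hb | hb <;> subst hb
  · simp
  · rcases jacobiSym.eq_one_or_neg_one h with h1 | h1 <;> rw [h1] <;> norm_num

section fourier

variable {ι : Type} [Fintype ι] [DecidableEq ι]

/-- the Fourier expansion of the delta function -/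
lemma four (x : Vec ι) : ind (x = 0) = (1 / 2 ^ Fintype.card ι : ℝ) * ∑ w : Vec ι, ep (w ⬝ᵥ x) := by
  have h1 : ∀ w : Vec ι, ep (w ⬝ᵥ x) = ∏ i, ep (w i * x i) := fun w => ep_sum _ _
  have h2 : ∑ w : Vec ι, ep (w ⬝ᵥ x) = ∏ i, ∑ a : ZMod 2, ep (a * x i) := by
    rw [Finset.prod_univ_sum]
    simp only [h1, Fintype.piFinset_univ]
  have h3 : ∀ i, ∑ a : ZMod 2, ep (a * x i) = if x i = 0 then 2 else 0 := by
    intro i
    have h4 : (univ : Finset (ZMod 2)) = {0, 1} := rfl
    rw [h4, sum_insert (by decide), sum_singleton]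
    rcases zmod2 (x i) with h | h <;> rw [h] <;> norm_num [ep]
  rw [h2, prod_congr rfl fun i _ => h3 i]
  by_cases hx : x = 0
  · subst hx
    simp [ind]
  · rw [ind, if_neg hx]
    obtain ⟨i, hi⟩ := Function.ne_iff.1 hx
    rw [prod_eq_zero (mem_univ i), mul_zero]
    exact if_neg hi

omit [Fintype ι] [DecidableEq ι] in
lemma vadd_self (a : Vec ι) : a + a = 0 := funext fun _ => CharTwo.add_self_eq_zero _

omit [Fintype ι] [DecidableEq ι] in
lemma add_eq_zero_iff2 (a b : Vec ι) : a + b = 0 ↔ a = b := by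
  constructor
  · intro h
    have h2 : a + b + b = b := by rw [h, zero_add]
    rwa [add_assoc, vadd_self, add_zero] at h2
  · rintro rfl
    exact vadd_self a

/-- the local identity -/
lemma loc_id2 (x u v : Vec ι) :
    (ind (x = v + u) + ind (x = u)) / 2 =
      ∑ w : Vec ι, if w ⬝ᵥ v = 0 then (1 / 2 ^ Fintype.card ι : ℝ) * ep (w ⬝ᵥ (x + u)) else 0 := by
  have h1 : ind (x = v + u) = (1 / 2 ^ Fintype.card ι : ℝ) *
      ∑ w : Vec ι, ep (w ⬝ᵥ v) * ep (w ⬝ᵥ (x + u)) := by
    have : (x = v + u) ↔ (v + (x + u) = 0) := by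
      rw [add_eq_zero_iff2]
      constructor
      · rintro rfl
        rw [add_assoc, vadd_self, add_zero]
      · intro h
        rw [h, add_assoc, vadd_self, add_zero]
    rw [propext this, four]
    congr 1
    refine sum_congr rfl fun w _ => ?_
    rw [dotProduct_add, ep_add]
  have h2 : ind (x = u) = (1 / 2 ^ Fintype.card ι : ℝ) * ∑ w : Vec ι, ep (w ⬝ᵥ (x + u)) := by
    rw [← four, add_eq_zero_iff2]
  rw [h1, h2, ← mul_add, ← sum_add_distrib, mul_div_assoc, sum_div, mul_sum]
  refine sum_congr rfl fun w _ => ?_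
  by_cases hw : w ⬝ᵥ v = 0
  · rw [if_pos hw, hw, ep_zero]
    ring
  · rw [if_neg hw]
    have : ep (w ⬝ᵥ v) = -1 := by simp [ep, hw]
    rw [this]
    ring

end fourier

/-! ### Isotropic sets -/

section iso

variable {ι : Type} [Fintype ι] [DecidableEq ι]

/-- sum of the signs over all vectors -/
lemma sum_ep (x : Vec ι) : ∑ w : Vec ι, ep (w ⬝ᵥ x) = if x = 0 then (2 : ℝ) ^ Fintype.card ι else 0 := by
  have h := four x
  have h2 : (2 : ℝ) ^ Fintype.card ι ≠ 0 := by positivity
  rw [one_div, eq_inv_mul_iff_mul_eq₀ h2] at h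
  rw [← h]
  unfold ind
  split_ifs <;> simp

lemma ep_sq (a : ZMod 2) : ep a * ep a = 1 := by
  unfold ep
  split_ifs <;> norm_num

/-- a set of pairwise orthogonal vectors for the alternating form has at most `2 ^ n` elements -/
lemma iso_card (U : Finset (Vec ι × Vec ι))
    (hU : ∀ a ∈ U, ∀ b ∈ U, b.2 ⬝ᵥ a.1 = a.2 ⬝ᵥ b.1) : U.card ≤ 2 ^ Fintype.card ι := by
  classical
  set N : ℝ := (2 : ℝ) ^ Fintype.card ι with hN
  have hN0 : 0 < N := by positivity
  -- the function
  set f : Vec ι × Vec ι → ℝ := fun x => ∑ a ∈ U, ep (a.2 ⬝ᵥ x.1) * ep (x.2 ⬝ᵥ a.1) with hf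
  have hfU : ∀ x ∈ U, f x = U.card := by
    intro x hx
    rw [hf]
    simp only
    rw [sum_congr rfl fun a ha => by rw [hU x hx a ha, ep_sq]]
    simp
  have hpars : ∑ x : Vec ι × Vec ι, f x * f x = N * N * U.card := by
    have h1 : ∀ x : Vec ι × Vec ι, f x * f x = ∑ a ∈ U, ∑ b ∈ U,
        ep ((a.2 + b.2) ⬝ᵥ x.1) * ep (x.2 ⬝ᵥ (a.1 + b.1)) := by
      intro x
      rw [hf]
      simp only
      rw [sum_mul_sum]
      refine sum_congr rfl fun a _ => sum_congr rfl fun b _ => ?_
      rw [add_dotProduct, dotProduct_add, ep_add, ep_add]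
      ring
    rw [sum_congr rfl fun x _ => h1 x, sum_comm]
    have h2 : ∀ a ∈ U, ∑ x : Vec ι × Vec ι, ∑ b ∈ U,
        ep ((a.2 + b.2) ⬝ᵥ x.1) * ep (x.2 ⬝ᵥ (a.1 + b.1)) = N * N := by
      intro a ha
      rw [sum_comm, sum_eq_single_of_mem a ha]
      · rw [Fintype.sum_prod_type]
        have e1 : a.2 + a.2 = 0 := vadd_self _
        have e2 : a.1 + a.1 = 0 := vadd_self _
        simp only [e1, e2, zero_dotProduct, dotProduct_zero, ep_zero, mul_one, sum_const, card_univ,
          nsmul_eq_mul, Fintype.card_fun, ZMod.card]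
        push_cast
        rw [hN]
      · intro b _ hb
        rw [Fintype.sum_prod_type]
        have h3 : ∀ x1 : Vec ι, ∑ x2 : Vec ι, ep ((a.2 + b.2) ⬝ᵥ x1) * ep (x2 ⬝ᵥ (a.1 + b.1)) =
            ep (x1 ⬝ᵥ (a.2 + b.2)) * if a.1 + b.1 = 0 then N else 0 := by
          intro x1
          rw [← mul_sum, sum_ep, dotProduct_comm]
        simp only [h3]
        rw [← sum_mul, sum_ep]
        by_cases e1 : a.1 + b.1 = 0
        · have e2 : a.2 + b.2 ≠ 0 := by
            intro e2
            apply hb
            rw [add_eq_zero_iff2] at e1 e2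
            exact Prod.ext e1.symm e2.symm
          rw [if_neg e2, zero_mul]
        · rw [if_neg e1, mul_zero]
    rw [sum_congr rfl h2, sum_const, nsmul_eq_mul]
    ring
  have hle : (U.card : ℝ) * ((U.card : ℝ) * U.card) ≤ N * N * U.card := by
    rw [← hpars]
    calc (U.card : ℝ) * ((U.card : ℝ) * U.card) = ∑ x ∈ U, f x * f x := by
          rw [sum_congr rfl fun x hx => by rw [hfU x hx], sum_const, nsmul_eq_mul]
      _ ≤ ∑ x : Vec ι × Vec ι, f x * f x :=
          sum_le_sum_of_subset_of_nonneg (subset_univ _) fun x _ _ => mul_self_nonneg _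
  rcases Nat.eq_zero_or_pos U.card with h0 | h0
  · rw [h0]
    exact Nat.zero_le _
  · have h0' : (0 : ℝ) < U.card := by exact_mod_cast h0
    have h1 : (U.card : ℝ) * U.card ≤ N * N := by
      have : (U.card : ℝ) * U.card * U.card ≤ N * N * U.card := by linarith
      exact le_of_mul_le_mul_right this h0'
    have h2 : (U.card : ℝ) ≤ N := by
      by_contra hc
      push Not at hc
      nlinarith
    rw [hN] at h2
    exact_mod_cast h2

end iso

end Pool.Agent.Y712
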