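import Pool.Agent.Y712.Fin
import Pool.Agent.Y712.Ext

/-!
# The moments for the Selmer groups over multiquadratic fields
-/

set_option autoImplicit false

namespace Pool.Agent.Y712

open Finset Polynomial NumberField Pool.Agent.W569.FM Matrix

variable {n : ℕ} {ρ : GQ → Matrix (Fin n) (Fin n) ℤ_[2]} {N : ℕ}

lemma Tw_mul (h : Good ρ N) {d : ℤ} (hd : d ≠ 0) (σ τ : GQ) :
    Tw ρ d (σ * τ) = Tw ρ d σ * Tw ρ d τ := by
  unfold Tw
  rw [h.mul, qc_mul hd, Matrix.smul_mul, Matrix.mul_smul, smul_smul]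
  have h1 : (ρ σ * ρ τ).map (fun x => (x : ℚ_[2])) =
      (ρ σ).map (fun x => (x : ℚ_[2])) * (ρ τ).map (fun x => (x : ℚ_[2])) :=
    Matrix.map_mul (f := PadicInt.Coe.ringHom)
  rw [h1]
  push_cast
  rfl

lemma Tw_mul_left {d e : ℤ} (hd : d ≠ 0) (he : e ≠ 0) (σ : GQ) :
    Tw ρ (e * d) σ = (qc e σ : ℚ_[2]) • Tw ρ d σ := by
  unfold Tw
  rw [qc_mul_left he hd, smul_smul]
  push_cast
  rfl

/-- from crossed homomorphisms on the whole group to functions of two variables -/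
noncomputable def topl (N : ℕ) (A : GQ → Matrix (Fin n) (Fin n) ℚ_[2]) :
    ZS N ⊤ A →ₗ[ℚ_[2]] ZY N A where
  toFun f := ⟨fun x => f.1 ⟨x.1, Subgroup.mem_top _⟩ x.2, by
    obtain ⟨h1, h2, h3⟩ := f.2
    refine ⟨?_, fun σ τ => ?_, fun P hP hP2 => ?_⟩
    · show Continuous (fun σ : GQ => f.1 ⟨σ, Subgroup.mem_top _⟩)
      exact h1.comp (Continuous.subtype_mk continuous_id _)
    · exact h2 ⟨σ, Subgroup.mem_top _⟩ ⟨τ, Subgroup.mem_top _⟩
    · obtain ⟨v, hv⟩ := h3 P hP hP2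
      exact ⟨v, fun σ hσ => hv ⟨σ, Subgroup.mem_top _⟩ hσ⟩⟩
  map_add' _ _ := rfl
  map_smul' _ _ := rfl

lemma topl_inj (A : GQ → Matrix (Fin n) (Fin n) ℚ_[2]) : Function.Injective (topl N A) := by
  intro f g h
  apply Subtype.ext
  funext σ
  funext i
  have h1 := congrArg Subtype.val h
  exact congrFun h1 (σ.1, i)

/-- the Selmer group over the rational numbers -/
theorem top_bound (h : Good ρ N) {d : ℤ} (hd : d ≠ 0) :
    FiniteDimensional ℚ_[2] (HS N ⊤ (Tw ρ d)) ∧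
      Module.finrank ℚ_[2] (HS N ⊤ (Tw ρ d)) ≤ Module.finrank ℚ_[2] (ZY N (Tw ρ d)) := by
  obtain ⟨μ, hμ, hμ2⟩ := exists_mu h
  obtain ⟨h1, _⟩ := bound_ER h hμ hμ2 hd
  have h2 : FiniteDimensional ℚ_[2] (ZS N ⊤ (Tw ρ d)) :=
    FiniteDimensional.of_injective (topl N (Tw ρ d)) (topl_inj _)
  refine ⟨inferInstance, ?_⟩
  exact (Submodule.finrank_quotient_le _).trans
    (LinearMap.finrank_le_finrank_of_injective (topl_inj (N := N) (Tw ρ d)))

/-! ### Multiquadratic extensions -/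

section multi

variable {ι : Type} [DecidableEq ι]

/-- the common kernel of quadratic characters -/
def HJ (e : ι → ℤ) (he : ∀ i, e i ≠ 0) (J : Finset ι) : Subgroup GQ where
  carrier := {σ | ∀ i ∈ J, qc (e i) σ = 1}
  one_mem' := fun i _ => qc_one_right _
  mul_mem' := by
    intro a b ha hb i hi
    rw [qc_mul (he i), ha i hi, hb i hi, one_mul]
  inv_mem' := by
    intro a ha i hi
    have h1 := qc_mul (he i) a a⁻¹
    rw [mul_inv_cancel, qc_one_right, ha i hi, one_mul] at h1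
    exact h1.symm

omit [DecidableEq ι] in
lemma mem_HJ {e : ι → ℤ} {he : ∀ i, e i ≠ 0} {J : Finset ι} {σ : GQ} :
    σ ∈ HJ e he J ↔ ∀ i ∈ J, qc (e i) σ = 1 := Iff.rfl

omit [DecidableEq ι] in
lemma HJ_open (e : ι → ℤ) (he : ∀ i, e i ≠ 0) (J : Finset ι) :
    IsOpen (HJ e he J : Set GQ) := by
  have h1 : (HJ e he J : Set GQ) = ⋂ i ∈ J, {σ | qc (e i) σ = 1} := by
    ext σ
    rw [SetLike.mem_coe, mem_HJ]
    simp
  rw [h1]
  exact isOpen_biInter_finset fun i _ => (qc_lc (e i)).isOpen_fiber 1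

/-- **the Selmer group over a multiquadratic field** -/
theorem multi_bound (h : Good ρ N) (e : ι → ℤ) (he : ∀ i, e i ≠ 0) (J : Finset ι) :
    ∀ d : ℤ, d ≠ 0 → FiniteDimensional ℚ_[2] (HS N (HJ e he J) (Tw ρ d)) ∧
      Module.finrank ℚ_[2] (HS N (HJ e he J) (Tw ρ d)) ≤
        ∑ T ∈ J.powerset, Module.finrank ℚ_[2] (ZY N (Tw ρ (d * ∏ i ∈ T, e i))) := by
  classical
  induction J using Finset.induction_on with
  | empty =>
    intro d hd
    have h1 : HJ e he ∅ = ⊤ := by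
      ext σ
      rw [mem_HJ]
      simp
    rw [h1, powerset_empty, sum_singleton, prod_empty, mul_one]
    exact top_bound h hd
  | insert a J ha ih =>
    intro d hd
    have hda : d * e a ≠ 0 := mul_ne_zero hd (he a)
    have hea : e a * d ≠ 0 := mul_ne_zero (he a) hd
    obtain ⟨f1, r1⟩ := ih d hd
    obtain ⟨f2, r2⟩ := ih (d * e a) hda
    have hsum : ∑ T ∈ (insert a J).powerset,
        Module.finrank ℚ_[2] (ZY N (Tw ρ (d * ∏ i ∈ T, e i))) =
        ∑ T ∈ J.powerset, Module.finrank ℚ_[2] (ZY N (Tw ρ (d * ∏ i ∈ T, e i))) +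
        ∑ T ∈ J.powerset, Module.finrank ℚ_[2] (ZY N (Tw ρ (d * e a * ∏ i ∈ T, e i))) := by
      rw [sum_powerset_insert ha]
      congr 1
      refine sum_congr rfl fun T hT => ?_
      have haT : a ∉ T := fun h' => ha (mem_powerset.1 hT h')
      rw [prod_insert haT, mul_assoc]
    rw [hsum]
    by_cases hall : ∀ σ ∈ HJ e he J, qc (e a) σ = 1
    · have h1 : HJ e he (insert a J) = HJ e he J := by
        ext σ
        rw [mem_HJ, mem_HJ]
        constructor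
        · intro h' i hi
          exact h' i (mem_insert_of_mem hi)
        · intro h' i hi
          rcases mem_insert.1 hi with rfl | hi
          · exact hall σ h'
          · exact h' i hi
      rw [h1]
      exact ⟨f1, r1.trans (Nat.le_add_right _ _)⟩
    push Not at hall
    obtain ⟨s, hs, hs1⟩ := hall
    have hs2 : qc (e a) s = -1 := (qc_val _ _).resolve_left hs1
    have t : Two (HJ e he J) (HJ e he (insert a J)) s := by
      refine ⟨fun σ hσ i hi => hσ i (mem_insert_of_mem hi), hs,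
        fun h' => hs1 (h' a (mem_insert_self _ _)), fun x hx y hy => ?_⟩
      have key : ∀ z ∈ HJ e he J, (z ∈ HJ e he (insert a J) ↔ qc (e a) z = 1) := by
        intro z hz
        constructor
        · intro h'
          exact h' a (mem_insert_self _ _)
        · intro h' i hi
          rcases mem_insert.1 hi with rfl | hi
          · exact h'
          · exact hz i hi
      rw [key _ ((HJ e he J).mul_mem hx hy), key _ hx, key _ hy, qc_mul (he a)]
      rcases qc_val (e a) x with h3 | h3 <;> rcases qc_val (e a) y with h4 | h4 <;>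
        rw [h3, h4] <;> norm_num
    have hTw : ∀ σ, Tw ρ (d * e a) σ = (qc (e a) σ : ℚ_[2]) • Tw ρ d σ := by
      intro σ
      rw [mul_comm d, Tw_mul_left hd (he a)]
    obtain ⟨f3, r3⟩ := quad_step t (Tw_mul h hd) (Tw_mul h hda)
      (fun σ hσ => by
        rw [hTw, hσ a (mem_insert_self _ _)]
        simp)
      (by
        rw [hTw, hs2]
        simp) (HJ_open e he (insert a J)) f1 f2
    exact ⟨f3, r3.trans (Nat.add_le_add r1 r2)⟩

end multi

/-- the largest factor dominates -/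
lemma prod_le_sum_pow {α : Type} (s : Finset α) (hs : s.Nonempty) (x : α → ℝ)
    (hx : ∀ a ∈ s, 1 ≤ x a) : ∏ a ∈ s, x a ≤ ∑ a ∈ s, x a ^ s.card := by
  obtain ⟨b, hb, hmax⟩ := exists_max_image s x hs
  calc ∏ a ∈ s, x a ≤ ∏ _a ∈ s, x b :=
        prod_le_prod (fun a ha => by linarith [hx a ha]) fun a ha => hmax a ha
    _ = x b ^ s.card := by rw [prod_const]
    _ ≤ ∑ a ∈ s, x a ^ s.card := single_le_sum (f := fun a => x a ^ s.card)
        (fun a ha => pow_nonneg (by linarith [hx a ha]) _) hb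

/-- **the moments over multiquadratic fields** -/
theorem mom_multi (n : ℕ) {N : ℕ} (hN : N ≠ 0) {s : ℕ} (D₀ : ℤ[X]) (hD₀ : D₀ ≠ 0)
    (D : Fin s → ℤ[X]) (hD : ∀ i, D i ≠ 0) (k L : ℕ) :
    ∃ C : ℝ, ∀ (N' : ℤ) (M : ℕ), 1 ≤ M → |N'| ≤ (M : ℤ) ^ L →
      ∀ ρ : ℤ → GQ → Matrix (Fin n) (Fin n) ℤ_[2], (∀ t, Good (ρ t) N) → ∀ F : ℤ → ℕ,
      (∀ t, D₀.eval t ≠ 0 → ∀ ht : ∀ i, (D i).eval t ≠ 0, F t = Module.finrank ℚ_[2]
        (HS N (HJ (fun i => (D i).eval t) ht univ) (Tw (ρ t) (D₀.eval t)))) →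
      ∑ t ∈ (Ioc N' (N' + M)).filter (fun t => D₀.eval t ≠ 0 ∧ ∀ i, (D i).eval t ≠ 0),
        ((2 : ℝ) ^ F t) ^ k ≤ C * M := by
  classical
  set PP0 : Finset (Finset (Fin s)) := (univ : Finset (Fin s)).powerset with hPw
  have hDT : ∀ T : Finset (Fin s), D₀ * ∏ i ∈ T, D i ≠ 0 := fun T =>
    mul_ne_zero hD₀ (prod_ne_zero_iff.2 fun i _ => hD i)
  choose G hG0 hG1 hG2 using fun T : Finset (Fin s) =>
    mom_one (N := N) n hN (D₀ * ∏ i ∈ T, D i) (hDT T) (k * PP0.card) L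
  choose C hC using hG1
  refine ⟨∑ T ∈ PP0, C T, fun N' M hM hN' ρ hρ F hF => ?_⟩
  have hN'' : N'.natAbs ≤ M ^ L := by
    have : ((N'.natAbs : ℕ) : ℤ) ≤ ((M ^ L : ℕ) : ℤ) := by
      rw [Int.natCast_natAbs]
      push_cast
      exact hN'
    exact_mod_cast this
  have hne : ∀ t, D₀.eval t ≠ 0 → (∀ i, (D i).eval t ≠ 0) → ∀ T : Finset (Fin s),
      (D₀ * ∏ i ∈ T, D i).eval t ≠ 0 := by
    intro t h0 hi T
    rw [eval_mul, eval_prod]
    exact mul_ne_zero h0 (prod_ne_zero_iff.2 fun i _ => hi i)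
  have h1 : ∀ t ∈ (Ioc N' (N' + M)).filter (fun t => D₀.eval t ≠ 0 ∧ ∀ i, (D i).eval t ≠ 0),
      ((2 : ℝ) ^ F t) ^ k ≤ ∑ T ∈ PP0, G T t := by
    intro t ht
    obtain ⟨h0, hi⟩ := (mem_filter.1 ht).2
    obtain ⟨_, h2⟩ := multi_bound (hρ t) (fun i => (D i).eval t) hi univ (D₀.eval t) h0
    have h3 : (2 : ℝ) ^ F t ≤ ∏ T ∈ PP0, rr N (ρ t) ((D₀ * ∏ i ∈ T, D i).eval t) := by
      rw [hF t h0 hi]
      unfold rr
      rw [prod_pow_eq_pow_sum]
      refine pow_le_pow_right₀ (by norm_num) (h2.trans (le_of_eq ?_))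
      refine sum_congr rfl fun T _ => ?_
      rw [eval_mul, eval_prod]
    have h4 : ∀ T ∈ PP0, 1 ≤ rr N (ρ t) ((D₀ * ∏ i ∈ T, D i).eval t) ^ k := fun T _ =>
      one_le_pow₀ (one_le_rr _)
    calc ((2 : ℝ) ^ F t) ^ k ≤ (∏ T ∈ PP0, rr N (ρ t) ((D₀ * ∏ i ∈ T, D i).eval t)) ^ k :=
          pow_le_pow_left₀ (by positivity) h3 k
      _ = ∏ T ∈ PP0, rr N (ρ t) ((D₀ * ∏ i ∈ T, D i).eval t) ^ k := by rw [prod_pow]
      _ ≤ ∑ T ∈ PP0, (rr N (ρ t) ((D₀ * ∏ i ∈ T, D i).eval t) ^ k) ^ PP0.card :=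
          prod_le_sum_pow PP0 ⟨∅, empty_mem_powerset _⟩ _ h4
      _ ≤ _ := sum_le_sum fun T _ => by
          rw [← pow_mul]
          exact hG2 T t (hne t h0 hi T) (ρ t) (hρ t)
  refine (sum_le_sum h1).trans ?_
  rw [sum_comm, sum_mul]
  refine sum_le_sum fun T _ => ?_
  refine le_trans (sum_le_sum_of_subset_of_nonneg ?_ fun t _ _ => hG0 T t) (hC T N' M hM hN'')
  intro t ht
  rw [mem_filter] at ht ⊢
  exact ⟨ht.1, hne t ht.2.1 ht.2.2 T⟩

end Pool.Agent.Y712
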