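import Mathlib
import Pool.Agent.TH841.SH.Kum
import Pool.Agent.W569.FM.Span
import Pool.Agent.W571.FM.Frob
import Pool.Agent.W215.FM.Gen

/-!
# Quadratic characters of the absolute Galois group of the rational numbers
-/

set_option autoImplicit false

namespace Pool.Agent.Y712

open NumberField Pool.Agent.W569.FM

/-- the absolute Galois group of the rational numbers -/
abbrev GQ : Type := GF ℚ

open Classical in
/-- the quadratic character of `ℚ(√d)` -/
noncomputable def qc (d : ℤ) (σ : GQ) : ℤ :=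
  if ∀ s : AlgebraicClosure ℚ, s ^ 2 = (d : AlgebraicClosure ℚ) → σ s = s then 1 else -1

/-- the same character, written additively -/
noncomputable def qz (d : ℤ) (σ : GQ) : ZMod 2 := if qc d σ = -1 then 1 else 0

lemma qc_val (d : ℤ) (σ : GQ) : qc d σ = 1 ∨ qc d σ = -1 := by
  unfold qc
  split_ifs
  · exact Or.inl rfl
  · exact Or.inr rfl

lemma qc_mul_self (d : ℤ) (σ : GQ) : qc d σ * qc d σ = 1 := by
  rcases qc_val d σ with h | h <;> rw [h] <;> norm_num

lemma exists_root (d : ℤ) : ∃ s : AlgebraicClosure ℚ, s ^ 2 = (d : AlgebraicClosure ℚ) :=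
  IsAlgClosed.exists_pow_nat_eq _ (by norm_num)

lemma qc_eq {d : ℤ} {s : AlgebraicClosure ℚ} (hs : s ^ 2 = (d : AlgebraicClosure ℚ)) (σ : GQ) :
    σ s = (qc d σ : AlgebraicClosure ℚ) * s := by
  have h1 : (σ s) ^ 2 = s ^ 2 := by
    rw [← map_pow, hs]
    exact map_intCast σ d
  unfold qc
  split_ifs with h
  · rw [h s hs]
    simp
  · rcases sq_eq_sq_iff_eq_or_eq_neg.1 h1 with h2 | h2
    · exfalso
      apply h
      intro t ht
      rcases sq_eq_sq_iff_eq_or_eq_neg.1 (ht.trans hs.symm) with h3 | h3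
      · rw [h3, h2]
      · rw [h3, map_neg, h2]
    · rw [h2]
      simp

lemma root_ne {d : ℤ} (hd : d ≠ 0) {s : AlgebraicClosure ℚ}
    (hs : s ^ 2 = (d : AlgebraicClosure ℚ)) : s ≠ 0 := by
  rintro rfl
  apply hd
  have : (d : AlgebraicClosure ℚ) = 0 := by
    rw [← hs]
    norm_num
  exact_mod_cast this

lemma int_of_mul_eq {a b : ℤ} {s : AlgebraicClosure ℚ} (hs : s ≠ 0)
    (h : (a : AlgebraicClosure ℚ) * s = (b : AlgebraicClosure ℚ) * s) : a = b := by
  have := mul_right_cancel₀ hs h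
  exact_mod_cast this

lemma qc_mul {d : ℤ} (hd : d ≠ 0) (σ τ : GQ) : qc d (σ * τ) = qc d σ * qc d τ := by
  obtain ⟨s, hs⟩ := exists_root d
  apply int_of_mul_eq (root_ne hd hs)
  rw [← qc_eq hs, AlgEquiv.mul_apply, qc_eq hs τ, map_mul, map_intCast, qc_eq hs σ]
  push_cast
  ring

lemma qc_one_right (d : ℤ) : qc d 1 = 1 := by
  unfold qc
  rw [if_pos]
  intro s _
  rfl

lemma qc_mul_left {a b : ℤ} (ha : a ≠ 0) (hb : b ≠ 0) (σ : GQ) :
    qc (a * b) σ = qc a σ * qc b σ := by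
  obtain ⟨s, hs⟩ := exists_root a
  obtain ⟨t, ht⟩ := exists_root b
  have h : (s * t) ^ 2 = ((a * b : ℤ) : AlgebraicClosure ℚ) := by
    rw [mul_pow, hs, ht]
    push_cast
    ring
  apply int_of_mul_eq (root_ne (mul_ne_zero ha hb) h)
  rw [← qc_eq h, map_mul, qc_eq hs, qc_eq ht]
  push_cast
  ring

lemma qc_one_left (σ : GQ) : qc 1 σ = 1 := by
  have h : ((1 : AlgebraicClosure ℚ)) ^ 2 = ((1 : ℤ) : AlgebraicClosure ℚ) := by norm_num
  have h2 := qc_eq h σ
  rw [map_one, mul_one] at h2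
  exact_mod_cast h2.symm

lemma qc_sq {a b : ℤ} (ha : a ≠ 0) (hb : b ≠ 0) (σ : GQ) : qc (a * b ^ 2) σ = qc a σ := by
  rw [qc_mul_left ha (pow_ne_zero 2 hb), pow_two, qc_mul_left hb hb, qc_mul_self, mul_one]

lemma qc_comm {d : ℤ} (hd : d ≠ 0) (g τ : GQ) : qc d (g * τ * g⁻¹) = qc d τ := by
  rw [qc_mul hd, qc_mul hd]
  have : qc d g * qc d g⁻¹ = 1 := by
    rw [← qc_mul hd, mul_inv_cancel, qc_one_right]
  linear_combination (qc d τ) * this

lemma isOpen_fix (s : AlgebraicClosure ℚ) : IsOpen {σ : GQ | σ s = s} := by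
  have h1 := stabilizer_isOpen_of_isIntegral (K := ℚ) s
  exact h1

lemma qc_lc (d : ℤ) : IsLocallyConstant (qc d) := by
  obtain ⟨s, hs⟩ := exists_root d
  by_cases hd : d = 0
  · have : ∀ σ, qc d σ = 1 := by
      intro σ
      unfold qc
      rw [if_pos]
      intro t ht
      rw [hd] at ht
      have : t = 0 := by
        have : t ^ 2 = 0 := by rw [ht]; simp
        exact pow_eq_zero_iff two_ne_zero |>.1 this
      rw [this, map_zero]
    rw [show qc d = fun _ => 1 from funext this]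
    exact IsLocallyConstant.const 1
  rw [IsLocallyConstant.iff_exists_open]
  intro σ
  refine ⟨(fun τ => σ⁻¹ * τ) ⁻¹' {τ : GQ | τ s = s}, (isOpen_fix s).preimage (continuous_const_mul _),
    ?_, ?_⟩
  · show (σ⁻¹ * σ) s = s
    rw [inv_mul_cancel]
    rfl
  · intro τ hτ
    have h1 : (σ⁻¹ * τ) s = s := hτ
    have h2 : τ s = σ s := by
      have := congrArg σ h1
      rwa [AlgEquiv.mul_apply, ← AlgEquiv.mul_apply σ σ⁻¹, mul_inv_cancel, AlgEquiv.one_apply] at this
    rw [qc_eq hs, qc_eq hs] at h2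
    exact int_of_mul_eq (root_ne hd hs) h2

lemma qz_lc (d : ℤ) : IsLocallyConstant (qz d) := (qc_lc d).comp fun x => if x = -1 then 1 else 0

lemma qz_of (d : ℤ) (σ : GQ) : (qz d σ = 0 ∧ qc d σ = 1) ∨ (qz d σ = 1 ∧ qc d σ = -1) := by
  unfold qz
  rcases qc_val d σ with h | h <;> rw [h]
  · left
    exact ⟨rfl, rfl⟩
  · right
    exact ⟨rfl, rfl⟩

lemma qz_mul {d : ℤ} (hd : d ≠ 0) (σ τ : GQ) : qz d (σ * τ) = qz d σ + qz d τ := by
  have h := qc_mul hd σ τ
  rcases qz_of d (σ * τ) with ⟨h1, h2⟩ | ⟨h1, h2⟩ <;> rcases qz_of d σ with ⟨h3, h4⟩ | ⟨h3, h4⟩ <;>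
    rcases qz_of d τ with ⟨h5, h6⟩ | ⟨h5, h6⟩ <;> rw [h1, h3, h5] <;> rw [h2, h4, h6] at h <;>
    revert h <;> decide

lemma qz_mul_left {a b : ℤ} (ha : a ≠ 0) (hb : b ≠ 0) (σ : GQ) :
    qz (a * b) σ = qz a σ + qz b σ := by
  have h := qc_mul_left ha hb σ
  rcases qz_of (a * b) σ with ⟨h1, h2⟩ | ⟨h1, h2⟩ <;> rcases qz_of a σ with ⟨h3, h4⟩ | ⟨h3, h4⟩ <;>
    rcases qz_of b σ with ⟨h5, h6⟩ | ⟨h5, h6⟩ <;> rw [h1, h3, h5] <;> rw [h2, h4, h6] at h <;>
    revert h <;> decide

lemma qz_one_left (σ : GQ) : qz 1 σ = 0 := by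
  unfold qz
  rw [qc_one_left]
  rfl

/-- Kummer theory -/
theorem kum2 (c : GQ → ZMod 2) (hc : IsLocallyConstant c) (hm : ∀ σ τ, c (σ * τ) = c σ + c τ) :
    ∃ e : ℤ, Squarefree e ∧ ∀ σ, c σ = qz e σ := by
  have hm' : ∀ σ τ : GQ, decide (c (σ * τ) = 1) = xor (decide (c σ = 1)) (decide (c τ = 1)) := by
    intro σ τ
    rw [hm]
    generalize c σ = a
    generalize c τ = b
    revert a b
    decide
  have hlc : IsLocallyConstant (fun σ : GQ => decide (c σ = 1)) := hc.comp fun x => decide (x = 1)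
  have hk : ∃ e : ℤ, Squarefree e ∧ ∀ s : AlgebraicClosure ℚ, s ^ 2 = (e : AlgebraicClosure ℚ) →
      ∀ σ : GQ, σ s = s ↔ decide (c σ = 1) = false :=
    Pool.Agent.TH841.SH.kum (fun σ => decide (c σ = 1)) hlc hm'
  obtain ⟨e, he, h⟩ := hk
  refine ⟨e, he, fun σ => ?_⟩
  obtain ⟨s, hs⟩ := exists_root e
  have h1 := h s hs σ
  have hs0 := root_ne he.ne_zero hs
  have h2 : σ s = s ↔ qc e σ = 1 := by
    rw [qc_eq hs]
    constructor
    · intro h3
      exact int_of_mul_eq hs0 (h3.trans (by simp))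
    · intro h3
      rw [h3]
      simp
  rw [h2] at h1
  rcases qz_of e σ with ⟨h3, h4⟩ | ⟨h3, h4⟩
  · rw [h3]
    have := h1.1 h4
    rw [decide_eq_false_iff_not] at this
    revert this
    generalize c σ = a
    revert a
    decide
  · rw [h3]
    by_contra h5
    have h6 : qc e σ = 1 := h1.2 (decide_eq_false_iff_not.2 h5)
    rw [h4] at h6
    exact absurd h6 (by decide)

/-! ### Inertia and Frobenius elements -/

lemma exists_rootO (d : ℤ) : ∃ r : OO ℚ, r ^ 2 = (d : OO ℚ) := by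
  obtain ⟨s, hs⟩ := exists_root d
  have h1 : IsIntegral ℤ s := by
    refine IsIntegral.of_pow (n := 2) (by norm_num) ?_
    rw [hs]
    exact isIntegral_algebraMap (R := ℤ) (x := d)
  refine ⟨⟨s, h1⟩, ?_⟩
  apply RingOfIntegers.ext
  exact hs

lemma coe_intO (d : ℤ) : ((d : OO ℚ) : AlgebraicClosure ℚ) = (d : AlgebraicClosure ℚ) := rfl

lemma qc_eqO {d : ℤ} {r : OO ℚ} (hr : r ^ 2 = (d : OO ℚ)) (σ : GQ) :
    σ • r = (qc d σ : OO ℚ) * r := by
  apply RingOfIntegers.ext
  have h1 : (r : AlgebraicClosure ℚ) ^ 2 = (d : AlgebraicClosure ℚ) := by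
    have := congrArg (fun z : OO ℚ => (z : AlgebraicClosure ℚ)) hr
    push_cast at this
    exact this
  have h2 := qc_eq h1 σ
  push_cast
  exact h2

lemma not_mem_two {P : Ideal (OO ℚ)} (hP : P.IsMaximal) {p : ℕ} (hp : p.Prime) (hp2 : p ≠ 2)
    (h : (p : OO ℚ) ∈ P) : (2 : OO ℚ) ∉ P := fun h2 =>
  hp2 (char_unique hP hp Nat.prime_two h (by exact_mod_cast h2))

lemma int_mem_iff {P : Ideal (OO ℚ)} (hP : P.IsMaximal) {p : ℕ} (hp : p.Prime)
    (h : (p : OO ℚ) ∈ P) (a : ℤ) : (a : OO ℚ) ∈ P ↔ (p : ℤ) ∣ a := by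
  constructor
  · intro ha
    by_contra hna
    have h3 : IsCoprime (p : ℤ) a := by
      rw [Int.isCoprime_iff_gcd_eq_one]
      have h3 : ¬ p ∣ a.natAbs := by
        rwa [← Int.natCast_dvd]
      exact hp.coprime_iff_not_dvd.mpr h3
    obtain ⟨u, v, huv⟩ := h3
    apply hP.ne_top
    rw [Ideal.eq_top_iff_one]
    have h4 : (u : OO ℚ) * (p : OO ℚ) + (v : OO ℚ) * (a : OO ℚ) = 1 := by
      have := congrArg (fun z : ℤ => (z : OO ℚ)) huv
      push_cast at this
      exact this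
    rw [← h4]
    exact P.add_mem (P.mul_mem_left _ h) (P.mul_mem_left _ ha)
  · rintro ⟨b, rfl⟩
    push_cast
    exact P.mul_mem_right _ h

/-- quadratic characters are unramified at the odd primes that do not divide the discriminant -/
lemma qc_inertia {P : Ideal (OO ℚ)} (hP : P.IsMaximal) (h2 : (2 : OO ℚ) ∉ P) {a : ℤ}
    (ha : (a : OO ℚ) ∉ P) {τ : GQ} (hτ : InInertia P τ) : qc a τ = 1 := by
  obtain ⟨r, hr⟩ := exists_rootO a
  rcases qc_val a τ with h | h
  · exact h
  exfalso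
  have h3 := hτ r
  rw [qc_eqO hr, h] at h3
  have h4 : ((-1 : ℤ) : OO ℚ) * r - r = -(2 * r) := by
    push_cast
    ring
  rw [h4] at h3
  have h5 : 2 * r ∈ P := by simpa using P.neg_mem h3
  rcases hP.isPrime.mem_or_mem h5 with h6 | h6
  · exact h2 h6
  · apply ha
    rw [← hr, pow_two]
    exact P.mul_mem_left _ h6

/-- the value at a Frobenius element is the Legendre symbol -/
lemma qc_frob {P : Ideal (OO ℚ)} (hP : P.IsMaximal) {p : ℕ} (hp : p.Prime) (hp2 : p ≠ 2)
    (h : (p : OO ℚ) ∈ P) {φ : GQ} (hφ : FrobAt p P φ) {a : ℤ} (ha : ¬ (p : ℤ) ∣ a) :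
    qc a φ = jacobiSym a p := by
  have : Fact p.Prime := ⟨hp⟩
  obtain ⟨r, hr⟩ := exists_rootO a
  have h2 := not_mem_two hP hp hp2 h
  have ha' : (a : OO ℚ) ∉ P := fun h' => ha ((int_mem_iff hP hp h a).1 h')
  have hr' : r ∉ P := fun h' => ha' (by rw [← hr, pow_two]; exact P.mul_mem_left _ h')
  rw [← jacobiSym.legendreSym.to_jacobiSym]
  have hpodd : p = 2 * (p / 2) + 1 := by
    have := hp.eq_two_or_odd
    omega
  have h3 : (p : ℤ) ∣ a ^ (p / 2) - legendreSym p a := by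
    rw [← ZMod.intCast_zmod_eq_zero_iff_dvd]
    push_cast
    rw [legendreSym.eq_pow]
    exact sub_self _
  have h4 : ((a ^ (p / 2) - legendreSym p a : ℤ) : OO ℚ) ∈ P := (int_mem_iff hP hp h _).2 h3
  have h5 : r ^ p = (a : OO ℚ) ^ (p / 2) * r := by
    conv_lhs => rw [hpodd]
    rw [pow_succ, pow_mul, hr]
  have h6 := hφ r
  rw [qc_eqO hr, h5] at h6
  have h7 : ((qc a φ - legendreSym p a : ℤ) : OO ℚ) * r ∈ P := by
    have h8 : ((qc a φ - legendreSym p a : ℤ) : OO ℚ) * r =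
        ((qc a φ : OO ℚ) * r - (a : OO ℚ) ^ (p / 2) * r) +
          ((a ^ (p / 2) - legendreSym p a : ℤ) : OO ℚ) * r := by
      push_cast
      ring
    rw [h8]
    exact P.add_mem h6 (P.mul_mem_right _ h4)
  have h9 : ((qc a φ - legendreSym p a : ℤ) : OO ℚ) ∈ P :=
    (hP.isPrime.mem_or_mem h7).resolve_right hr'
  have h10 := (int_mem_iff hP hp h _).1 h9
  have hna : (a : ZMod p) ≠ 0 := by
    intro h11
    exact ha ((ZMod.intCast_zmod_eq_zero_iff_dvd a p).1 h11)
  have h12 := legendreSym.eq_one_or_neg_one p hna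
  have hp3 : (3 : ℤ) ≤ p := by
    have := hp.two_le
    omega
  rcases qc_val a φ with e1 | e1 <;> rcases h12 with e2 | e2 <;> rw [e1, e2] at h10 ⊢
  · exfalso
    have := Int.le_of_dvd (by norm_num) h10
    omega
  · exfalso
    have h13 : (p : ℤ) ∣ 2 := by
      have := (dvd_neg).2 h10
      norm_num at this
      exact this
    have := Int.le_of_dvd (by norm_num) h13
    omega

/-- a ramified element -/
lemma exists_ram0 {p : ℕ} (hp : p.Prime) (hp2 : p ≠ 2) :
    ∃ P : Ideal (OO ℚ), P.IsMaximal ∧ (p : OO ℚ) ∈ P ∧ ∃ τ : GQ, InInertia P τ ∧ qc p τ = -1 := by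
  -- the discriminant
  obtain ⟨ps, h4, hps⟩ : ∃ ps : ℤ, (4 : ℤ) ∣ 1 - ps ∧ (ps = p ∨ ps = -p) := by
    have := hp.eq_two_or_odd
    rcases Nat.even_or_odd' (p / 2) with ⟨m, hm | hm⟩
    · exact ⟨p, by omega, Or.inl rfl⟩
    · exact ⟨-p, by omega, Or.inr rfl⟩
  have hps0 : ps ≠ 0 := by
    have := hp.pos
    omega
  by_contra hcon
  push Not at hcon
  -- all values are trivial
  let f : GF ℚ →* Multiplicative (ZMod 2) :=
    { toFun := fun σ => Multiplicative.ofAdd (qz ps σ)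
      map_one' := by
        have := qz_mul hps0 1 1
        rw [mul_one] at this
        have h0 : qz ps 1 = 0 := by
          have h1 := this
          generalize qz ps 1 = a at h1
          revert a
          decide
        rw [h0]
        rfl
      map_mul' := fun σ τ => by
        rw [qz_mul hps0]
        rfl }
  have hf : ∀ σ, f σ = 1 ↔ qc ps σ = 1 := by
    intro σ
    show Multiplicative.ofAdd (qz ps σ) = 1 ↔ _
    rw [ofAdd_eq_one]
    rcases qz_of ps σ with ⟨a, b⟩ | ⟨a, b⟩ <;> rw [a, b] <;> decide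
  have hopen : IsOpen (f.ker : Set (GF ℚ)) := by
    have h1 : (f.ker : Set (GF ℚ)) = qc ps ⁻¹' {1} := by
      ext σ
      rw [SetLike.mem_coe, MonoidHom.mem_ker, hf]
      rfl
    rw [h1]
    exact (qc_lc ps).isOpen_fiber 1
  have hin : ∀ P : Ideal (OO ℚ), P.IsMaximal → ∀ τ : GF ℚ, InInertia P τ → f τ = 1 := by
    intro P hP τ hτ
    rw [hf]
    obtain ⟨q, hq, hqP⟩ := exists_char P hP
    by_contra hne
    have hm1 : qc ps τ = -1 := (qc_val ps τ).resolve_left hne
    have hpsP : (ps : OO ℚ) ∈ P ↔ (p : OO ℚ) ∈ P := by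
      rcases hps with h | h <;> rw [h]
      · push_cast
        rfl
      · push_cast
        exact P.neg_mem_iff
    by_cases hq2 : q = 2
    · subst hq2
      have h2P : (2 : OO ℚ) ∈ P := by exact_mod_cast hqP
      have hpP : (ps : OO ℚ) ∉ P := by
        rw [hpsP]
        intro h
        exact hp2 (char_unique hP hp Nat.prime_two h (by exact_mod_cast hqP))
      obtain ⟨r, hr⟩ := exists_rootO ps
      obtain ⟨m, hm⟩ := h4
      -- the element `(1 + r) / 2`
      obtain ⟨al, hal⟩ : ∃ al : OO ℚ, 2 * al = 1 + r := by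
        have hint : IsIntegral ℤ (((1 : AlgebraicClosure ℚ) + r) / 2) := by
          refine ⟨Polynomial.X ^ 2 - Polynomial.X + Polynomial.C m, ?_, ?_⟩
          · monicity!
          · have hr' : (r : AlgebraicClosure ℚ) ^ 2 = (ps : AlgebraicClosure ℚ) := by
              have := congrArg (fun z : OO ℚ => (z : AlgebraicClosure ℚ)) hr
              push_cast at this
              exact this
            have hm' : (1 : AlgebraicClosure ℚ) - ps = 4 * m := by
              exact_mod_cast congrArg (fun z : ℤ => (z : AlgebraicClosure ℚ)) hm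
            simp only [Polynomial.eval₂_add, Polynomial.eval₂_sub, Polynomial.eval₂_pow,
              Polynomial.eval₂_X, Polynomial.eval₂_C]
            have : (algebraMap ℤ (AlgebraicClosure ℚ)) m = (m : AlgebraicClosure ℚ) := by simp
            rw [this]
            linear_combination (1 / 4 : AlgebraicClosure ℚ) * hr' - (1 / 4 : AlgebraicClosure ℚ) * hm'
        refine ⟨⟨_, hint⟩, ?_⟩
        apply RingOfIntegers.ext
        push_cast
        show (2 : AlgebraicClosure ℚ) * (((1 : AlgebraicClosure ℚ) + r) / 2) = 1 + r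
        field_simp
      have h5 := hτ al
      have h6 : τ • al - al = -r := by
        have h7 : 2 * (τ • al) = 1 - r := by
          have h8 : τ • (2 * al) = 2 * (τ • al) := by
            rw [two_mul, smul_add, two_mul]
          rw [← h8, hal, smul_add, smul_one, qc_eqO hr, hm1]
          push_cast
          ring
        have h9 : 2 * (τ • al - al) = 2 * (-r) := by
          linear_combination h7 - hal
        exact mul_left_cancel₀ two_ne_zero h9
      rw [h6] at h5
      have h10 : r ∈ P := by simpa using P.neg_mem h5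
      apply hpP
      rw [← hr, pow_two]
      exact P.mul_mem_left _ h10
    · have h2P : (2 : OO ℚ) ∉ P := not_mem_two hP hq hq2 hqP
      by_cases hpP : (p : OO ℚ) ∈ P
      · -- ramified
        apply hcon P hP hpP τ hτ
        have hm : qc (-1) τ = 1 := by
          refine qc_inertia hP h2P ?_ hτ
          push_cast
          intro h
          apply hP.ne_top
          rw [Ideal.eq_top_iff_one]
          simpa using P.neg_mem h
        rcases hps with h | h
        · rw [← h]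
          exact hm1
        · have h8 : ((p : ℕ) : ℤ) = (-1) * ps := by rw [h]; ring
          rw [h8, qc_mul_left (by norm_num) hps0, hm, hm1]
          norm_num
      · have := qc_inertia hP h2P (fun h => hpP (hpsP.1 h)) hτ
        rw [this] at hm1
        exact absurd hm1 (by decide)
  have hall := Pool.Agent.W215.FM.main (Multiplicative (ZMod 2)) f hopen hin
  -- the root is rational
  obtain ⟨s, hs⟩ := exists_root ps
  have hfix : ∀ σ : GQ, σ s = s := by
    intro σ
    rw [qc_eq hs, (hf σ).1 (hall σ)]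
    simp
  obtain ⟨q, hq⟩ := Pool.Agent.TH841.SH.fix_mem (K := ℚ) (L := AlgebraicClosure ℚ) s hfix
  have hq' : (q : AlgebraicClosure ℚ) = s := (eq_ratCast _ q).symm.trans hq
  have h5 : q ^ 2 = (ps : ℚ) := by
    have h6 : ((q ^ 2 : ℚ) : AlgebraicClosure ℚ) = ((ps : ℚ) : AlgebraicClosure ℚ) := by
      push_cast
      rw [hq', hs]
    exact_mod_cast h6
  have h6 : IsSquare ((ps : ℤ) : ℚ) := ⟨q, by rw [← h5, pow_two]⟩
  rw [Rat.isSquare_intCast_iff] at h6
  obtain ⟨b, hb⟩ := h6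
  have h7 : p = b.natAbs * b.natAbs := by
    have h8 : ps.natAbs = p := by
      rcases hps with h | h <;> rw [h] <;> simp
    rw [← h8, hb, Int.natAbs_mul]
  have h9 : b.natAbs ∣ p := ⟨_, h7⟩
  rcases (Nat.dvd_prime hp).1 h9 with h10 | h10
  · rw [h10] at h7
    exact hp.one_lt.ne' h7
  · rw [h10] at h7
    have := hp.one_lt
    nlinarith

/-- Frobenius and ramified elements at the same prime -/
theorem exists_ram {p : ℕ} (hp : p.Prime) (hp2 : p ≠ 2) :
    ∃ P : Ideal (OO ℚ), P.IsMaximal ∧ (p : OO ℚ) ∈ P ∧ ∃ φ τ : GQ, FrobAt p P φ ∧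
      InInertia P τ ∧ qc p τ = -1 ∧ qc p φ = 1 := by
  obtain ⟨Q, hQ, hpQ, τ, hτ, hτ1⟩ := exists_ram0 hp hp2
  obtain ⟨⟨P, hP, hpP, φ, hφ⟩, hconj⟩ := Pool.Agent.W571.FM.main p hp
  obtain ⟨g, hg⟩ := hconj P Q hP hQ hpP hpQ
  have hp0 : ((p : ℕ) : ℤ) ≠ 0 := by exact_mod_cast hp.ne_zero
  have h1 := hg τ hτ
  have h2 : qc p (g⁻¹ * τ * g) = -1 := by
    have h3 := qc_comm hp0 g⁻¹ τ
    rw [inv_inv] at h3
    rw [h3, hτ1]
  have hφP : ∀ x : OO ℚ, x ∈ P → φ • x ∈ P := by
    intro x hx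
    have h3 := hφ x
    have h4 : φ • x = (φ • x - x ^ p) + x ^ p := by ring
    rw [h4]
    exact P.add_mem h3 (P.pow_mem_of_mem hx _ hp.pos)
  rcases qc_val p φ with h3 | h3
  · exact ⟨P, hP, hpP, φ, _, hφ, h1, h2, h3⟩
  · refine ⟨P, hP, hpP, φ * (g⁻¹ * τ * g), _, ?_, h1, h2, ?_⟩
    · intro x
      rw [mul_smul]
      have h4 : φ • ((g⁻¹ * τ * g) • x) - x ^ p =
          φ • ((g⁻¹ * τ * g) • x - x) + (φ • x - x ^ p) := by
        rw [smul_sub]
        ring
      rw [h4]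
      exact P.add_mem (hφP _ (h1 x)) (hφ x)
    · rw [qc_mul hp0, h3, h2]
      norm_num

end Pool.Agent.Y712
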