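import Pool.Agent.Y712.Coc

/-!
# Divisible coefficients: definitions and the bits of the elements killed by 2
-/

set_option autoImplicit false

namespace Pool.Agent.Y712

open NumberField Pool.Agent.W569.FM Matrix

/-- the lattice `ℤ₂ⁿ` in `ℚ₂ⁿ` -/
def Lat (n : ℕ) : AddSubgroup (Fin n → ℚ_[2]) where
  carrier := {x | ∀ i, ‖x i‖ ≤ 1}
  zero_mem' := fun i => by simp
  add_mem' := fun {x y} hx hy i => (Padic.nonarchimedean (x i) (y i)).trans (max_le (hx i) (hy i))
  neg_mem' := fun {x} hx i => by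
    rw [Pi.neg_apply, norm_neg]
    exact hx i

lemma mem_Lat {n : ℕ} {x : Fin n → ℚ_[2]} : x ∈ Lat n ↔ ∀ i, ‖x i‖ ≤ 1 := Iff.rfl

/-- `(ℚ₂/ℤ₂)ⁿ` -/
abbrev WW (n : ℕ) : Type := (Fin n → ℚ_[2]) ⧸ Lat n

variable {n : ℕ}

/-- the matrix with rational coefficients -/
def mq (M : Matrix (Fin n) (Fin n) ℤ_[2]) : Matrix (Fin n) (Fin n) ℚ_[2] :=
  M.map (fun x => (x : ℚ_[2]))

lemma mq_mul (M M' : Matrix (Fin n) (Fin n) ℤ_[2]) : mq (M * M') = mq M * mq M' :=
  Matrix.map_mul (f := PadicInt.Coe.ringHom)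

/-- the action on `ℚ₂ⁿ` -/
noncomputable def mv (M : Matrix (Fin n) (Fin n) ℤ_[2]) : (Fin n → ℚ_[2]) →+ (Fin n → ℚ_[2]) where
  toFun x := mq M *ᵥ x
  map_zero' := mulVec_zero _
  map_add' x y := mulVec_add _ x y

lemma mv_lat (M : Matrix (Fin n) (Fin n) ℤ_[2]) : Lat n ≤ (Lat n).comap (mv M) := by
  intro x hx i
  show ‖(mq M *ᵥ x) i‖ ≤ 1
  unfold Matrix.mulVec dotProduct
  exact norm_sum_le _ _ fun j _ => norm_mul_le1 (M i j).2 (hx j)

/-- the action on `(ℚ₂/ℤ₂)ⁿ` -/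
noncomputable def act (M : Matrix (Fin n) (Fin n) ℤ_[2]) : WW n →+ WW n :=
  QuotientAddGroup.map (Lat n) (Lat n) (mv M) (mv_lat M)

lemma act_mk (M : Matrix (Fin n) (Fin n) ℤ_[2]) (x : Fin n → ℚ_[2]) :
    act M (QuotientAddGroup.mk x : WW n) = QuotientAddGroup.mk (mq M *ᵥ x) := rfl

lemma act_mul (M M' : Matrix (Fin n) (Fin n) ℤ_[2]) (w : WW n) :
    act (M * M') w = act M (act M' w) := by
  induction w using QuotientAddGroup.induction_on with
  | H x => rw [act_mk, act_mk, act_mk, mq_mul, mulVec_mulVec]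

lemma mk_eq {x y : Fin n → ℚ_[2]} :
    (QuotientAddGroup.mk x : WW n) = QuotientAddGroup.mk y ↔ ∀ i, ‖y i - x i‖ ≤ 1 := by
  rw [QuotientAddGroup.eq]
  constructor
  · intro h i
    have := h i
    simp only [Pi.add_apply, Pi.neg_apply] at this
    have e : y i - x i = -x i + y i := by ring
    rw [e]
    exact this
  · intro h i
    have e : (-x + y) i = y i - x i := by
      simp only [Pi.add_apply, Pi.neg_apply]
      ring
    rw [e]
    exact h i

lemma mk_zero {x : Fin n → ℚ_[2]} : (QuotientAddGroup.mk x : WW n) = 0 ↔ ∀ i, ‖x i‖ ≤ 1 := by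
  rw [QuotientAddGroup.eq_zero_iff]
  exact mem_Lat

lemma exists_mk (w : WW n) : ∃ x, (QuotientAddGroup.mk x : WW n) = w :=
  QuotientAddGroup.mk_surjective w

/-- the quotient is divisible by 2 -/
lemma half (w : WW n) : ∃ w' : WW n, w' + w' = w := by
  obtain ⟨x, rfl⟩ := exists_mk w
  refine ⟨QuotientAddGroup.mk ((1 / 2 : ℚ_[2]) • x), ?_⟩
  rw [← QuotientAddGroup.mk_add, ← add_smul]
  norm_num

/-- the bits of an element killed by two -/
noncomputable def bt (w : WW n) (i : Fin n) : ZMod 2 := rd (2 * (Quotient.out w) i)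

lemma rd_congr {x y : ℚ_[2]} (hx : ‖x‖ ≤ 1) (h : ‖y - x‖ < 1) : rd y = rd x := by
  have e : y = x + (y - x) := by ring
  rw [e, rd_add hx h.le, rd_of_lt h, add_zero]

lemma norm_two_mul (x : ℚ_[2]) : ‖2 * x‖ = 2⁻¹ * ‖x‖ := by
  rw [norm_mul, norm_two]

lemma bt_mk {x : Fin n → ℚ_[2]} (h : ∀ i, ‖2 * x i‖ ≤ 1) (i : Fin n) :
    bt (QuotientAddGroup.mk x : WW n) i = rd (2 * x i) := by
  unfold bt
  have h1 : (QuotientAddGroup.mk x : WW n) =
      QuotientAddGroup.mk (Quotient.out (QuotientAddGroup.mk x : WW n)) :=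
    (QuotientAddGroup.out_eq' (QuotientAddGroup.mk x : WW n)).symm
  have h2 := mk_eq.1 h1 i
  refine rd_congr (h i) ?_
  rw [← mul_sub, norm_two_mul]
  linarith

lemma two_mk {x : Fin n → ℚ_[2]} :
    (QuotientAddGroup.mk x : WW n) + QuotientAddGroup.mk x = 0 ↔ ∀ i, ‖2 * x i‖ ≤ 1 := by
  rw [← QuotientAddGroup.mk_add, mk_zero]
  simp only [Pi.add_apply, ← two_mul]

lemma bt_add {w w' : WW n} (hw : w + w = 0) (hw' : w' + w' = 0) (i : Fin n) :
    bt (w + w') i = bt w i + bt w' i := by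
  obtain ⟨x, rfl⟩ := exists_mk w
  obtain ⟨x', rfl⟩ := exists_mk w'
  rw [two_mk] at hw hw'
  rw [bt_mk hw, bt_mk hw', ← QuotientAddGroup.mk_add, bt_mk]
  · rw [Pi.add_apply, mul_add, rd_add (hw i) (hw' i)]
  · intro j
    rw [Pi.add_apply, mul_add]
    exact (Padic.nonarchimedean _ _).trans (max_le (hw j) (hw' j))

lemma bt_zero (i : Fin n) : bt (0 : WW n) i = 0 := by
  have h := bt_mk (n := n) (x := 0) (fun i => by simp) i
  rw [QuotientAddGroup.mk_zero] at h
  rw [h]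
  simp [rd_zero]

lemma norm_le_half {x : ℚ_[2]} (h : ‖x‖ < 1) : ‖x‖ ≤ 2⁻¹ := by
  have h1 := (Padic.norm_le_pow_iff_norm_lt_pow_add_one x (-1)).2 (by simpa using h)
  simpa using h1

lemma bt_inj {w w' : WW n} (hw : w + w = 0) (hw' : w' + w' = 0) (h : ∀ i, bt w i = bt w' i) :
    w = w' := by
  have h1 : (w - w') + (w - w') = 0 := by
    have e : (w - w') + (w - w') = (w + w) - (w' + w') := by abel
    rw [e, hw, hw', sub_zero]
  have h2 : ∀ i, bt (w - w') i = 0 := by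
    intro i
    have e : w = (w - w') + w' := by abel
    have h3 := bt_add h1 hw' i
    rw [← e, h i] at h3
    exact left_eq_add.1 (h3.trans (add_comm _ _))
  obtain ⟨x, hx⟩ := exists_mk (w - w')
  rw [← hx] at h1 h2
  rw [two_mk] at h1
  have h4 : (QuotientAddGroup.mk x : WW n) = 0 := by
    rw [mk_zero]
    intro i
    have h5 := h2 i
    rw [bt_mk h1] at h5
    have h6 : ‖2 * x i‖ < 1 := by
      by_contra hcon
      unfold rd at h5
      rw [if_neg hcon] at h5
      exact absurd h5 (by decide)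
    have h7 := norm_le_half h6
    rw [norm_two_mul] at h7
    linarith
  rw [hx] at h4
  exact sub_eq_zero.1 h4

/-- the quotient is discrete -/
lemma ww_disc : DiscreteTopology (WW n) := by
  have h : IsOpen ((Lat n : AddSubgroup (Fin n → ℚ_[2])) : Set (Fin n → ℚ_[2])) := by
    have e : ((Lat n : AddSubgroup (Fin n → ℚ_[2])) : Set (Fin n → ℚ_[2])) =
        ⋂ i, {x | x i ∈ Metric.closedBall (0 : ℚ_[2]) 1} := by
      ext x
      simp [mem_Lat]
    rw [e]
    refine isOpen_iInter_of_finite fun i => ?_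
    exact (IsUltrametricDist.isOpen_closedBall (0 : ℚ_[2]) one_ne_zero).preimage (continuous_apply i)
  exact QuotientAddGroup.discreteTopology h

end Pool.Agent.Y712
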