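import Pool.Agent.Y712.WSel
import Pool.Agent.Y712.Fin
import Pool.Agent.TH841.SH.Pw

/-!
# Selmer groups with divisible coefficients: the orders of the torsion subgroups
-/

set_option autoImplicit false

namespace Pool.Agent.Y712

open NumberField Pool.Agent.W569.FM Matrix Finset Polynomial

variable {n : ℕ}

lemma IsSelW.zero (N : ℕ) (A : GQ → Matrix (Fin n) (Fin n) ℤ_[2]) :
    IsSelW N A (fun _ => 0) := by
  refine ⟨continuous_const, fun σ τ => ?_, fun P _ _ => ⟨fun _ => 0, continuousOn_const,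
    fun σ τ _ _ => ?_, ⟨0, fun σ _ => ?_⟩, 0, fun σ _ => ?_⟩⟩
  · rw [map_zero, add_zero]
  · rw [mulVec_zero, add_zero]
  · rw [mulVec_zero, sub_zero]
  · rw [map_zero, sub_zero, add_zero, QuotientAddGroup.mk_zero]

lemma IsSelW.add {N : ℕ} {A : GQ → Matrix (Fin n) (Fin n) ℤ_[2]} {c c' : GQ → WW n}
    (hc : IsSelW N A c) (hc' : IsSelW N A c') : IsSelW N A (fun σ => c σ + c' σ) := by
  obtain ⟨h1, h2, h3⟩ := hc
  obtain ⟨g1, g2, g3⟩ := hc'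
  refine ⟨h1.add g1, fun σ τ => ?_, fun P hP hPN => ?_⟩
  · show c (σ * τ) + c' (σ * τ) = c σ + c' σ + act (A σ) (c τ + c' τ)
    rw [h2, g2, map_add]
    abel
  · obtain ⟨F, f1, f2, ⟨v, f3⟩, w, f4⟩ := h3 P hP hPN
    obtain ⟨F', f1', f2', ⟨v', f3'⟩, w', f4'⟩ := g3 P hP hPN
    refine ⟨fun σ => F σ + F' σ, f1.add f1', fun σ τ hσ hτ => ?_, ⟨v + v', fun σ hσ => ?_⟩,
      w + w', fun σ hσ => ?_⟩
    · show F (σ * τ) + F' (σ * τ) = F σ + F' σ + mq (A σ) *ᵥ (F τ + F' τ)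
      rw [f2 σ τ hσ hτ, f2' σ τ hσ hτ, mulVec_add]
      abel
    · show F σ + F' σ = _
      rw [f3 σ hσ, f3' σ hσ, mulVec_add]
      abel
    · show c σ + c' σ = QuotientAddGroup.mk (F σ + F' σ) + _
      rw [f4 σ hσ, f4' σ hσ, QuotientAddGroup.mk_add, map_add]
      abel

lemma IsSelW.neg {N : ℕ} {A : GQ → Matrix (Fin n) (Fin n) ℤ_[2]} {c : GQ → WW n}
    (hc : IsSelW N A c) : IsSelW N A (fun σ => -c σ) := by
  obtain ⟨h1, h2, h3⟩ := hc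
  refine ⟨h1.neg, fun σ τ => ?_, fun P hP hPN => ?_⟩
  · show -c (σ * τ) = -c σ + act (A σ) (-c τ)
    rw [h2, map_neg]
    abel
  · obtain ⟨F, f1, f2, ⟨v, f3⟩, w, f4⟩ := h3 P hP hPN
    refine ⟨fun σ => -F σ, f1.neg, fun σ τ hσ hτ => ?_, ⟨-v, fun σ hσ => ?_⟩,
      -w, fun σ hσ => ?_⟩
    · show -F (σ * τ) = -F σ + mq (A σ) *ᵥ (-F τ)
      rw [f2 σ τ hσ hτ, mulVec_neg]
      abel
    · show -F σ = _
      rw [f3 σ hσ, mulVec_neg]
      abel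
    · show -c σ = QuotientAddGroup.mk (-F σ) + _
      rw [f4 σ hσ, QuotientAddGroup.mk_neg, map_neg]
      abel

/-- the Selmer crossed homomorphisms -/
def ZW (N : ℕ) (A : GQ → Matrix (Fin n) (Fin n) ℤ_[2]) : AddSubgroup (GQ → WW n) where
  carrier := {c | IsSelW N A c}
  zero_mem' := IsSelW.zero N A
  add_mem' := fun h h' => h.add h'
  neg_mem' := fun h => h.neg

/-- the coboundaries -/
def BW (A : GQ → Matrix (Fin n) (Fin n) ℤ_[2]) : AddSubgroup (GQ → WW n) where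
  carrier := {c | ∃ u : WW n, ∀ σ, c σ = act (A σ) u - u}
  zero_mem' := ⟨0, fun σ => by rw [map_zero, sub_zero]; rfl⟩
  add_mem' := by
    rintro c c' ⟨u, hu⟩ ⟨u', hu'⟩
    refine ⟨u + u', fun σ => ?_⟩
    rw [Pi.add_apply, hu, hu', map_add]
    abel
  neg_mem' := by
    rintro c ⟨u, hu⟩
    refine ⟨-u, fun σ => ?_⟩
    rw [Pi.neg_apply, hu, map_neg]
    abel

/-- the Selmer group -/
abbrev SW (N : ℕ) (A : GQ → Matrix (Fin n) (Fin n) ℤ_[2]) : Type :=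
  ZW N A ⧸ (BW A).addSubgroupOf (ZW N A)

variable {ρ : GQ → Matrix (Fin n) (Fin n) ℤ_[2]} {N : ℕ}

/-- a representative killed by two -/
lemma exists_rep (h : Good ρ N) {d : ℤ} (hd : d ≠ 0) (x : SW N (TwI ρ d)) (hx : x + x = 0) :
    ∃ c : ZW N (TwI ρ d), QuotientAddGroup.mk c = x ∧ ∀ σ, c.1 σ + c.1 σ = 0 := by
  obtain ⟨c, rfl⟩ := QuotientAddGroup.mk_surjective x
  rw [← QuotientAddGroup.mk_add, QuotientAddGroup.eq_zero_iff, AddSubgroup.mem_addSubgroupOf] at hx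
  obtain ⟨u, hu⟩ := hx
  obtain ⟨u', hu'⟩ := half (-u)
  have hc' := c.2.add_cob (TwI_mul h hd) (act_cont h d) u'
  refine ⟨⟨_, hc'⟩, ?_, fun σ => ?_⟩
  · rw [QuotientAddGroup.eq, AddSubgroup.mem_addSubgroupOf]
    refine ⟨-u', fun σ => ?_⟩
    show -(c.1 σ + (act (TwI ρ d σ) u' - u')) + c.1 σ = _
    rw [map_neg]
    abel
  · have h1 : c.1 σ + c.1 σ = act (TwI ρ d σ) u - u := hu σ
    show (c.1 σ + (act (TwI ρ d σ) u' - u')) + (c.1 σ + (act (TwI ρ d σ) u' - u')) = 0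
    have h2 : (c.1 σ + (act (TwI ρ d σ) u' - u')) + (c.1 σ + (act (TwI ρ d σ) u' - u')) =
        (c.1 σ + c.1 σ) + (act (TwI ρ d σ) (u' + u') - (u' + u')) := by
      rw [map_add]
      abel
    rw [h2, h1, hu', map_neg]
    abel

/-- **the 2-torsion of the Selmer group** -/
theorem card_SW (h : Good ρ N) {μ : Fin n → Fin n → ℤ} (hμ : ∀ i j, Squarefree (μ i j))
    (hμ2 : ∀ σ i j, rd (Mb ρ σ i j) = qz (μ i j) σ) {d : ℤ} (hd : d ≠ 0) :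
    Finite {x : SW N (TwI ρ d) // x + x = 0} ∧
      Nat.card {x : SW N (TwI ρ d) // x + x = 0} ≤ (ER N μ d).ncard := by
  classical
  have hfin := ER_fin h.ne μ hd
  have h1 : ∀ x : {x : SW N (TwI ρ d) // x + x = 0}, ∃ c : ZW N (TwI ρ d), ∃ e ∈ ER N μ d,
      QuotientAddGroup.mk c = x.1 ∧ (∀ σ, c.1 σ + c.1 σ = 0) ∧
        ∀ σ i, bt (c.1 σ) i = qz (e i) σ := by
    intro x
    obtain ⟨c, hc1, hc2⟩ := exists_rep h hd x.1 x.2
    obtain ⟨e, he, he2⟩ := exists_eW h hd c.2 hc2 hμ hμ2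
    exact ⟨c, e, he, hc1, hc2, he2⟩
  choose c e he hc1 hc2 he2 using h1
  have hinj : Function.Injective (fun x => (⟨e x, he x⟩ : ER N μ d)) := by
    intro x y hxy
    have hxy' : e x = e y := congrArg Subtype.val hxy
    apply Subtype.ext
    rw [← hc1 x, ← hc1 y]
    congr 1
    apply Subtype.ext
    funext σ
    refine bt_inj (hc2 x σ) (hc2 y σ) fun i => ?_
    rw [he2, he2, hxy']
  have hF : Finite (ER N μ d) := hfin
  exact ⟨Finite.of_injective _ hinj, Nat.card_le_card_of_injective _ hinj⟩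

/-- the `2 ^ m`-torsion -/
theorem card_SWm (h : Good ρ N) {μ : Fin n → Fin n → ℤ} (hμ : ∀ i j, Squarefree (μ i j))
    (hμ2 : ∀ σ i j, rd (Mb ρ σ i j) = qz (μ i j) σ) {d : ℤ} (hd : d ≠ 0) (m : ℕ) :
    Finite {x : SW N (TwI ρ d) // 2 ^ m • x = 0} ∧
      Nat.card {x : SW N (TwI ρ d) // 2 ^ m • x = 0} ≤ (ER N μ d).ncard ^ m := by
  obtain ⟨h1, h2⟩ := card_SW h hμ hμ2 hd
  obtain ⟨h3, h4⟩ := Pool.Agent.TH841.SH.card_tor h1 m
  exact ⟨h3, h4.trans (Nat.pow_le_pow_left h2 m)⟩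

lemma TwI_sq {a b : ℤ} (ha : a ≠ 0) (hb : b ≠ 0) : TwI ρ (a * b ^ 2) = TwI ρ a := by
  funext σ
  unfold TwI
  rw [qc_sq ha hb]

/-- **the moments of the orders of the torsion subgroups** -/
theorem mom_W (n : ℕ) {N : ℕ} (hN : N ≠ 0) (D : ℤ[X]) (hD : D ≠ 0) (k L : ℕ) :
    ∃ C : ℝ, ∀ (N' : ℤ) (M : ℕ), 1 ≤ M → |N'| ≤ (M : ℤ) ^ L →
      ∀ ρ : ℤ → GQ → Matrix (Fin n) (Fin n) ℤ_[2], (∀ t, Good (ρ t) N) → ∀ m : ℕ, 1 ≤ m →
      (∀ t ∈ (Ioc N' (N' + M)).filter (fun t => D.eval t ≠ 0),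
        Finite {x : SW N (TwI (ρ t) (D.eval t)) // 2 ^ m • x = 0}) ∧
      ∑ t ∈ (Ioc N' (N' + M)).filter (fun t => D.eval t ≠ 0),
        ((Nat.card {x : SW N (TwI (ρ t) (D.eval t)) // 2 ^ m • x = 0} : ℝ) ^ ((1 : ℝ) / m)) ^ k ≤
          C * M := by
  obtain ⟨F, hF0, ⟨C, hC⟩, hF2⟩ := mom_maj (N := N) n hN D hD k L
  refine ⟨C, fun N' M hM hN' ρ hρ m hm => ?_⟩
  have hN'' : N'.natAbs ≤ M ^ L := by
    have : ((N'.natAbs : ℕ) : ℤ) ≤ ((M ^ L : ℕ) : ℤ) := by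
      rw [Int.natCast_natAbs]
      push_cast
      exact hN'
    exact_mod_cast this
  have key : ∀ t, D.eval t ≠ 0 → Finite {x : SW N (TwI (ρ t) (D.eval t)) // 2 ^ m • x = 0} ∧
      ((Nat.card {x : SW N (TwI (ρ t) (D.eval t)) // 2 ^ m • x = 0} : ℝ) ^ ((1 : ℝ) / m)) ^ k ≤
        F t := by
    intro t ht
    obtain ⟨d, b, hd, hb, hdb, hF3⟩ := hF2 t ht
    obtain ⟨μ, hμ, hμ2⟩ := exists_mu (hρ t)
    rw [hdb, TwI_sq hd hb]
    obtain ⟨h1, h2⟩ := card_SWm (hρ t) hμ hμ2 hd m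
    refine ⟨h1, le_trans ?_ (hF3 μ (adm_of (hρ t) hμ hμ2))⟩
    refine pow_le_pow_left₀ (by positivity) ?_ k
    have hm0 : (m : ℝ) ≠ 0 := by
      have : (0 : ℝ) < m := by exact_mod_cast hm
      exact this.ne'
    calc (Nat.card {x : SW N (TwI (ρ t) d) // 2 ^ m • x = 0} : ℝ) ^ ((1 : ℝ) / m)
        ≤ (((ER N μ d).ncard : ℝ) ^ m) ^ ((1 : ℝ) / m) := by
          refine Real.rpow_le_rpow (by positivity) ?_ (by positivity)
          exact_mod_cast h2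
      _ = re N μ d := by
          rw [one_div, Real.pow_rpow_inv_natCast (Nat.cast_nonneg _) (by omega)]
          rfl
  refine ⟨fun t ht => (key t (mem_filter.1 ht).2).1, le_trans (sum_le_sum fun t ht => ?_)
    (hC N' M hM hN'')⟩
  exact (key t (mem_filter.1 ht).2).2

end Pool.Agent.Y712
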