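import Pool.Agent.Y712.WDef
import Pool.Agent.Y712.Bnd

/-!
# Selmer groups with divisible coefficients: the elements killed by two
-/

set_option autoImplicit false

namespace Pool.Agent.Y712

open NumberField Pool.Agent.W569.FM Matrix

variable {n : ℕ}

/-- the decomposition group -/
def InDec (P : Ideal (OO ℚ)) (σ : GQ) : Prop := ∀ x : OO ℚ, σ • x ∈ P ↔ x ∈ P

/-- the action on `ρ ⊗ χ_d`, with integral coefficients -/
noncomputable def TwI (ρ : GQ → Matrix (Fin n) (Fin n) ℤ_[2]) (d : ℤ) (σ : GQ) :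
    Matrix (Fin n) (Fin n) ℤ_[2] := (qc d σ : ℤ_[2]) • ρ σ

lemma mq_TwI (ρ : GQ → Matrix (Fin n) (Fin n) ℤ_[2]) (d : ℤ) (σ : GQ) :
    mq (TwI ρ d σ) = Tw ρ d σ := by
  ext i j
  unfold mq TwI Tw
  rw [Matrix.map_apply, Matrix.smul_apply, Matrix.smul_apply, Matrix.map_apply, smul_eq_mul,
    smul_eq_mul, PadicInt.coe_mul]
  congr 1

/-- the Selmer condition with divisible coefficients -/
def IsSelW (N : ℕ) (A : GQ → Matrix (Fin n) (Fin n) ℤ_[2]) (c : GQ → WW n) : Prop :=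
  Continuous c ∧ (∀ σ τ, c (σ * τ) = c σ + act (A σ) (c τ)) ∧
    ∀ P : Ideal (OO ℚ), P.IsMaximal → ((2 * N : ℕ) : OO ℚ) ∉ P →
      ∃ F : GQ → Fin n → ℚ_[2], ContinuousOn F {σ | InDec P σ} ∧
        (∀ σ τ, InDec P σ → InDec P τ → F (σ * τ) = F σ + mq (A σ) *ᵥ F τ) ∧
        (∃ v : Fin n → ℚ_[2], ∀ σ, InInertia P σ → F σ = mq (A σ) *ᵥ v - v) ∧
        ∃ w : WW n, ∀ σ, InDec P σ → c σ = QuotientAddGroup.mk (F σ) + (act (A σ) w - w)

lemma inDec_of_inertia {P : Ideal (OO ℚ)} {σ : GQ} (h : InInertia P σ) : InDec P σ := by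
  intro x
  have h1 := h x
  constructor
  · intro h2
    have : x = σ • x - (σ • x - x) := by ring
    rw [this]
    exact P.sub_mem h2 h1
  · intro h2
    have : σ • x = (σ • x - x) + x := by ring
    rw [this]
    exact P.add_mem h1 h2

lemma inDec_of_frob {P : Ideal (OO ℚ)} (hP : P.IsMaximal) {p : ℕ} (hp : p.Prime) {σ : GQ}
    (h : FrobAt p P σ) : InDec P σ := by
  intro x
  have h1 := h x
  constructor
  · intro h2
    have h3 : x ^ p ∈ P := by
      have : x ^ p = σ • x - (σ • x - x ^ p) := by ring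
      rw [this]
      exact P.sub_mem h2 h1
    exact hP.isPrime.mem_of_pow_mem _ h3
  · intro h2
    have : σ • x = (σ • x - x ^ p) + x ^ p := by ring
    rw [this]
    exact P.add_mem h1 (P.pow_mem_of_mem h2 _ hp.pos)

lemma inDec_mul {P : Ideal (OO ℚ)} {σ τ : GQ} (h : InDec P σ) (h' : InDec P τ) :
    InDec P (σ * τ) := by
  intro x
  rw [mul_smul, h, h']

/-- adding a coboundary -/
lemma IsSelW.add_cob {N : ℕ} {A : GQ → Matrix (Fin n) (Fin n) ℤ_[2]} {c : GQ → WW n}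
    (hc : IsSelW N A c) (hA : ∀ σ τ, A (σ * τ) = A σ * A τ)
    (hcA : ∀ u : WW n, Continuous fun σ => act (A σ) u) (u : WW n) :
    IsSelW N A (fun σ => c σ + (act (A σ) u - u)) := by
  obtain ⟨h1, h2, h3⟩ := hc
  refine ⟨h1.add ((hcA u).sub continuous_const), fun σ τ => ?_, fun P hP hPN => ?_⟩
  · show c (σ * τ) + (act (A (σ * τ)) u - u) = c σ + (act (A σ) u - u) +
      act (A σ) (c τ + (act (A τ) u - u))
    rw [h2, hA, act_mul, map_add, map_sub]
    abel
  · obtain ⟨F, hF1, hF2, hF3, w, hw⟩ := h3 P hP hPN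
    refine ⟨F, hF1, hF2, hF3, w + u, fun σ hσ => ?_⟩
    show c σ + (act (A σ) u - u) = _
    rw [hw σ hσ, map_add]
    abel

section good

variable {ρ : GQ → Matrix (Fin n) (Fin n) ℤ_[2]} {N : ℕ}

lemma TwI_mul (h : Good ρ N) {d : ℤ} (hd : d ≠ 0) (σ τ : GQ) :
    TwI ρ d (σ * τ) = TwI ρ d σ * TwI ρ d τ := by
  unfold TwI
  rw [h.mul, qc_mul hd, Matrix.smul_mul, Matrix.mul_smul, smul_smul]
  push_cast
  rfl

/-- the coordinates of the action on a representative -/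
lemma act_coord {d : ℤ} {σ : GQ} (x : Fin n → ℚ_[2]) (i : Fin n) :
    (mq (TwI ρ d σ) *ᵥ x) i = (qc d σ : ℚ_[2]) * (x i + 2 * ∑ j, Mb ρ σ i j * x j) := by
  rw [mq_TwI, Tw_mulVec]

lemma norm_four : ‖(4 : ℚ_[2])‖ ≤ 1 := by
  have : (4 : ℚ_[2]) = 2 * 2 := by norm_num
  rw [this]
  exact norm_mul_le1 (by rw [norm_two]; norm_num) (by rw [norm_two]; norm_num)

/-- elements killed by two are invariant -/
lemma act_two (h : Good ρ N) {d : ℤ} {σ : GQ} {w : WW n} (hw : w + w = 0) :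
    act (TwI ρ d σ) w = w := by
  obtain ⟨x, rfl⟩ := exists_mk w
  rw [two_mk] at hw
  rw [act_mk, mk_eq]
  intro i
  rw [act_coord]
  have h3 : ‖∑ j, Mb ρ σ i j * (2 * x j)‖ ≤ 1 :=
    norm_sum_le _ _ fun l _ => norm_mul_le1 (Mb_norm h _ _ _) (hw _)
  have h4 : 2 * ∑ j, Mb ρ σ i j * x j = ∑ j, Mb ρ σ i j * (2 * x j) := by
    rw [Finset.mul_sum]
    exact Finset.sum_congr rfl fun j _ => by ring
  rw [h4]
  rcases qc_val d σ with h7 | h7 <;> rw [h7]
  · have e : x i - ((1 : ℤ) : ℚ_[2]) * (x i + ∑ j, Mb ρ σ i j * (2 * x j)) =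
        -∑ j, Mb ρ σ i j * (2 * x j) := by
      push_cast
      ring
    rw [e, norm_neg]
    exact h3
  · have e : x i - ((-1 : ℤ) : ℚ_[2]) * (x i + ∑ j, Mb ρ σ i j * (2 * x j)) =
        2 * x i + ∑ j, Mb ρ σ i j * (2 * x j) := by
      push_cast
      ring
    rw [e]
    exact (Padic.nonarchimedean _ _).trans (max_le (hw i) h3)

lemma qc_cont (d : ℤ) : Continuous fun σ : GQ => ((qc d σ : ℤ) : ℤ_[2]) :=
  ((qc_lc d).comp (fun z : ℤ => (z : ℤ_[2]))).continuous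

lemma TwI_cont (h : Good ρ N) (d : ℤ) : Continuous (TwI ρ d) := by
  have e : TwI ρ d = fun σ => ((qc d σ : ℤ) : ℤ_[2]) • ρ σ := rfl
  rw [e]
  exact (qc_cont d).smul h.cont

lemma act_cont (h : Good ρ N) (d : ℤ) (u : WW n) : Continuous fun σ => act (TwI ρ d σ) u := by
  obtain ⟨x, rfl⟩ := exists_mk u
  have e : (fun σ => act (TwI ρ d σ) (QuotientAddGroup.mk x : WW n)) =
      fun σ => (QuotientAddGroup.mk (mq (TwI ρ d σ) *ᵥ x) : WW n) := rfl
  rw [e]
  have h1 : Continuous fun σ => mq (TwI ρ d σ) := by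
    have h2 := TwI_cont h d
    refine continuous_pi fun i => continuous_pi fun j => ?_
    exact continuous_subtype_val.comp ((continuous_apply_apply i j).comp h2)
  have h3 : Continuous fun σ => mq (TwI ρ d σ) *ᵥ x := h1.matrix_mulVec continuous_const
  exact continuous_quotient_mk'.comp h3

/-- the local condition at the primes that do not divide `2 N d` -/
lemma unr_W (h : Good ρ N) {d : ℤ} {c : GQ → WW n} (hc : IsSelW N (TwI ρ d) c)
    {P : Ideal (OO ℚ)} (hP : P.IsMaximal) {p : ℕ} (hp : p.Prime) (hp2 : p ≠ 2)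
    (hpP : (p : OO ℚ) ∈ P) (hpN : ¬ p ∣ N) (hpd : ¬ (p : ℤ) ∣ d) {τ : GQ} (hτ : InInertia P τ) :
    c τ = 0 := by
  have h2 := not_mem_two hP hp hp2 hpP
  obtain ⟨F, -, -, ⟨v, hv⟩, w, hw⟩ := hc.2.2 P hP (two_mul_not_mem hP hp hpP hp2 hpN)
  have h1 : ρ τ = 1 := h.ur P hP (natCast_not_mem hP hp hpP hpN) τ hτ
  have h3 : qc d τ = 1 := qc_inertia hP h2 (fun h' => hpd ((int_mem_iff hP hp hpP d).1 h')) hτ
  have h4 : ∀ x : Fin n → ℚ_[2], mq (TwI ρ d τ) *ᵥ x = x := by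
    intro x
    funext i
    rw [act_coord, h3]
    have h5 : ∀ j, Mb ρ τ i j = 0 := by
      intro j
      unfold Mb
      rw [h1, sub_self]
      simp
    simp [h5]
  rw [hw τ (inDec_of_inertia hτ), hv τ hτ, h4, sub_self, QuotientAddGroup.mk_zero, zero_add]
  obtain ⟨x, rfl⟩ := exists_mk w
  rw [act_mk, h4, sub_self]

/-- the local condition at the primes that divide `d` exactly once -/
lemma ram_W (h : Good ρ N) {d : ℤ} (hd : d ≠ 0) {c : GQ → WW n} (hc : IsSelW N (TwI ρ d) c)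
    {P : Ideal (OO ℚ)} (hP : P.IsMaximal) {p : ℕ} (hp : p.Prime) (hp2 : p ≠ 2)
    (hpP : (p : OO ℚ) ∈ P) (hpN : ¬ p ∣ N) {τ : GQ} (hτ : InInertia P τ) (hdτ : qc d τ = -1) :
    ∃ w₁ : WW n, ∀ g, (∀ x, x ∈ P → g • x ∈ P) → InDec P g →
      c g = act (TwI ρ d g) w₁ - w₁ := by
  obtain ⟨F, -, hF, ⟨v, hv⟩, w, hw⟩ := hc.2.2 P hP (two_mul_not_mem hP hp hpP hp2 hpN)
  have hN := natCast_not_mem hP hp hpP hpN
  have key : ∀ σ, InInertia P σ → qc d σ = -1 → ∀ x : Fin n → ℚ_[2],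
      mq (TwI ρ d σ) *ᵥ x = -x := by
    intro σ hσ hσd x
    have h1 : ρ σ = 1 := h.ur P hP hN σ hσ
    funext i
    rw [act_coord, hσd]
    have h5 : ∀ j, Mb ρ σ i j = 0 := by
      intro j
      unfold Mb
      rw [h1, sub_self]
      simp
    simp [h5]
  refine ⟨QuotientAddGroup.mk v + w, fun g hg hgD => ?_⟩
  -- the conjugate
  have hτ' : InInertia P (g * τ * g⁻¹) := by
    intro x
    have h3 : (g * τ * g⁻¹) • x - x = g • (τ • (g⁻¹ • x) - g⁻¹ • x) := by
      rw [smul_sub, smul_inv_smul, mul_smul, mul_smul]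
    rw [h3]
    exact hg _ (hτ _)
  have hdτ' : qc d (g * τ * g⁻¹) = -1 := by
    rw [qc_comm hd, hdτ]
  have hFg : F g = mq (TwI ρ d g) *ᵥ v - v := by
    have e1 : g * τ = (g * τ * g⁻¹) * g := by group
    have e2 := hF g τ hgD (inDec_of_inertia hτ)
    rw [e1, hF _ g (inDec_of_inertia hτ') hgD, hv τ hτ, hv _ hτ', key τ hτ hdτ, key _ hτ' hdτ',
      key _ hτ' hdτ', mulVec_sub, mulVec_neg] at e2
    have e3 : (2 : ℚ_[2]) • F g = (2 : ℚ_[2]) • (mq (TwI ρ d g) *ᵥ v - v) := by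
      rw [two_smul, two_smul]
      have e4 : F g + F g = F g + F g + (-v - v + -F g - (F g + (-(mq (TwI ρ d g) *ᵥ v) -
          mq (TwI ρ d g) *ᵥ v))) := by
        rw [e2]
        abel
      rw [e4]
      abel
    have e5 := congrArg (fun z => (2⁻¹ : ℚ_[2]) • z) e3
    simpa [smul_smul] using e5
  rw [hw g hgD, hFg, map_add, act_mk, QuotientAddGroup.mk_sub]
  abel

/-- **the Kummer generators of an element killed by two** -/
theorem exists_eW (h : Good ρ N) {d : ℤ} (hd : d ≠ 0) {c : GQ → WW n}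
    (hc : IsSelW N (TwI ρ d) c) (h2 : ∀ σ, c σ + c σ = 0)
    {μ : Fin n → Fin n → ℤ} (hμ : ∀ i j, Squarefree (μ i j))
    (hμ2 : ∀ σ i j, rd (Mb ρ σ i j) = qz (μ i j) σ) :
    ∃ e ∈ ER N μ d, ∀ σ i, bt (c σ) i = qz (e i) σ := by
  have hdisc : DiscreteTopology (WW n) := ww_disc
  have hlc : ∀ i, IsLocallyConstant fun σ => bt (c σ) i := fun i =>
    (IsLocallyConstant.of_discrete (fun w : WW n => bt w i)).comp_continuous hc.1
  have hhom : ∀ i σ τ, bt (c (σ * τ)) i = bt (c σ) i + bt (c τ) i := by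
    intro i σ τ
    rw [hc.2.1, act_two h (h2 τ), bt_add (h2 σ) (h2 τ)]
  have h1 : ∀ i, ∃ e : ℤ, Squarefree e ∧ ∀ σ, bt (c σ) i = qz e σ := fun i =>
    kum2 (fun σ => bt (c σ) i) (hlc i) fun σ τ => hhom i σ τ
  choose e he he2 using h1
  have he2' : ∀ σ i, bt (c σ) i = qz (e i) σ := fun σ i => he2 i σ
  refine ⟨e, ⟨he, fun p hp hp2 hpN hpd i hpe => ?_, fun p hp hp2 hpN hpd hpd2 i => ?_⟩, he2'⟩
  · obtain ⟨P, hP, hpP, φ, τ, _, hτ, hτ1, _⟩ := exists_ram hp hp2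
    have h3 := unr_W h hc hP hp hp2 hpP hpN hpd hτ
    have h6 := he2' τ i
    rw [h3, bt_zero, qz_tau hP hp hp2 hpP hτ hτ1 (he i), if_pos hpe] at h6
    exact absurd h6 (by decide)
  · obtain ⟨P, hP, hpP, φ, τ, hφ, hτ, hτ1, hφ1⟩ := exists_ram hp hp2
    have hp0 : ((p : ℕ) : ℤ) ≠ 0 := by exact_mod_cast hp.ne_zero
    have hP2 := not_mem_two hP hp hp2 hpP
    have hN := natCast_not_mem hP hp hpP hpN
    obtain ⟨d', rfl⟩ := hpd
    have hd' : d' ≠ 0 := right_ne_zero_of_mul hd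
    have hpd' : ¬ (p : ℤ) ∣ d' := by
      rintro ⟨b, rfl⟩
      exact hpd2 ⟨b, by ring⟩
    rw [Int.mul_ediv_cancel_left _ hp0]
    have hdτ : qc (p * d') τ = -1 := by
      rw [qc_mul_left hp0 hd', hτ1,
        qc_inertia hP hP2 (fun h' => hpd' ((int_mem_iff hP hp hpP d').1 h')) hτ, mul_one]
    have hdφ : qc (p * d') φ = jacobiSym d' p := by
      rw [qc_mul_left hp0 hd', hφ1, one_mul, qc_frob hP hp hp2 hpP hφ hpd']
    obtain ⟨w₁, hw₁⟩ := ram_W h hd hc hP hp hp2 hpP hpN hτ hdτ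
    have hDφ := inDec_of_frob hP hp hφ
    have hDτ := inDec_of_inertia hτ
    have cφ := hw₁ φ (fun x hx => (hDφ x).2 hx) hDφ
    have cτ := hw₁ τ (fun x hx => (hDτ x).2 hx) hDτ
    obtain ⟨y, rfl⟩ := exists_mk w₁
    rw [act_mk, ← QuotientAddGroup.mk_sub] at cφ cτ
    have hρτ : ρ τ = 1 := h.ur P hP hN τ hτ
    have hMτ : ∀ a b, Mb ρ τ a b = 0 := by
      intro a b
      unfold Mb
      rw [hρτ, sub_self]
      simp
    -- the value at the inertia element
    have k1 : mq (TwI ρ (p * d') τ) *ᵥ y - y = fun i => -(2 * y i) := by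
      funext a
      rw [Pi.sub_apply, act_coord, hdτ]
      simp only [hMτ, zero_mul, Finset.sum_const_zero, mul_zero, add_zero]
      push_cast
      ring
    rw [k1] at cτ
    have k2 := h2 τ
    rw [cτ, two_mk] at k2
    have hx : ∀ a, ‖4 * y a‖ ≤ 1 := by
      intro a
      have := k2 a
      have e : 2 * -(2 * y a) = -(4 * y a) := by ring
      rw [e, norm_neg] at this
      exact this
    have r1 : ∀ a, rd (4 * y a) = if (p : ℤ) ∣ e a then 1 else 0 := by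
      intro a
      rw [← qz_tau hP hp hp2 hpP hτ hτ1 (he a), ← he2' τ a, cτ, bt_mk k2]
      have e : 2 * -(2 * y a) = -(4 * y a) := by ring
      rw [e, rd_neg]
    have r2 : ∀ a b, rd (Mb ρ φ a b) = if jacobiSym (μ a b) p = -1 then 1 else 0 := by
      intro a b
      rw [hμ2 φ a b, qz_frob hP hp hp2 hpP hφ (mu_unr h hμ hμ2 hp hp2 hpN a b)]
    have r3 : bt (c φ) i =
        if jacobiSym (if (p : ℤ) ∣ e i then e i / p else e i) p = -1 then 1 else 0 := by
      rw [he2' φ i]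
      by_cases hpe : (p : ℤ) ∣ e i
      · rw [if_pos hpe]
        obtain ⟨e', he'⟩ := hpe
        have he0 : e' ≠ 0 := by
          have := (he i).ne_zero
          rw [he'] at this
          exact right_ne_zero_of_mul this
        have hpe' : ¬ (p : ℤ) ∣ e' := by
          rintro ⟨b, rfl⟩
          have h3 : (p : ℤ) * p ∣ e i := ⟨b, by rw [he']; ring⟩
          have h4 := he i p h3
          rw [Int.isUnit_iff] at h4
          have := hp.two_le
          omega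
        rw [he', Int.mul_ediv_cancel_left _ hp0, qz_mul_left hp0 he0,
          qz_frob hP hp hp2 hpP hφ hpe']
        have : qz p φ = 0 := by
          unfold qz
          rw [hφ1]
          rfl
        rw [this, zero_add]
      · rw [if_neg hpe, qz_frob hP hp hp2 hpP hφ hpe]
    have hMw : ‖∑ j, Mb ρ φ i j * (4 * y j)‖ ≤ 1 :=
      norm_sum_le _ _ fun l _ => norm_mul_le1 (Mb_norm h _ _ _) (hx _)
    have r4 : rd (∑ j, Mb ρ φ i j * (4 * y j)) =
        ∑ j, (if jacobiSym (μ i j) p = -1 then 1 else 0) * (if (p : ℤ) ∣ e j then 1 else 0) := by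
      rw [rd_sum _ _ fun l _ => norm_mul_le1 (Mb_norm h _ _ _) (hx _)]
      refine Finset.sum_congr rfl fun j _ => ?_
      rw [rd_mul (Mb_norm h _ _ _) (hx _), r1, r2]
    have k3 := h2 φ
    rw [cφ, two_mk] at k3
    rw [← r3, ← r4, cφ, bt_mk k3, Pi.sub_apply, act_coord, hdφ]
    have e5 : ∑ j, Mb ρ φ i j * (4 * y j) = 4 * ∑ j, Mb ρ φ i j * y j := by
      rw [Finset.mul_sum]
      exact Finset.sum_congr rfl fun j _ => by ring
    have hna : Int.gcd d' p = 1 := by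
      rw [Int.gcd_comm]
      have h3 : ¬ p ∣ d'.natAbs := by
        rwa [← Int.natCast_dvd]
      exact hp.coprime_iff_not_dvd.mpr h3
    rcases jacobiSym.eq_one_or_neg_one hna with e6 | e6
    · rw [e6, if_neg (by decide), zero_add]
      have : 2 * (((1 : ℤ) : ℚ_[2]) * (y i + 2 * ∑ j, Mb ρ φ i j * y j) - y i) =
          ∑ j, Mb ρ φ i j * (4 * y j) := by
        rw [e5]
        push_cast
        ring
      rw [this]
    · rw [e6, if_pos rfl, ← r1 i]
      have : 2 * (((-1 : ℤ) : ℚ_[2]) * (y i + 2 * ∑ j, Mb ρ φ i j * y j) - y i) =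
          -(4 * y i + ∑ j, Mb ρ φ i j * (4 * y j)) := by
        rw [e5]
        push_cast
        ring
      rw [this, rd_neg, rd_add (hx i) hMw]

end good

end Pool.Agent.Y712
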